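import Pool.Agent.P.MP_e0c7cd_co.Defs

namespace Pool.Agent.Mst

open Complex Real

theorem ccw_pos (a b : ℂ) : 0 < ccw a b := (toIocMod_mem_Ioc Real.two_pi_pos 0 _).1

theorem ccw_le (a b : ℂ) : ccw a b ≤ 2 * π := by
  have := (toIocMod_mem_Ioc Real.two_pi_pos 0 (Complex.arg (b / a))).2
  simpa [ccw] using this

theorem exp_ccw {a b : ℂ} (ha : ‖a‖ = 1) (hb : ‖b‖ = 1) :
    Complex.exp ((ccw a b : ℂ) * I) * a = b := by
  have ha0 : a ≠ 0 := by rintro rfl; simp at ha
  have h1 : ‖b / a‖ = 1 := by rw [norm_div, ha, hb]; simp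
  have h2 := Complex.norm_mul_exp_arg_mul_I (b / a)
  rw [h1] at h2
  have h3 : ccw a b = Complex.arg (b / a) - toIocDiv Real.two_pi_pos 0 (Complex.arg (b / a)) • (2 * π) := rfl
  have h4 : Complex.exp ((ccw a b : ℂ) * I) = Complex.exp ((Complex.arg (b / a) : ℂ) * I) := by
    rw [h3, Complex.exp_eq_exp_iff_exists_int]
    refine ⟨-toIocDiv Real.two_pi_pos 0 (Complex.arg (b / a)), ?_⟩
    simp only [zsmul_eq_mul]
    push_cast
    ring
  rw [h4]
  have h5 : Complex.exp ((Complex.arg (b / a) : ℂ) * I) = b / a := by simpa using h2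
  rw [h5]
  field_simp

theorem angle_unique {s t : ℝ} (hs0 : 0 < s) (hs : s ≤ 2 * π) (ht0 : 0 < t) (ht : t ≤ 2 * π)
    (h : Complex.exp ((s : ℂ) * I) = Complex.exp ((t : ℂ) * I)) : s = t := by
  rw [Complex.exp_eq_exp_iff_exists_int] at h
  obtain ⟨n, hn⟩ := h
  have h1 : s = t + n * (2 * π) := by
    have := congrArg Complex.im hn
    simpa using this
  have hp := Real.pi_pos
  have h2 : (n : ℝ) < 1 := by
    by_contra hc
    push Not at hc
    nlinarith
  have h3 : (-1 : ℝ) < n := by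
    by_contra hc
    push Not at hc
    nlinarith
  have h4 : n < 1 := by exact_mod_cast h2
  have h5 : -1 < n := by exact_mod_cast h3
  have h6 : n = 0 := by omega
  rw [h1, h6]; simp

theorem ccw_eq {a b : ℂ} (ha : ‖a‖ = 1) (hb : ‖b‖ = 1) {t : ℝ} (ht0 : 0 < t) (ht : t ≤ 2 * π)
    (h : Complex.exp ((t : ℂ) * I) * a = b) : ccw a b = t := by
  have ha0 : a ≠ 0 := by rintro rfl; simp at ha
  refine angle_unique (ccw_pos a b) (ccw_le a b) ht0 ht ?_
  exact mul_right_cancel₀ ha0 ((exp_ccw ha hb).trans h.symm)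

theorem ccw_self {a : ℂ} (ha : ‖a‖ = 1) : ccw a a = 2 * π := by
  refine ccw_eq ha ha Real.two_pi_pos le_rfl ?_
  have : ((2 * π : ℝ) : ℂ) * I = 2 * π * I := by push_cast; ring
  rw [this, Complex.exp_two_pi_mul_I, one_mul]

theorem ccw_lt {a b : ℂ} (ha : ‖a‖ = 1) (hb : ‖b‖ = 1) (hab : a ≠ b) : ccw a b < 2 * π := by
  refine lt_of_le_of_ne (ccw_le a b) fun h => hab ?_
  have h1 := exp_ccw ha hb
  have : ((2 * π : ℝ) : ℂ) * I = 2 * π * I := by push_cast; ring
  rw [h, this, Complex.exp_two_pi_mul_I, one_mul] at h1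
  exact h1

theorem arg_neg_div {a b : ℂ} (ha : ‖a‖ = 1) (hb : ‖b‖ = 1) :
    Complex.arg (-(b / a)) = ccw a b - π := by
  have ha0 : a ≠ 0 := by rintro rfl; simp at ha
  have h1 := exp_ccw ha hb
  have h2 : -(b / a) = Complex.exp (((ccw a b - π : ℝ) : ℂ) * I) := by
    have : ((ccw a b - π : ℝ) : ℂ) * I = (ccw a b : ℂ) * I - π * I := by push_cast; ring
    have h3 : b / a = Complex.exp ((ccw a b : ℂ) * I) := by
      rw [div_eq_iff ha0]; exact h1.symm
    rw [this, Complex.exp_sub, Complex.exp_pi_mul_I, h3, div_neg, div_one]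
  rw [h2, Complex.exp_mul_I]
  have := Complex.arg_cos_add_sin_mul_I (θ := ccw a b - π)
    ⟨by linarith [ccw_pos a b], by linarith [ccw_le a b]⟩
  simpa using this

variable {V : Type} {G : SimpleGraph V} {p : V → ℂ}

/-- The vector of a dart. -/
def vec (p : V → ℂ) (d : G.Dart) : ℂ := p d.snd - p d.fst

/-- Counterclockwise angle between two darts, in `(0, 2π]`. -/
noncomputable def ang (p : V → ℂ) (a b : G.Dart) : ℝ := ccw (vec p a) (vec p b)

open Classical in
/-- Counterclockwise angle between two darts with the same tail, in `[0, 2π)`. -/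
noncomputable def ang0 (p : V → ℂ) (a b : G.Dart) : ℝ := if b = a then 0 else ang p a b

/-- Direction class modulo 60 degrees. -/
def cls (p : V → ℂ) (d : G.Dart) : ℂ := vec p d ^ 6

theorem vec_symm (d : G.Dart) : vec p d.symm = -vec p d := by simp [vec]

theorem cls_symm (d : G.Dart) : cls p d.symm = cls p d := by
  simp only [cls, vec_symm]; ring

theorem IsMatchstick.norm_vec (hm : IsMatchstick G p) (d : G.Dart) : ‖vec p d‖ = 1 := by
  have := hm.unit _ _ d.adj
  rw [dist_comm, dist_eq_norm] at this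
  exact this

theorem IsMatchstick.dart_eq (hm : IsMatchstick G p) {a b : G.Dart} (h : a.fst = b.fst)
    (hv : vec p a = vec p b) : a = b := by
  have h1 : p a.snd = p b.snd := by
    simp only [vec, h] at hv
    exact sub_left_injective hv
  exact SimpleGraph.Dart.ext _ _ (Prod.ext h (hm.inj h1))

/-- Every vertex is the tail of exactly four darts. -/
def Reg4 (G : SimpleGraph V) : Prop := ∀ v, {d : G.Dart | d.fst = v}.ncard = 4

/-- The clockwise rotation system of a drawing. -/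
structure Rot (G : SimpleGraph V) (p : V → ℂ) where
  rho : Equiv.Perm G.Dart
  fst : ∀ a, (rho a).fst = a.fst
  add : ∀ a y, y.fst = a.fst → ang p (rho a) y = ang p (rho a) a + ang0 p a y

/-- Reversal of darts as a permutation. -/
def symmPerm (G : SimpleGraph V) : Equiv.Perm G.Dart :=
  SimpleGraph.Dart.symm_involutive.toPerm _

/-- The face permutation. -/
def Rot.phi (R : Rot G p) : Equiv.Perm G.Dart := R.rho * symmPerm G

theorem Rot.phi_apply (R : Rot G p) (d : G.Dart) : R.phi d = R.rho d.symm := rfl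

theorem Rot.phi_fst (R : Rot G p) (d : G.Dart) : (R.phi d).fst = d.snd := by
  rw [R.phi_apply, R.fst]; rfl

/-- The angle of the corner at the head of `d`, in the face to the left of `d`. -/
noncomputable def Rot.theta (R : Rot G p) (d : G.Dart) : ℝ := ang p (R.phi d) d.symm

theorem Rot.theta_pos (R : Rot G p) (d : G.Dart) : 0 < R.theta d := ccw_pos _ _

theorem Rot.exp_theta (R : Rot G p) (hm : IsMatchstick G p) (d : G.Dart) :
    Complex.exp ((R.theta d : ℂ) * I) * vec p (R.phi d) = -vec p d := by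
  rw [← vec_symm]
  exact exp_ccw (hm.norm_vec _) (hm.norm_vec _)

/-- `d` lies on a positively oriented triangle. -/
def Rot.Tri (R : Rot G p) (d : G.Dart) : Prop :=
  R.phi (R.phi (R.phi d)) = d ∧ R.theta d = π / 3 ∧ R.theta (R.phi d) = π / 3 ∧
    R.theta (R.phi (R.phi d)) = π / 3

/-- `d` lies on a positively oriented rhombus. -/
def Rot.Rho (R : Rot G p) (d : G.Dart) : Prop :=
  R.phi (R.phi (R.phi (R.phi d))) = d ∧ vec p (R.phi (R.phi d)) = -vec p d ∧
    vec p (R.phi (R.phi (R.phi d))) = -vec p (R.phi d) ∧ R.theta d + R.theta (R.phi d) = π ∧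
    R.theta (R.phi (R.phi d)) = R.theta d ∧ R.theta (R.phi (R.phi (R.phi d))) = R.theta (R.phi d)

/-- All faces other than the face of `o` are positive triangles or rhombi. -/
def Rot.Good (R : Rot G p) (o : G.Dart) : Prop :=
  ∀ d, ¬ R.phi.SameCycle o d → R.Tri d ∨ R.Rho d

theorem Rot.Tri.phi {R : Rot G p} {d : G.Dart} (h : R.Tri d) : R.Tri (R.phi d) := by
  obtain ⟨h1, h2, h3, h4⟩ := h
  exact ⟨by rw [h1], h3, h4, by rw [h1]; exact h2⟩

theorem Rot.Rho.phi {R : Rot G p} {d : G.Dart} (h : R.Rho d) : R.Rho (R.phi d) := by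
  obtain ⟨h1, h2, h3, h4, h5, h6⟩ := h
  refine ⟨by rw [h1], h3, ?_, by rw [h5]; linarith, h6, by rw [h1, h5]⟩
  rw [h1, h2]; simp

theorem Rot.Tri.of_phi {R : Rot G p} {d : G.Dart} (h : R.Tri (R.phi d)) : R.Tri d := by
  have h1 : R.phi (R.phi (R.phi d)) = d := R.phi.injective h.1
  have h2 := h.phi.phi
  rwa [h1] at h2

theorem Rot.Rho.of_phi {R : Rot G p} {d : G.Dart} (h : R.Rho (R.phi d)) : R.Rho d := by
  have h1 : R.phi (R.phi (R.phi (R.phi d))) = d := R.phi.injective h.1
  have h2 := h.phi.phi.phi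
  rwa [h1] at h2

theorem Rot.Tri.not_rho {R : Rot G p} {d : G.Dart} (h : R.Tri d) : ¬ R.Rho d := by
  intro h'
  have h1 := h'.2.2.2.1
  rw [h.2.1, h.2.2.1] at h1
  linarith [Real.pi_pos]

theorem Rot.Tri.cls_phi {R : Rot G p} (hm : IsMatchstick G p) {d : G.Dart} (h : R.Tri d) :
    cls p (R.phi d) = cls p d := by
  have h1 := R.exp_theta hm d
  have h2 : Complex.exp ((R.theta d : ℂ) * I) ^ 6 = 1 := by
    rw [← Complex.exp_nat_mul, h.2.1, ← Complex.exp_two_pi_mul_I]
    congr 1
    push_cast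
    ring
  have h3 := congrArg (· ^ 6) h1
  simp only [mul_pow, h2, one_mul] at h3
  simp only [cls, h3]
  ring

theorem Rot.Rho.cls_phi_phi {R : Rot G p} {d : G.Dart} (h : R.Rho d) :
    cls p (R.phi (R.phi d)) = cls p d := by
  simp only [cls, h.2.1]
  ring

theorem Rot.Rho.theta_lt {R : Rot G p} {d : G.Dart} (h : R.Rho d) : R.theta d < π := by
  linarith [h.2.2.2.1, R.theta_pos (R.phi d)]

/-- Functions on darts that are invariant under `f` and vanish off `N`. -/
def invSub {D : Type} (f : Equiv.Perm D) (N : Set D) : Submodule ℝ (D → ℝ) where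
  carrier := {w | (∀ d, w (f d) = w d) ∧ ∀ d, d ∉ N → w d = 0}
  add_mem' := by
    rintro a b ⟨h1, h2⟩ ⟨h3, h4⟩
    exact ⟨fun d => by simp [h1, h3], fun d hd => by simp [h2 d hd, h4 d hd]⟩
  zero_mem' := ⟨fun _ => rfl, fun _ _ => rfl⟩
  smul_mem' := by
    rintro c a ⟨h1, h2⟩
    exact ⟨fun d => by simp [h1], fun d hd => by simp [h2 d hd]⟩

open Classical in
/-- The outflow of `z` at `v`. -/
noncomputable def outflow [Fintype V] (z : G.Dart → ℝ) (v : V) : ℝ :=
  ∑ d : G.Dart with d.fst = v, z d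

/-- Real cycles supported on `S`. -/
def cycSub [Fintype V] (G : SimpleGraph V) (S : Set G.Dart) : Submodule ℝ (G.Dart → ℝ) where
  carrier := {z | (∀ d, z d.symm = -z d) ∧ (∀ d, d ∉ S → z d = 0) ∧ ∀ v, outflow z v = 0}
  add_mem' := by
    rintro a b ⟨h1, h2, h3⟩ ⟨h4, h5, h6⟩
    refine ⟨fun d => by simp [h1, h4]; ring, fun d hd => by simp [h2 d hd, h5 d hd], fun v => ?_⟩
    have h7 := h3 v
    have h8 := h6 v
    simp only [outflow, Pi.add_apply, Finset.sum_add_distrib] at h7 h8 ⊢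
    linarith
  zero_mem' := ⟨fun _ => by simp, fun _ _ => rfl, fun v => by simp [outflow]⟩
  smul_mem' := by
    rintro c a ⟨h1, h2, h3⟩
    refine ⟨fun d => by simp [h1], fun d hd => by simp [h2 d hd], fun v => ?_⟩
    have h7 := h3 v
    simp only [outflow, Pi.smul_apply, smul_eq_mul, ← Finset.mul_sum] at h7 ⊢
    rw [h7, mul_zero]

/-- Functions on vertices that are constant along the darts of `S`. -/
def constSub (G : SimpleGraph V) (S : Set G.Dart) : Submodule ℝ (V → ℝ) where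
  carrier := {f | ∀ d ∈ S, f d.fst = f d.snd}
  add_mem' := by
    intro a b h1 h2 d hd
    simp [h1 d hd, h2 d hd]
  zero_mem' := fun _ _ => rfl
  smul_mem' := by
    intro c a h1 d hd
    simp [h1 d hd]

/-- Obtuse corner of a lattice rhombus of class `k` at the head of `d`. -/
def Rot.Obt (R : Rot G p) (k : ℂ) (d : G.Dart) : Prop :=
  R.Rho d ∧ cls p d = k ∧ cls p (R.phi d) = k ∧ R.theta d = 2 * π / 3

/-- Acute corner of a lattice rhombus of class `k` at the head of `d`. -/
def Rot.Acu (R : Rot G p) (k : ℂ) (d : G.Dart) : Prop :=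
  R.Rho d ∧ cls p d = k ∧ cls p (R.phi d) = k ∧ R.theta d = π / 3

end Pool.Agent.Mst
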