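import Pool.Agent.P.MP_e0c7cd_co.Sigma

namespace Pool.Agent.Mst

open Complex Real

variable {V : Type} {G : SimpleGraph V} {p : V → ℂ}

/-- Vertices joined by darts of class different from `k`. -/
def compSetoid (G : SimpleGraph V) (p : V → ℂ) (k : ℂ) : Setoid V :=
  Relation.EqvGen.setoid (fun u v => ∃ d : G.Dart, cls p d ≠ k ∧ d.fst = u ∧ d.snd = v)

theorem comp_dart (k : ℂ) (d : G.Dart) (h : cls p d ≠ k) :
    Quotient.mk (compSetoid G p k) d.fst = Quotient.mk (compSetoid G p k) d.snd :=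
  Quotient.sound (Relation.EqvGen.rel _ _ ⟨d, h, rfl, rfl⟩)

theorem comp_const (k : ℂ) (f : V → ℝ) (hf : f ∈ constSub G {d | cls p d ≠ k}) {u v : V}
    (h : (compSetoid G p k).r u v) : f u = f v := by
  induction h with
  | rel a b hab =>
    obtain ⟨d, hd, rfl, rfl⟩ := hab
    exact hf d hd
  | refl a => rfl
  | symm a b _ ih => exact ih.symm
  | trans a b c _ _ ih1 ih2 => exact ih1.trans ih2

theorem comp_finrank [Fintype V] (k : ℂ) :
    Module.finrank ℝ (constSub G {d | cls p d ≠ k}) ≤ Nat.card (Quotient (compSetoid G p k)) := by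
  classical
  have : Fintype (Quotient (compSetoid G p k)) := Fintype.ofFinite _
  let L : constSub G {d | cls p d ≠ k} →ₗ[ℝ] (Quotient (compSetoid G p k) → ℝ) :=
    { toFun := fun f q => f.1 q.out
      map_add' := fun _ _ => rfl
      map_smul' := fun _ _ => rfl }
  have hL : Function.Injective L := by
    intro f g hfg
    apply Subtype.ext
    funext v
    have h1 : (compSetoid G p k).r (Quotient.mk (compSetoid G p k) v).out v := Quotient.mk_out v
    rw [← comp_const k f.1 f.2 h1, ← comp_const k g.1 g.2 h1]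
    exact congrFun hfg _
  have := LinearMap.finrank_le_finrank_of_injective hL
  rwa [Module.finrank_fintype_fun_eq_card, ← Nat.card_eq_fintype_card] at this

theorem Rot.comp_met [Fintype V] (R : Rot G p) (o : G.Dart) (k : ℂ) :
    {q : Quotient (compSetoid G p k) |
        ∃ d, R.phi.SameCycle o d ∧ Quotient.mk (compSetoid G p k) d.snd = q}.ncard ≤
      max {d : G.Dart | R.phi.SameCycle o d ∧ cls p d = k}.ncard 1 := by
  classical
  obtain ⟨d0, hd0, hB⟩ : ∃ d0, R.phi.SameCycle o d0 ∧
      (insert d0 {d : G.Dart | R.phi.SameCycle o d ∧ cls p d = k}).ncard ≤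
        max {d : G.Dart | R.phi.SameCycle o d ∧ cls p d = k}.ncard 1 := by
    rcases Set.eq_empty_or_nonempty {d : G.Dart | R.phi.SameCycle o d ∧ cls p d = k} with h | ⟨d, hd⟩
    · refine ⟨o, Equiv.Perm.SameCycle.refl _ _, ?_⟩
      rw [h]
      simp
    · refine ⟨d, hd.1, ?_⟩
      rw [Set.insert_eq_of_mem hd]
      exact le_max_left _ _
  refine le_trans ?_ hB
  refine le_trans (Set.ncard_le_ncard ?_ (Set.toFinite _))
    (Set.ncard_image_le (f := fun d : G.Dart => Quotient.mk (compSetoid G p k) d.snd) (Set.toFinite _))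
  have key : ∀ n : ℕ, Quotient.mk (compSetoid G p k) ((R.phi ^ n) d0).snd ∈
      (fun d : G.Dart => Quotient.mk (compSetoid G p k) d.snd) ''
        (insert d0 {d : G.Dart | R.phi.SameCycle o d ∧ cls p d = k}) := by
    intro n
    induction n with
    | zero => exact ⟨d0, Set.mem_insert _ _, rfl⟩
    | succ n ih =>
      by_cases h : cls p ((R.phi ^ (n + 1)) d0) = k
      · refine ⟨_, Set.mem_insert_of_mem _ ⟨?_, h⟩, rfl⟩
        exact hd0.trans ⟨((n + 1 : ℕ) : ℤ), by rw [zpow_natCast]⟩
      · rw [← comp_dart k _ h, pow_succ', Equiv.Perm.mul_apply, R.phi_fst]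
        exact ih
  rintro q ⟨d, hd, rfl⟩
  obtain ⟨n, -, rfl⟩ := (hd0.symm.trans hd).exists_pow_eq'
  exact key n

theorem Rot.comp_other [Fintype V] (R : Rot G p) (hm : IsMatchstick G p)
    (hc : G.Connected) (hreg : Reg4 G) (o : G.Dart) (hg : R.Good o) (k : ℂ)
    (q : Quotient (compSetoid G p k))
    (hq : ¬ ∃ d, R.phi.SameCycle o d ∧ Quotient.mk (compSetoid G p k) d.snd = q) :
    2 ≤ {d : G.Dart | Quotient.mk (compSetoid G p k) d.snd = q ∧ R.Obt k d}.ncard := by
  refine R.two_le_obt hm hreg k {v | Quotient.mk (compSetoid G p k) v = q} ?_ ?_ ?_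
  · intro d hd
    simp only [Set.mem_ofPred_eq, comp_dart k d hd]
  · intro d hd
    exact hg d fun h => hq ⟨d, h, hd⟩
  · by_contra hx
    have hstep : ∀ u v, G.Adj u v → Quotient.mk (compSetoid G p k) u = q →
        Quotient.mk (compSetoid G p k) v = q := by
      intro u v huv hu
      have h1 : cls p (⟨(v, u), huv.symm⟩ : G.Dart) ≠ k := fun h =>
        hx ⟨⟨(v, u), huv.symm⟩, hu, h⟩
      exact (comp_dart k _ h1).trans hu
    have hall : ∀ u v, G.Walk u v → Quotient.mk (compSetoid G p k) u = q →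
        Quotient.mk (compSetoid G p k) v = q := by
      intro u v w
      induction w with
      | nil => exact id
      | cons h _ ih => exact fun hu => ih (hstep _ _ h hu)
    obtain ⟨w⟩ := hc.preconnected q.out o.snd
    exact hq ⟨o, Equiv.Perm.SameCycle.refl _ _, hall _ _ w (Quotient.out_eq q)⟩

theorem Rot.const_le [Fintype V] (R : Rot G p) (hm : IsMatchstick G p)
    (hc : G.Connected) (hreg : Reg4 G) (o : G.Dart) (hg : R.Good o) (k : ℂ) :
    2 * Module.finrank ℝ (constSub G {d | cls p d ≠ k}) ≤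
      {d : G.Dart | ¬ R.phi.SameCycle o d ∧ R.Obt k d}.ncard +
        2 * max {d : G.Dart | R.phi.SameCycle o d ∧ cls p d = k}.ncard 1 := by
  classical
  have : Fintype (Quotient (compSetoid G p k)) := Fintype.ofFinite _
  set A : Set (Quotient (compSetoid G p k)) :=
    {q | ∃ d, R.phi.SameCycle o d ∧ Quotient.mk (compSetoid G p k) d.snd = q} with hA
  have h1 := comp_finrank (G := G) (p := p) k
  have h2 : A.ncard ≤ _ := R.comp_met o k
  have h3 : A.ncard + Aᶜ.ncard = Nat.card (Quotient (compSetoid G p k)) :=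
    Set.ncard_add_ncard_compl A
  let S : Finset G.Dart :=
    Finset.univ.filter fun d => Quotient.mk (compSetoid G p k) d.snd ∈ Aᶜ ∧ R.Obt k d
  have h4 : S.card = ∑ q ∈ Aᶜ.toFinset,
      (S.filter fun d => Quotient.mk (compSetoid G p k) d.snd = q).card := by
    refine Finset.card_eq_sum_card_fiberwise ?_
    intro d hd
    simp only [S, Finset.coe_filter, Finset.mem_univ, true_and, Set.mem_ofPred_eq] at hd
    simpa using hd.1
  have h5 : 2 * Aᶜ.ncard ≤ S.card := by
    rw [h4, Set.ncard_eq_toFinset_card', mul_comm, ← smul_eq_mul]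
    refine Finset.card_nsmul_le_sum _ _ _ ?_
    intro q hq
    have hq' : q ∈ Aᶜ := Set.mem_toFinset.1 hq
    refine le_trans (R.comp_other hm hc hreg o hg k q hq') ?_
    rw [← Set.ncard_coe_finset]
    refine Set.ncard_le_ncard ?_ (Set.toFinite _)
    rintro d ⟨hd1, hd2⟩
    simp only [S, Finset.coe_filter, Finset.mem_filter, Finset.mem_univ, true_and, Set.mem_ofPred_eq]
    exact ⟨⟨hd1 ▸ hq', hd2⟩, hd1⟩
  have h6 : S.card ≤ {d : G.Dart | ¬ R.phi.SameCycle o d ∧ R.Obt k d}.ncard := by
    rw [← Set.ncard_coe_finset]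
    refine Set.ncard_le_ncard ?_ (Set.toFinite _)
    intro d hd
    simp only [S, Finset.coe_filter, Finset.mem_univ, true_and, Set.mem_ofPred_eq] at hd
    exact ⟨fun h => hd.1 ⟨d, h, rfl⟩, hd.2⟩
  omega

end Pool.Agent.Mst
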