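import Pool.Agent.P.MP_e0c7cd_co.RotFacts

namespace Pool.Agent.Mst

open Complex Real

variable {V : Type} {G : SimpleGraph V} {p : V → ℂ}

theorem Rot.Rho.obt_or_acu {R : Rot G p} (hm : IsMatchstick G p) {d : G.Dart} (h : R.Rho d)
    {k : ℂ} (h1 : cls p d = k) (h2 : cls p (R.phi d) = k) : R.Obt k d ∨ R.Acu k d := by
  have e1 := R.exp_theta hm d
  have h3 := congrArg (· ^ 6) e1
  have hk : cls p d ≠ 0 := by
    intro h0
    have h4 := hm.norm_vec d
    have h5 : vec p d = 0 := pow_eq_zero_iff (n := 6) (by norm_num) |>.1 h0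
    rw [h5] at h4
    simp at h4
  have h6 : Complex.exp ((R.theta d : ℂ) * I) ^ 6 = 1 := by
    apply mul_right_cancel₀ hk
    have h7 : cls p (R.phi d) = cls p d := h2.trans h1.symm
    simp only [cls] at h7 ⊢
    simp only [mul_pow] at h3
    rw [h7] at h3
    rw [h3]
    ring
  rw [← Complex.exp_nat_mul, Complex.exp_eq_one_iff] at h6
  obtain ⟨n, hn⟩ := h6
  have h8 : 6 * R.theta d = n * (2 * π) := by
    have := congrArg Complex.im hn
    simpa using this
  have hp := Real.pi_pos
  have p1 := R.theta_pos d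
  have p2 := h.theta_lt
  have h9 : (n : ℝ) < 3 := by
    by_contra hx
    push Not at hx
    nlinarith
  have h10 : (0 : ℝ) < n := by
    by_contra hx
    push Not at hx
    nlinarith
  have h11 : n < 3 := by exact_mod_cast h9
  have h12 : 0 < n := by exact_mod_cast h10
  have h13 : n = 1 ∨ n = 2 := by omega
  rcases h13 with rfl | rfl
  · right
    refine ⟨h, h1, h2, ?_⟩
    push_cast at h8
    linarith
  · left
    refine ⟨h, h1, h2, ?_⟩
    push_cast at h8
    linarith

open Classical in
theorem Corner_sum_zero [Fintype V] (R : Rot G p) (hm : IsMatchstick G p)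
    (hreg : Reg4 G) (H : Set V) :
    ∑ d : G.Dart, (if d.snd ∈ H then R.theta d - π / 2 else 0) = 0 := by
  rw [← Finset.sum_fiberwise (s := Finset.univ) (g := fun d : G.Dart => d.snd)]
  refine Finset.sum_eq_zero fun v _ => ?_
  by_cases hv : v ∈ H
  · have h4 := hreg.ncard_snd v
    have hc : (Finset.univ.filter fun d : G.Dart => d.snd = v).card = 4 := by
      rw [← h4, ← Set.ncard_coe_finset]
      congr 1
      ext d
      simp
    obtain ⟨d0, hd0⟩ : (Finset.univ.filter fun d : G.Dart => d.snd = v).Nonempty :=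
      Finset.card_pos.1 (by omega)
    have hd1 : d0.symm.fst = v := (Finset.mem_filter.1 hd0).2
    have hs := R.sum_theta hm d0.symm
    rw [hd1] at hs
    have h5 : ∑ d ∈ Finset.univ.filter (fun d : G.Dart => d.snd = v),
        (if d.snd ∈ H then R.theta d - π / 2 else 0) =
        ∑ d ∈ Finset.univ.filter (fun d : G.Dart => d.snd = v), (R.theta d - π / 2) := by
      refine Finset.sum_congr rfl fun d hd => ?_
      rw [if_pos]
      rw [(Finset.mem_filter.1 hd).2]
      exact hv
    rw [h5, Finset.sum_sub_distrib, Finset.sum_const, hc, hs]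
    simp only [nsmul_eq_mul]
    push_cast
    ring
  · refine Finset.sum_eq_zero fun d hd => ?_
    rw [if_neg]
    rw [(Finset.mem_filter.1 hd).2]
    exact hv

open Classical in
theorem Corner_shift [Fintype V] (R : Rot G p) (P Q : G.Dart → Prop)
    [DecidablePred P] [DecidablePred Q]
    (hPQ : ∀ d, Q (R.phi d) ↔ P d) (hP : ∀ d, P d → R.Rho d) :
    ∑ d : G.Dart, (if P d then R.theta d - π / 2 else 0) +
      ∑ d : G.Dart, (if Q d then R.theta d - π / 2 else 0) = 0 := by
  rw [← Equiv.sum_comp R.phi (fun d => if Q d then R.theta d - π / 2 else 0),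
    ← Finset.sum_add_distrib]
  refine Finset.sum_eq_zero fun d _ => ?_
  by_cases h : P d
  · rw [if_pos h, if_pos ((hPQ d).2 h)]
    linarith [(hP d h).2.2.2.1]
  · rw [if_neg h, if_neg (fun h' => h ((hPQ d).1 h'))]
    ring

open Classical in
theorem Corner_card [Fintype V] (P : G.Dart → Prop) [DecidablePred P] :
    (({d : G.Dart | P d}.ncard : ℕ) : ℝ) = ∑ d : G.Dart, (if P d then (1 : ℝ) else 0) := by
  rw [Finset.sum_boole, ← Set.ncard_coe_finset]
  congr 2
  ext d
  simp

theorem Rot.corner_count [Fintype V] (R : Rot G p) (hm : IsMatchstick G p)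
    (hreg : Reg4 G) (k : ℂ) (H : Set V)
    (hH : ∀ d : G.Dart, cls p d ≠ k → (d.fst ∈ H ↔ d.snd ∈ H))
    (hg : ∀ d : G.Dart, d.snd ∈ H → R.Tri d ∨ R.Rho d) :
    {d : G.Dart | d.snd ∈ H ∧ R.Obt k d}.ncard =
      {d : G.Dart | d.snd ∈ H ∧ R.Tri d}.ncard + {d : G.Dart | d.snd ∈ H ∧ R.Acu k d}.ncard := by
  classical
  have hp := Real.pi_pos
  have s0 := Corner_sum_zero R hm hreg H
  have s1 := Corner_shift R (fun d => d.snd ∈ H ∧ R.Rho d ∧ cls p (R.phi d) ≠ k)
    (fun d => d.snd ∈ H ∧ R.Rho d ∧ cls p d ≠ k) (fun d => by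
      constructor
      · rintro ⟨h1, h2, h3⟩
        exact ⟨R.phi_fst d ▸ (hH _ h3).2 h1, h2.of_phi, h3⟩
      · rintro ⟨h1, h2, h3⟩
        exact ⟨(hH _ h3).1 (by rw [R.phi_fst]; exact h1), h2.phi, h3⟩) (fun d h => h.2.1)
  have s2 := Corner_shift R
    (fun d => d.snd ∈ H ∧ R.Rho d ∧ cls p (R.phi d) ≠ k ∧ cls p d ≠ k)
    (fun d => d.snd ∈ H ∧ R.Rho d ∧ cls p (R.phi d) ≠ k ∧ cls p d ≠ k) (fun d => by
      constructor
      · rintro ⟨h1, h2, h3, h4⟩
        exact ⟨R.phi_fst d ▸ (hH _ h4).2 h1, h2.of_phi, h4,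
          by rw [← h2.of_phi.cls_phi_phi]; exact h3⟩
      · rintro ⟨h1, h2, h3, h4⟩
        exact ⟨(hH _ h3).1 (by rw [R.phi_fst]; exact h1), h2.phi,
          by rw [h2.cls_phi_phi]; exact h4, h3⟩) (fun d h => h.2.1)
  have key : ∀ d : G.Dart, (if d.snd ∈ H then R.theta d - π / 2 else 0) =
      π / 6 * (if d.snd ∈ H ∧ R.Obt k d then (1 : ℝ) else 0) -
      π / 6 * (if d.snd ∈ H ∧ R.Tri d then (1 : ℝ) else 0) -
      π / 6 * (if d.snd ∈ H ∧ R.Acu k d then (1 : ℝ) else 0) +
      (if d.snd ∈ H ∧ R.Rho d ∧ cls p (R.phi d) ≠ k then R.theta d - π / 2 else 0) +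
      (if d.snd ∈ H ∧ R.Rho d ∧ cls p d ≠ k then R.theta d - π / 2 else 0) -
      (if d.snd ∈ H ∧ R.Rho d ∧ cls p (R.phi d) ≠ k ∧ cls p d ≠ k then R.theta d - π / 2
        else 0) := by
    intro d
    by_cases hd : d.snd ∈ H
    · rcases hg d hd with ht | hr
      · have hr := ht.not_rho
        have ho : ¬ R.Obt k d := fun h => hr h.1
        have ha : ¬ R.Acu k d := fun h => hr h.1
        simp only [hd, ht, hr, ho, ha, true_and, false_and, if_true, if_false]
        rw [ht.2.1]
        ring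
      · have ht : ¬ R.Tri d := fun h => h.not_rho hr
        by_cases c1 : cls p d = k
        · by_cases c2 : cls p (R.phi d) = k
          · rcases hr.obt_or_acu hm c1 c2 with ho | ha
            · have ha : ¬ R.Acu k d := fun h => by linarith [h.2.2.2, ho.2.2.2]
              simp only [hd, ht, ho, ha, c1, c2, ne_eq, not_true, and_false, true_and,
                if_true, if_false]
              rw [ho.2.2.2]
              ring
            · have ho : ¬ R.Obt k d := fun h => by linarith [h.2.2.2, ha.2.2.2]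
              simp only [hd, ht, ho, ha, c1, c2, ne_eq, not_true, and_false, true_and,
                if_true, if_false]
              rw [ha.2.2.2]
              ring
          · have ho : ¬ R.Obt k d := fun h => c2 h.2.2.1
            have ha : ¬ R.Acu k d := fun h => c2 h.2.2.1
            simp only [hd, ht, hr, ho, ha, c1, c2, ne_eq, not_true, not_false_eq_true, and_false,
              true_and, if_true, if_false]
            ring
        · have ho : ¬ R.Obt k d := fun h => c1 h.2.1
          have ha : ¬ R.Acu k d := fun h => c1 h.2.1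
          simp only [hd, ht, hr, ho, ha, c1, ne_eq, not_false_eq_true, and_true,
            true_and, if_true, if_false]
          ring
    · simp [hd]
  simp only [key, Finset.sum_add_distrib, Finset.sum_sub_distrib, ← Finset.mul_sum] at s0
  have c1 := Corner_card (G := G) (fun d => d.snd ∈ H ∧ R.Obt k d)
  have c2 := Corner_card (G := G) (fun d => d.snd ∈ H ∧ R.Tri d)
  have c3 := Corner_card (G := G) (fun d => d.snd ∈ H ∧ R.Acu k d)
  have fin : (({d : G.Dart | d.snd ∈ H ∧ R.Obt k d}.ncard : ℕ) : ℝ) =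
      ({d : G.Dart | d.snd ∈ H ∧ R.Tri d}.ncard : ℕ) +
        ({d : G.Dart | d.snd ∈ H ∧ R.Acu k d}.ncard : ℕ) := by
    apply mul_left_cancel₀ (a := π / 6) (by positivity)
    rw [c1, c2, c3]
    linarith
  exact_mod_cast fin

end Pool.Agent.Mst
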