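import Pool.Agent.P.MP_e0c7cd_co.Basic

namespace Pool.Agent.Mst

open Complex Real

variable {V : Type} {G : SimpleGraph V} {p : V → ℂ}

/-- Antisymmetric functions supported on `S`. -/
def rankA_anti (G : SimpleGraph V) (S : Set G.Dart) : Submodule ℝ (G.Dart → ℝ) where
  carrier := {z | (∀ d, z d.symm = -z d) ∧ ∀ d, d ∉ S → z d = 0}
  add_mem' := by
    rintro a b ⟨h1, h2⟩ ⟨h4, h5⟩
    exact ⟨fun d => by simp [h1, h4]; ring, fun d hd => by simp [h2 d hd, h5 d hd]⟩
  zero_mem' := ⟨fun _ => by simp, fun _ _ => rfl⟩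
  smul_mem' := by
    rintro c a ⟨h1, h2⟩
    exact ⟨fun d => by simp [h1], fun d hd => by simp [h2 d hd]⟩

open Classical in
/-- The projection onto the antisymmetric functions supported on `S`. -/
noncomputable def rankA_proj (G : SimpleGraph V) (S : Set G.Dart) :
    (G.Dart → ℝ) →ₗ[ℝ] (G.Dart → ℝ) where
  toFun w d := if d ∈ S then (w d - w d.symm) / 2 else 0
  map_add' a b := by
    funext d
    by_cases h : d ∈ S
    · simp only [h, if_true, Pi.add_apply]; ring
    · simp [h]
  map_smul' c a := by
    funext d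
    by_cases h : d ∈ S
    · simp only [h, if_true, Pi.smul_apply, smul_eq_mul, RingHom.id_apply]; ring
    · simp [h]

open Classical in
theorem rankA_proj_apply (S : Set G.Dart) (w : G.Dart → ℝ) (d : G.Dart) :
    rankA_proj G S w d = if d ∈ S then (w d - w d.symm) / 2 else 0 := rfl

theorem rankA_symm_iff {S : Set G.Dart} (hS : ∀ d ∈ S, d.symm ∈ S) (d : G.Dart) :
    d.symm ∈ S ↔ d ∈ S :=
  ⟨fun h => by simpa using hS _ h, hS d⟩

theorem rankA_isProj (S : Set G.Dart) (hS : ∀ d ∈ S, d.symm ∈ S) :
    LinearMap.IsProj (rankA_anti G S) (rankA_proj G S) where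
  map_mem w := by
    refine ⟨fun d => ?_, fun d hd => ?_⟩
    · rw [rankA_proj_apply, rankA_proj_apply]
      by_cases h : d ∈ S
      · rw [if_pos h, if_pos (hS d h), SimpleGraph.Dart.symm_symm]; ring
      · rw [if_neg h, if_neg (fun h' => h ((rankA_symm_iff hS d).1 h'))]; simp
    · rw [rankA_proj_apply, if_neg hd]
  map_id w hw := by
    funext d
    rw [rankA_proj_apply]
    by_cases h : d ∈ S
    · rw [if_pos h, hw.1 d]; ring
    · rw [if_neg h, hw.2 d h]

theorem rankA_finrank_anti [Fintype V] (S : Set G.Dart) (hS : ∀ d ∈ S, d.symm ∈ S) :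
    2 * Module.finrank ℝ (rankA_anti G S) = S.ncard := by
  classical
  have h1 := (rankA_isProj S hS).trace
  rw [LinearMap.trace_eq_matrix_trace ℝ (Pi.basisFun ℝ G.Dart), Matrix.trace] at h1
  have h2 : ∀ d : G.Dart, (LinearMap.toMatrix (Pi.basisFun ℝ G.Dart) (Pi.basisFun ℝ G.Dart)
      (rankA_proj G S)).diag d = if d ∈ S then (1 / 2 : ℝ) else 0 := by
    intro d
    rw [Matrix.diag_apply, LinearMap.toMatrix_apply]
    simp only [Pi.basisFun_apply, Pi.basisFun_repr]
    rw [rankA_proj_apply]
    by_cases h : d ∈ S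
    · rw [if_pos h, if_pos h, Pi.single_eq_same, Pi.single_eq_of_ne d.symm_ne]; ring
    · rw [if_neg h, if_neg h]
  rw [Finset.sum_congr rfl (fun d _ => h2 d), ← Finset.sum_filter, Finset.sum_const,
    nsmul_eq_mul] at h1
  have h3 : S.ncard = (Finset.univ.filter (fun d : G.Dart => d ∈ S)).card := by
    rw [← Set.ncard_coe_finset]
    congr 1
    ext d
    simp
  rw [h3]
  have : (2 * Module.finrank ℝ (rankA_anti G S) : ℝ) =
      ((Finset.univ.filter (fun d : G.Dart => d ∈ S)).card : ℝ) := by
    rw [← h1]; ring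
  exact_mod_cast this

open Classical in
/-- The incidence matrix of the darts in `S`. -/
noncomputable def rankA_mat (G : SimpleGraph V) (S : Set G.Dart) : Matrix V G.Dart ℝ :=
  Matrix.of fun v d =>
    if d ∈ S then (if d.fst = v then 1 else 0) - (if d.snd = v then 1 else 0) else 0

open Classical in
theorem rankA_mat_apply (S : Set G.Dart) (v : V) (d : G.Dart) :
    rankA_mat G S v d =
      if d ∈ S then (if d.fst = v then 1 else 0) - (if d.snd = v then 1 else 0) else 0 := rfl

theorem rankA_mat_symm {S : Set G.Dart} (hS : ∀ d ∈ S, d.symm ∈ S) (v : V) (d : G.Dart) :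
    rankA_mat G S v d.symm = -rankA_mat G S v d := by
  rw [rankA_mat_apply, rankA_mat_apply]
  by_cases h : d ∈ S
  · rw [if_pos h, if_pos (hS d h)]
    have e1 : d.symm.fst = d.snd := rfl
    have e2 : d.symm.snd = d.fst := rfl
    rw [e1, e2]; ring
  · rw [if_neg h, if_neg (fun h' => h ((rankA_symm_iff hS d).1 h'))]; simp

theorem rankA_sum_symm [Fintype G.Dart] (F : G.Dart → ℝ) :
    ∑ d : G.Dart, F d.symm = ∑ d : G.Dart, F d :=
  Equiv.sum_comp (SimpleGraph.Dart.symm_involutive.toPerm _) F

theorem finrank_cyc [Fintype V] (S : Set G.Dart) (hS : ∀ d ∈ S, d.symm ∈ S) :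
    2 * Module.finrank ℝ (cycSub G S) + 2 * Fintype.card V =
      S.ncard + 2 * Module.finrank ℝ (constSub G S) := by
  classical
  set M := rankA_mat G S with hM
  set A := rankA_anti G S with hA
  have hmul : ∀ (z : G.Dart → ℝ) (v : V), M.mulVecLin z v = ∑ d, M v d * z d := fun z v => rfl
  -- the kernel of the transpose
  have hk : LinearMap.ker M.transpose.mulVecLin = constSub G S := by
    ext f
    have hf : ∀ d : G.Dart, M.transpose.mulVecLin f d = if d ∈ S then f d.fst - f d.snd else 0 := by
      intro d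
      have : M.transpose.mulVecLin f d = ∑ v, M v d * f v := rfl
      rw [this]
      by_cases h : d ∈ S
      · simp [hM, rankA_mat_apply, h, sub_mul, Finset.sum_sub_distrib]
      · simp [hM, rankA_mat_apply, h]
    rw [LinearMap.mem_ker]
    constructor
    · intro h d hd
      have h1 := congrFun h d
      rw [hf, if_pos hd] at h1
      exact sub_eq_zero.1 h1
    · intro h
      funext d
      rw [hf]
      by_cases hd : d ∈ S
      · rw [if_pos hd, h d hd]; simp
      · rw [if_neg hd]; simp
  have r1 := LinearMap.finrank_range_add_finrank_ker M.transpose.mulVecLin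
  rw [hk, Module.finrank_fintype_fun_eq_card] at r1
  have r2 : Module.finrank ℝ (LinearMap.range M.transpose.mulVecLin) =
      Module.finrank ℝ (LinearMap.range M.mulVecLin) := Matrix.rank_transpose M
  -- the range is reached on `A`
  have hP : ∀ z, M.mulVecLin (rankA_proj G S z) = M.mulVecLin z := by
    intro z
    funext v
    rw [hmul, hmul]
    have e1 : ∀ d, M v d * rankA_proj G S z d = (M v d * z d + M v d.symm * z d.symm) / 2 := by
      intro d
      rw [rankA_proj_apply, hM, rankA_mat_symm hS]
      by_cases h : d ∈ S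
      · rw [if_pos h]; ring
      · rw [if_neg h, rankA_mat_apply, if_neg h]; ring
    rw [Finset.sum_congr rfl (fun d _ => e1 d), ← Finset.sum_div, Finset.sum_add_distrib,
      rankA_sum_symm (fun d => M v d * z d)]
    ring
  have hr : LinearMap.range (M.mulVecLin.domRestrict A) = LinearMap.range M.mulVecLin := by
    ext y
    constructor
    · rintro ⟨z, rfl⟩
      exact ⟨z.1, rfl⟩
    · rintro ⟨z, rfl⟩
      exact ⟨⟨rankA_proj G S z, (rankA_isProj S hS).map_mem z⟩, hP z⟩
  have hout : ∀ z ∈ A, ∀ v, M.mulVecLin z v = 2 * outflow z v := by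
    intro z hz v
    rw [hmul]
    have e1 : ∀ d, M v d * z d =
        (if d.fst = v then z d else 0) + (if d.symm.fst = v then z d.symm else 0) := by
      intro d
      have e2 : d.symm.fst = d.snd := rfl
      rw [hM, rankA_mat_apply, e2, hz.1 d]
      by_cases h : d ∈ S
      · rw [if_pos h]
        split_ifs <;> ring
      · rw [if_neg h, hz.2 d h]; simp
    rw [Finset.sum_congr rfl (fun d _ => e1 d), Finset.sum_add_distrib,
      rankA_sum_symm (fun d => if d.fst = v then z d else 0), outflow, Finset.sum_filter]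
    ring
  have hle : cycSub G S ≤ A := fun z hz => ⟨hz.1, hz.2.1⟩
  have hker : LinearMap.ker (M.mulVecLin.domRestrict A) = (cycSub G S).comap A.subtype := by
    ext z
    rw [LinearMap.mem_ker, Submodule.mem_comap]
    constructor
    · intro h
      refine ⟨z.2.1, z.2.2, fun v => ?_⟩
      have h1 : M.mulVecLin z.1 v = 0 := congrFun h v
      rw [hout z.1 z.2 v] at h1
      have : outflow z.1 v = 0 := by linarith
      exact this
    · intro h
      funext v
      have h1 : outflow z.1 v = 0 := h.2.2 v
      have h2 := hout z.1 z.2 v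
      rw [h1, mul_zero] at h2
      exact h2
  have r3 := LinearMap.finrank_range_add_finrank_ker (M.mulVecLin.domRestrict A)
  rw [hr, hker, (Submodule.comapSubtypeEquivOfLe hle).finrank_eq] at r3
  have r4 := rankA_finrank_anti S hS
  rw [← hA] at r4
  omega

end Pool.Agent.Mst
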