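import Pool.Agent.P.MP_e0c7cd_co.WindB

namespace Pool.Agent.Mst

open Complex Real

variable {V : Type} {G : SimpleGraph V} {p : V → ℂ}

open Classical in
theorem IsMatchstick.lam_mid [Fintype V] (hm : IsMatchstick G p) {z : G.Dart → ℝ}
    (hz : z ∈ cycSub G Set.univ) (a : G.Dart) :
    lam p z (p a.fst + ((1 / 2 : ℝ) : ℂ) * vec p a) =
      ∑ e : G.Dart with (e.fst ≠ a.fst ∧ e.snd ≠ a.fst), z e * seen p e (p a.fst) +
        2 * ∑ y : G.Dart with (y.fst = a.fst ∧ y ≠ a), z y * (ang p a y - π) := by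
  obtain ⟨C, hC, hCq⟩ := lam_countable (p := p) hz
  let g : ℝ → ℝ := fun s =>
    ∑ e : G.Dart with (e.fst ≠ a.fst ∧ e.snd ≠ a.fst), z e * seen p e (p a.fst + s * vec p a) +
      2 * ∑ y : G.Dart with (y.fst = a.fst ∧ y ≠ a),
        z y * Complex.arg ((s : ℂ) - vec p y / vec p a)
  have hlam : ∀ s : ℝ, 0 < s → s < 1 → lam p z (p a.fst + s * vec p a) = g s := by
    intro s hs0 hs1
    obtain ⟨e1, e2⟩ := hm.seen_self a hs0 hs1
    rw [hm.lam_split hz a hs0, e1, e2, hz.1 a]
    simp only [g]
    ring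
  have hcont : ContinuousOn g (Set.Icc 0 (1 / 2)) := by
    intro s hs
    have hs1 : s < 1 := by linarith [hs.2]
    refine ContinuousAt.continuousWithinAt ?_
    refine ContinuousAt.add ?_ (ContinuousAt.mul continuousAt_const ?_)
    · refine tendsto_finsetSum _ fun e he => ?_
      have he' := (Finset.mem_filter.1 he).2
      obtain ⟨f1, f2⟩ := hm.far_slit he'.1 he'.2 hs.1 hs1
      have c1 : ContinuousAt (fun t : ℝ => (p e.snd - (p a.fst + t * vec p a)) /
          (p e.fst - (p a.fst + t * vec p a))) s :=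
        ContinuousAt.div (by fun_prop) (by fun_prop) f1
      exact ContinuousAt.mul continuousAt_const
        (ContinuousAt.comp (f := fun t : ℝ => (p e.snd - (p a.fst + t * vec p a)) /
          (p e.fst - (p a.fst + t * vec p a))) (Complex.continuousAt_arg f2) c1)
    · refine tendsto_finsetSum _ fun y hy => ?_
      have hy' := (Finset.mem_filter.1 hy).2
      have f2 := hm.near_slit hy'.1 hy'.2 hs.1
      have c1 : ContinuousAt (fun t : ℝ => (t : ℂ) - vec p y / vec p a) s := by fun_prop
      exact ContinuousAt.mul continuousAt_const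
        (ContinuousAt.comp (f := fun t : ℝ => (t : ℂ) - vec p y / vec p a)
          (Complex.continuousAt_arg f2) c1)
  have hsub : g '' Set.Icc 0 (1 / 2) ⊆ insert (g 0) C := by
    rintro _ ⟨s, hs, rfl⟩
    rcases eq_or_lt_of_le hs.1 with h | h
    · left; rw [← h]
    · right
      have hs1 : s < 1 := by linarith [hs.2]
      rw [← hlam s h hs1]
      exact hCq _ fun v => hm.not_vertex a h hs1 v
  have hss : (g '' Set.Icc 0 (1 / 2)).Subsingleton :=
    (hC.insert (g 0)).isTotallyDisconnected _ hsub (isPreconnected_Icc.image g hcont)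
  have h12 : g (1 / 2) = g 0 :=
    hss ⟨1 / 2, ⟨by norm_num, le_rfl⟩, rfl⟩ ⟨0, ⟨le_rfl, by norm_num⟩, rfl⟩
  rw [hlam (1 / 2) (by norm_num) (by norm_num), h12]
  simp only [g, Complex.ofReal_zero, zero_mul, add_zero, zero_sub]
  congr 2
  refine Finset.sum_congr rfl fun y _ => ?_
  rw [arg_neg_div (hm.norm_vec a) (hm.norm_vec y)]
  rfl

theorem Rot.winding [Fintype V] (R : Rot G p) (hm : IsMatchstick G p) {z : G.Dart → ℝ}
    (hz : z ∈ cycSub G Set.univ) :
    ∃ w : G.Dart → ℝ, (∀ d, w (R.phi d) = w d) ∧ ∀ d, z d = w d - w d.symm := by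
  classical
  let L : G.Dart → ℝ := fun a => lam p z (p a.fst + ((1 / 2 : ℝ) : ℂ) * vec p a)
  let Cv : V → ℝ := fun v => ∑ e : G.Dart with (e.fst ≠ v ∧ e.snd ≠ v), z e * seen p e (p v)
  have hLs : ∀ a : G.Dart, L a.symm = L a := by
    intro a
    have : p a.symm.fst + ((1 / 2 : ℝ) : ℂ) * vec p a.symm =
        p a.fst + ((1 / 2 : ℝ) : ℂ) * vec p a := by
      have e1 : a.symm.fst = a.snd := rfl
      rw [vec_symm, e1]
      simp only [vec]
      push_cast
      ring
    simp only [L, this]
  have hout : ∀ v, ∑ y : G.Dart with y.fst = v, z y = 0 := by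
    intro v
    have := hz.2.2 v
    simp only [outflow] at this
    refine Eq.trans ?_ this
    refine Finset.sum_congr ?_ fun _ _ => rfl
    ext y
    simp
  have hsplit : ∀ (a : G.Dart) (f : G.Dart → ℝ), ∑ y : G.Dart with y.fst = a.fst, f y =
      f a + ∑ y : G.Dart with (y.fst = a.fst ∧ y ≠ a), f y := by
    intro a f
    have ha : a ∈ Finset.univ.filter (fun y : G.Dart => y.fst = a.fst) := by simp
    rw [← Finset.add_sum_erase _ _ ha]
    congr 1
    refine Finset.sum_congr ?_ fun _ _ => rfl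
    ext y
    simp [and_comm]
  have hL : ∀ a : G.Dart, L a = Cv a.fst +
      2 * ∑ y : G.Dart with (y.fst = a.fst ∧ y ≠ a), z y * (ang p a y - π) := by
    intro a
    have := hm.lam_mid hz a
    simp only [L, Cv]
    rw [this]
  have haa : ∀ a : G.Dart, ang p a a = 2 * π := fun a => ccw_self (hm.norm_vec a)
  have h1 : ∀ a : G.Dart, L a + 2 * π * z a =
      Cv a.fst + 2 * ∑ y : G.Dart with y.fst = a.fst, z y * ang p a y := by
    intro a
    have e1 := hsplit a (fun y => z y * (ang p a y - π))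
    have e2 : ∑ y : G.Dart with y.fst = a.fst, z y * (ang p a y - π) =
        ∑ y : G.Dart with y.fst = a.fst, z y * ang p a y := by
      simp only [mul_sub, Finset.sum_sub_distrib, ← Finset.sum_mul, hout, zero_mul, sub_zero]
    simp only [haa] at e1
    rw [hL, ← e2, e1]
    ring
  have h2 : ∀ a : G.Dart, ∑ y : G.Dart with y.fst = a.fst, z y * ang p a y =
      ∑ y : G.Dart with y.fst = a.fst, z y * ang0 p a y + 2 * π * z a := by
    intro a
    rw [hsplit a (fun y => z y * ang p a y), hsplit a (fun y => z y * ang0 p a y)]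
    have e1 : ∑ y : G.Dart with (y.fst = a.fst ∧ y ≠ a), z y * ang0 p a y =
        ∑ y : G.Dart with (y.fst = a.fst ∧ y ≠ a), z y * ang p a y := by
      refine Finset.sum_congr rfl fun y hy => ?_
      have := (Finset.mem_filter.1 hy).2.2
      simp [ang0, this]
    have e2 : ang0 p a a = 0 := by simp [ang0]
    simp only [e1, e2, haa]
    ring
  have h3 : ∀ a : G.Dart, ∑ y : G.Dart with y.fst = a.fst, z y * ang p (R.rho a) y =
      ∑ y : G.Dart with y.fst = a.fst, z y * ang0 p a y := by
    intro a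
    have e1 : ∑ y : G.Dart with y.fst = a.fst, z y * ang p (R.rho a) y =
        ∑ y : G.Dart with y.fst = a.fst, (z y * ang p (R.rho a) a + z y * ang0 p a y) := by
      refine Finset.sum_congr rfl fun y hy => ?_
      rw [R.add a y (Finset.mem_filter.1 hy).2]
      ring
    rw [e1, Finset.sum_add_distrib, ← Finset.sum_mul, hout, zero_mul, zero_add]
  have hp : (4 * π) ≠ 0 := by positivity
  refine ⟨fun a => (L a + 2 * π * z a) / (4 * π), fun d => ?_, fun d => ?_⟩
  · have e1 := h1 (R.rho d.symm)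
    rw [R.fst, h3] at e1
    have e2 := h1 d.symm
    rw [h2, hLs, hz.1 d] at e2
    simp only [R.phi_apply]
    congr 1
    linarith
  · simp only [hLs, hz.1 d]
    field_simp
    ring

end Pool.Agent.Mst
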