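import Pool.Agent.P.MP_e0c7cd_co.RotFacts
import Pool.Agent.P.MP_e0c7cd_co.WindC

namespace Pool.Agent.Mst

open Complex Real

variable {V : Type} {G : SimpleGraph V} {p : V → ℂ}

theorem rankB_outflow [Fintype V] (R : Rot G p) (w : G.Dart → ℝ) (hw : ∀ d, w (R.phi d) = w d)
    (v : V) : outflow (fun d => w d - w d.symm) v = 0 := by
  classical
  have e : ∀ d : G.Dart, w d.symm = w (R.rho d) := fun d => by
    rw [← hw, R.phi_apply, SimpleGraph.Dart.symm_symm]
  unfold outflow
  simp only [e]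
  rw [Finset.sum_sub_distrib, sub_eq_zero]
  exact (Finset.sum_equiv R.rho (fun d => by simp [R.fst]) fun d _ => rfl).symm

/-- The boundary map `w ↦ w - w ∘ symm`. -/
def rankBMap [Fintype V] (R : Rot G p) (N S : Set G.Dart) (hN : N ⊆ S)
    (hS : ∀ d : G.Dart, d.symm ∈ S → d ∈ S) : invSub R.phi N →ₗ[ℝ] cycSub G S where
  toFun w := ⟨fun d => w.1 d - w.1 d.symm, fun d => by simp, fun d hd => by
    show w.1 d - w.1 d.symm = 0
    rw [w.2.2 d fun h => hd (hN h), w.2.2 d.symm fun h => hd (hS d (hN h)), sub_self],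
    rankB_outflow R w.1 w.2.1⟩
  map_add' a b := by
    ext d
    simp only [Submodule.coe_add, Pi.add_apply]
    ring
  map_smul' c a := by
    ext d
    simp only [Submodule.coe_smul, Pi.smul_apply, smul_eq_mul, RingHom.id_apply]
    ring

theorem Rot.inv_le_cyc [Fintype V] (R : Rot G p) (hm : IsMatchstick G p) (hc : G.Connected)
    (o : G.Dart) (N S : Set G.Dart) (hN : N ⊆ S) (hS : ∀ d : G.Dart, d.symm ∈ S → d ∈ S)
    (ho : o ∉ N) :
    Module.finrank ℝ (invSub R.phi N) ≤ Module.finrank ℝ (cycSub G S) := by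
  classical
  refine LinearMap.finrank_le_finrank_of_injective (f := rankBMap R N S hN hS) ?_
  rw [injective_iff_map_eq_zero]
  intro w hw
  have h2 : ∀ d : G.Dart, w.1 d.symm = w.1 d := fun d => by
    have := congrFun (congrArg Subtype.val hw) d
    exact (sub_eq_zero.1 this).symm
  ext d
  exact (R.const_of_conn hm hc w.1 w.2.1 h2 d o).trans (w.2.2 o ho)

theorem Rot.cyc_le_inv [Fintype V] (R : Rot G p) (hm : IsMatchstick G p) (o : G.Dart) :
    Module.finrank ℝ (cycSub G Set.univ) ≤
      Module.finrank ℝ (invSub R.phi {d | ¬ R.phi.SameCycle o d}) := by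
  classical
  refine LinearMap.finrank_le_finrank_of_surjective
    (f := rankBMap R _ Set.univ (Set.subset_univ _) fun _ _ => Set.mem_univ _) ?_
  rintro ⟨z, hz⟩
  obtain ⟨w, h1, h2⟩ := R.winding hm hz
  have h3 : ∀ n : ℕ, w ((R.phi ^ n) o) = w o := fun n => by
    induction n with
    | zero => rfl
    | succ n ih => rw [pow_succ', Equiv.Perm.mul_apply, h1, ih]
  refine ⟨⟨fun d => w d - w o, fun d => by simp only [h1], fun d hd => ?_⟩, ?_⟩
  · obtain ⟨n, -, rfl⟩ := (not_not.1 hd : R.phi.SameCycle o d).exists_pow_eq'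
    exact sub_eq_zero.2 (h3 n)
  · ext d
    show w d - w o - (w d.symm - w o) = z d
    rw [h2]
    ring

theorem one_le_const [Fintype V] [Nonempty V] (S : Set G.Dart) :
    1 ≤ Module.finrank ℝ (constSub G S) := by
  refine Module.finrank_pos_iff_exists_ne_zero.2 ⟨⟨fun _ => 1, fun _ _ => rfl⟩, fun h => ?_⟩
  have := congrFun (congrArg Subtype.val h) (Classical.arbitrary V)
  simp at this

end Pool.Agent.Mst
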