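import Pool.Agent.P.MP_e0c7cd_co.Orb
import Pool.Agent.P.MP_e0c7cd_co.RankA
import Pool.Agent.P.MP_e0c7cd_co.RankB
import Pool.Agent.P.MP_e0c7cd_co.Comp

namespace Pool.Agent.Mst

open Complex Real

theorem nc_split {D : Type} [Finite D] (P Q : D → Prop) :
    {d | P d}.ncard = {d | P d ∧ Q d}.ncard + {d | P d ∧ ¬ Q d}.ncard := by
  rw [← Set.ncard_union_eq]
  · congr 1
    ext d
    simp only [Set.mem_setOf_eq, Set.mem_union]
    tauto
  · rw [Set.disjoint_left]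
    intro d h1 h2
    exact h2.2 h1.2

theorem nc_congr {D : Type} {P Q : D → Prop} (h : ∀ d, P d ↔ Q d) :
    {d | P d}.ncard = {d | Q d}.ncard := by
  congr 1
  ext d
  exact h d

theorem nc_perm {D : Type} (f : Equiv.Perm D) {P Q : D → Prop} (h : ∀ d, P d ↔ Q (f d)) :
    {d | P d}.ncard = {d | Q d}.ncard := by
  rw [← Set.ncard_image_of_injective {d | P d} f.injective]
  congr 1
  ext e
  constructor
  · rintro ⟨d, hd, rfl⟩
    exact (h d).1 hd
  · intro he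
    exact ⟨f.symm e, (h _).2 (by simpa using he), by simp⟩

theorem nc_fiber {D : Type} [Finite D] (c : D → ℂ) (P Q : D → Prop)
    (h : ∀ k, {d | P d ∧ c d = k}.ncard ≤ 3 * {d | Q d ∧ c d = k}.ncard) :
    {d | P d}.ncard ≤ 3 * {d | Q d}.ncard := by
  classical
  have := Fintype.ofFinite D
  have key : ∀ R : D → Prop, {d | R d}.ncard =
      ∑ k ∈ Finset.univ.image c, {d | R d ∧ c d = k}.ncard := by
    intro R
    rw [Set.ncard_eq_toFinset_card', Finset.card_eq_sum_card_fiberwise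
      (f := c) (t := Finset.univ.image c) (fun d _ => by simp)]
    refine Finset.sum_congr rfl fun k _ => ?_
    rw [Set.ncard_eq_toFinset_card']
    congr 1
    ext d
    simp
  rw [key P, key Q, Finset.mul_sum]
  exact Finset.sum_le_sum fun k _ => h k

variable {V : Type} {G : SimpleGraph V} {p : V → ℂ}

theorem Rot.phi_ne (R : Rot G p) (d : G.Dart) : R.phi d ≠ d := by
  intro h
  have h1 := R.phi_fst d
  rw [h] at h1
  exact d.adj.ne h1

theorem Rot.Rho.phi_phi_ne {R : Rot G p} (hm : IsMatchstick G p) {d : G.Dart} (h : R.Rho d) :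
    R.phi (R.phi d) ≠ d := by
  intro h1
  have h2 := h.2.1
  rw [h1] at h2
  have h3 : vec p d = 0 := by linear_combination h2 / 2
  have h4 := hm.norm_vec d
  rw [h3] at h4
  simp at h4

theorem Rot.same_phi (R : Rot G p) (o d : G.Dart) :
    R.phi.SameCycle o (R.phi d) ↔ R.phi.SameCycle o d := Equiv.Perm.sameCycle_apply_right

theorem Rot.euler [Fintype V] (R : Rot G p) (hm : IsMatchstick G p) (hreg : Reg4 G)
    (o : G.Dart) (hg : R.Good o) :
    3 * {d | R.phi.SameCycle o d}.ncard + 12 ≤ {d | ¬ R.phi.SameCycle o d ∧ R.Tri d}.ncard := by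
  classical
  have : Nonempty V := ⟨o.fst⟩
  have h1 := finrank_invSub R.phi {d | ¬ R.phi.SameCycle o d ∧ R.Tri d}
    {d | ¬ R.phi.SameCycle o d ∧ R.Rho d}
    (fun d hd => ⟨⟨by rw [R.same_phi]; exact hd.1, hd.2.phi⟩, hd.2.1, R.phi_ne d⟩)
    (fun d hd => ⟨⟨by rw [R.same_phi]; exact hd.1, hd.2.phi⟩, hd.2.1, hd.2.phi_phi_ne hm⟩)
    (by rw [Set.disjoint_left]; intro d h1 h2; exact h1.2.not_rho h2.2)
  have h2 : {d | ¬ R.phi.SameCycle o d ∧ R.Tri d} ∪ {d | ¬ R.phi.SameCycle o d ∧ R.Rho d} =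
      {d | ¬ R.phi.SameCycle o d} := by
    ext d
    simp only [Set.mem_setOf_eq, Set.mem_union]
    have := hg d
    tauto
  rw [h2] at h1
  have h3 := R.cyc_le_inv hm o
  have h4 := finrank_cyc (G := G) Set.univ (fun _ _ => trivial)
  have h5 := one_le_const (G := G) Set.univ
  have h6 := hreg.ncard_univ
  have h7 : (Set.univ : Set G.Dart).ncard =
      {d | R.phi.SameCycle o d}.ncard + {d | ¬ R.phi.SameCycle o d}.ncard := by
    have := nc_split (fun _ : G.Dart => True) (fun d => R.phi.SameCycle o d)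
    simpa using this
  have h8 := nc_split (fun d => ¬ R.phi.SameCycle o d) (fun d => R.Tri d)
  have h9 : {d | ¬ R.phi.SameCycle o d ∧ ¬ R.Tri d}.ncard =
      {d | ¬ R.phi.SameCycle o d ∧ R.Rho d}.ncard := by
    refine nc_congr fun d => ?_
    have := hg d
    have := @Rot.Tri.not_rho _ _ _ R d
    tauto
  omega

theorem Rot.class_le [Fintype V] (R : Rot G p) (hm : IsMatchstick G p) (hc : G.Connected)
    (hreg : Reg4 G) (o : G.Dart) (hg : R.Good o) (k : ℂ) :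
    {d | (¬ R.phi.SameCycle o d ∧ R.Tri d) ∧ cls p d = k}.ncard ≤
      3 * {d | R.phi.SameCycle o d ∧ cls p d = k}.ncard := by
  classical
  have hE := R.euler hm hreg o hg
  have h1 := finrank_invSub R.phi {d | (¬ R.phi.SameCycle o d ∧ R.Tri d) ∧ ¬ cls p d = k}
    {d | ((¬ R.phi.SameCycle o d ∧ R.Rho d) ∧ ¬ cls p d = k) ∧ ¬ cls p (R.phi d) = k}
    (fun d hd => ⟨⟨⟨by rw [R.same_phi]; exact hd.1.1, hd.1.2.phi⟩,
      by rw [hd.1.2.cls_phi hm]; exact hd.2⟩, hd.1.2.1, R.phi_ne d⟩)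
    (fun d hd => ⟨⟨⟨⟨by rw [R.same_phi]; exact hd.1.1.1, hd.1.1.2.phi⟩, hd.2⟩,
      by rw [hd.1.1.2.cls_phi_phi]; exact hd.1.2⟩, hd.1.1.2.1, hd.1.1.2.phi_phi_ne hm⟩)
    (by rw [Set.disjoint_left]; intro d h1 h2; exact h1.1.2.not_rho h2.1.1.2)
  have h2 := R.inv_le_cyc hm hc o
    ({d | (¬ R.phi.SameCycle o d ∧ R.Tri d) ∧ ¬ cls p d = k} ∪
      {d | ((¬ R.phi.SameCycle o d ∧ R.Rho d) ∧ ¬ cls p d = k) ∧ ¬ cls p (R.phi d) = k})
    {d | cls p d ≠ k}
    (by rintro d (hd | hd); exacts [hd.2, hd.1.2])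
    (fun d hd => by simpa [cls_symm] using hd)
    (by rintro (hd | hd); exacts [hd.1.1 (Equiv.Perm.SameCycle.refl _ _),
      hd.1.1.1 (Equiv.Perm.SameCycle.refl _ _)])
  have h3 := finrank_cyc (G := G) {d | cls p d ≠ k} (fun d hd => by simpa [cls_symm] using hd)
  have h4 := R.const_le hm hc hreg o hg k
  have h6 := hreg.ncard_univ
  have h7 : (Set.univ : Set G.Dart).ncard =
      {d | R.phi.SameCycle o d}.ncard + {d | ¬ R.phi.SameCycle o d}.ncard := by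
    have := nc_split (fun _ : G.Dart => True) (fun d => R.phi.SameCycle o d)
    simpa using this
  have h8 := nc_split (fun d => ¬ R.phi.SameCycle o d) (fun d => R.Tri d)
  have h9 : {d | ¬ R.phi.SameCycle o d ∧ ¬ R.Tri d}.ncard =
      {d | ¬ R.phi.SameCycle o d ∧ R.Rho d}.ncard := by
    refine nc_congr fun d => ?_
    have := hg d
    have := @Rot.Tri.not_rho _ _ _ R d
    tauto
  have a1 := nc_split (fun d => R.phi.SameCycle o d) (fun d => cls p d = k)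
  have a2 := nc_split (fun d => ¬ R.phi.SameCycle o d ∧ R.Tri d) (fun d => cls p d = k)
  have a3 := nc_split (fun d => ¬ R.phi.SameCycle o d ∧ R.Rho d) (fun d => cls p d = k)
  have a4 := nc_split (fun d => (¬ R.phi.SameCycle o d ∧ R.Rho d) ∧ cls p d = k)
    (fun d => cls p (R.phi d) = k)
  have a5 := nc_split (fun d => (¬ R.phi.SameCycle o d ∧ R.Rho d) ∧ ¬ cls p d = k)
    (fun d => cls p (R.phi d) = k)
  have a6 : {d | ((¬ R.phi.SameCycle o d ∧ R.Rho d) ∧ cls p d = k) ∧ ¬ cls p (R.phi d) = k}.ncard =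
      {d | ((¬ R.phi.SameCycle o d ∧ R.Rho d) ∧ ¬ cls p d = k) ∧ cls p (R.phi d) = k}.ncard := by
    refine nc_perm R.phi fun d => ?_
    rw [R.same_phi]
    constructor
    · rintro ⟨⟨⟨b1, b2⟩, b3⟩, b4⟩
      exact ⟨⟨⟨b1, b2.phi⟩, b4⟩, by rw [b2.cls_phi_phi]; exact b3⟩
    · rintro ⟨⟨⟨b1, b2⟩, b3⟩, b4⟩
      exact ⟨⟨⟨b1, b2.of_phi⟩, by rw [← b2.of_phi.cls_phi_phi]; exact b4⟩, b3⟩
  have a7 := nc_split
    (fun d => ((¬ R.phi.SameCycle o d ∧ R.Rho d) ∧ cls p d = k) ∧ cls p (R.phi d) = k)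
    (fun d => R.Obt k d)
  have a8 : {d | (((¬ R.phi.SameCycle o d ∧ R.Rho d) ∧ cls p d = k) ∧ cls p (R.phi d) = k) ∧
      R.Obt k d}.ncard = {d | ¬ R.phi.SameCycle o d ∧ R.Obt k d}.ncard :=
    nc_congr fun d => ⟨fun h => ⟨h.1.1.1.1, h.2⟩,
      fun h => ⟨⟨⟨⟨h.1, h.2.1⟩, h.2.2.1⟩, h.2.2.2.1⟩, h.2⟩⟩
  have a9 : {d | (((¬ R.phi.SameCycle o d ∧ R.Rho d) ∧ cls p d = k) ∧ cls p (R.phi d) = k) ∧
      ¬ R.Obt k d}.ncard = {d | ¬ R.phi.SameCycle o d ∧ R.Obt k d}.ncard := by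
    refine nc_perm R.phi fun d => ?_
    rw [R.same_phi]
    constructor
    · rintro ⟨⟨⟨⟨b1, b2⟩, b3⟩, b4⟩, b5⟩
      have b6 := ((b2.obt_or_acu hm b3 b4).resolve_left b5).2.2.2
      refine ⟨b1, b2.phi, b4, by rw [b2.cls_phi_phi]; exact b3, ?_⟩
      linarith [b2.2.2.2.1]
    · rintro ⟨b1, b2, b3, b4, b5⟩
      refine ⟨⟨⟨⟨b1, b2.of_phi⟩, by rw [← b2.of_phi.cls_phi_phi]; exact b4⟩, b3⟩, fun b6 => ?_⟩
      linarith [b2.of_phi.2.2.2.1, b6.2.2.2, Real.pi_pos]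
  have c1 := nc_split (fun d => cls p d ≠ k) (fun d => R.phi.SameCycle o d)
  have c2 := nc_split (fun d => cls p d ≠ k ∧ ¬ R.phi.SameCycle o d) (fun d => R.Tri d)
  have c3 : {d | cls p d ≠ k ∧ R.phi.SameCycle o d}.ncard =
      {d | R.phi.SameCycle o d ∧ ¬ cls p d = k}.ncard := nc_congr fun d => by tauto
  have c4 : {d | (cls p d ≠ k ∧ ¬ R.phi.SameCycle o d) ∧ R.Tri d}.ncard =
      {d | (¬ R.phi.SameCycle o d ∧ R.Tri d) ∧ ¬ cls p d = k}.ncard := nc_congr fun d => by tauto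
  have c5 : {d | (cls p d ≠ k ∧ ¬ R.phi.SameCycle o d) ∧ ¬ R.Tri d}.ncard =
      {d | (¬ R.phi.SameCycle o d ∧ R.Rho d) ∧ ¬ cls p d = k}.ncard := by
    refine nc_congr fun d => ?_
    have := hg d
    have := @Rot.Tri.not_rho _ _ _ R d
    tauto
  omega

theorem Rot.not_good [Fintype V] (R : Rot G p) (hm : IsMatchstick G p) (hc : G.Connected)
    (hreg : Reg4 G) (o : G.Dart) : ¬ R.Good o := by
  classical
  intro hg
  have h1 := R.euler hm hreg o hg
  have h2 := nc_fiber (cls p) (fun d => ¬ R.phi.SameCycle o d ∧ R.Tri d)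
    (fun d => R.phi.SameCycle o d) (fun k => R.class_le hm hc hreg o hg k)
  omega

end Pool.Agent.Mst
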