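import Pool.Agent.P.MP_e0c7cd_co.Basic

namespace Pool.Agent.Mst

open Complex Real

variable {V : Type} {G : SimpleGraph V} {p : V → ℂ}

theorem cross_sin_lt {a a' : ℝ} (ha : 0 < a) (ha' : 0 < a') (hs : a + 2 * a' < π) :
    Real.sin a' < Real.sin (a + a') := by
  have h1 : Real.sin (a + a') - Real.sin a' =
      2 * Real.sin ((a + a' - a') / 2) * Real.cos ((a + a' + a') / 2) := Real.sin_sub_sin _ _
  have h2 : 0 < Real.sin ((a + a' - a') / 2) :=
    Real.sin_pos_of_pos_of_lt_pi (by linarith) (by linarith)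
  have h3 : 0 < Real.cos ((a + a' + a') / 2) :=
    Real.cos_pos_of_mem_Ioo ⟨by linarith, by linarith⟩
  have h4 := mul_pos h2 h3
  linarith

theorem cross_ident (a a' : ℝ) :
    (Real.sin a' : ℂ) + (Real.sin a : ℂ) * (Complex.exp ((a : ℂ) * I) * Complex.exp ((a' : ℂ) * I)) =
      (Real.sin (a + a') : ℂ) * Complex.exp ((a : ℂ) * I) := by
  rw [Complex.exp_mul_I, Complex.exp_mul_I, Real.sin_add]
  push_cast
  have h1 := Complex.sin_sq_add_cos_sq (a : ℂ)
  have h2 : I * I = -1 := Complex.I_mul_I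
  linear_combination (-Complex.sin (a' : ℂ)) * h1 +
    (Complex.sin (a : ℂ) ^ 2 * Complex.sin (a' : ℂ)) * h2

theorem IsMatchstick.cross_false (hm : IsMatchstick G p) {c b1 b2 : G.Dart}
    (h1 : b1.fst = c.fst) (h2 : b2.fst = c.snd) {a a' : ℝ} (ha : 0 < a) (ha' : 0 < a')
    (hs1 : 2 * a + a' < π) (hs2 : a + 2 * a' < π)
    (e1 : Complex.exp ((a : ℂ) * I) * vec p b1 = vec p c)
    (e2 : Complex.exp ((a' : ℂ) * I) * (-vec p c) = vec p b2) : False := by
  have sa : 0 < Real.sin a := Real.sin_pos_of_pos_of_lt_pi ha (by linarith)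
  have sa' : 0 < Real.sin a' := Real.sin_pos_of_pos_of_lt_pi ha' (by linarith)
  have l1 : Real.sin a' < Real.sin (a + a') := cross_sin_lt ha ha' hs2
  have l2 : Real.sin a < Real.sin (a + a') := by
    have := cross_sin_lt ha' ha (by linarith)
    rwa [add_comm] at this
  have sD : 0 < Real.sin (a + a') := sa.trans l2
  have sDc : (Real.sin (a + a') : ℂ) ≠ 0 := by exact_mod_cast sD.ne'
  set s : ℝ := Real.sin a' / Real.sin (a + a') with hs
  set s' : ℝ := Real.sin a / Real.sin (a + a') with hs'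
  have s0 : 0 < s := div_pos sa' sD
  have s1 : s < 1 := (div_lt_one sD).2 l1
  have t0 : 0 < s' := div_pos sa sD
  have t1 : s' < 1 := (div_lt_one sD).2 l2
  have hsc : (s : ℂ) * (Real.sin (a + a') : ℂ) = (Real.sin a' : ℂ) := by
    have : s * Real.sin (a + a') = Real.sin a' := div_mul_cancel₀ _ sD.ne'
    exact_mod_cast this
  have hsc' : (s' : ℂ) * (Real.sin (a + a') : ℂ) = (Real.sin a : ℂ) := by
    have : s' * Real.sin (a + a') = Real.sin a := div_mul_cancel₀ _ sD.ne'
    exact_mod_cast this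
  have key : (s : ℂ) * vec p b1 = vec p c + (s' : ℂ) * vec p b2 := by
    apply mul_left_cancel₀ sDc
    have hi := cross_ident a a'
    rw [← e2, ← e1]
    linear_combination (vec p b1) * hsc + (vec p b1) * hi +
      (Complex.exp ((a' : ℂ) * I) * Complex.exp ((a : ℂ) * I) * vec p b1) * hsc'
  have hz1 : p b1.fst + (s : ℂ) * vec p b1 ∈ openSegment ℝ (p b1.fst) (p b1.snd) := by
    refine ⟨1 - s, s, by linarith, s0, by ring, ?_⟩
    simp only [vec, Complex.real_smul]
    push_cast
    ring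
  have hz2 : p b1.fst + (s : ℂ) * vec p b1 ∈ segment ℝ (p b2.fst) (p b2.snd) := by
    refine ⟨1 - s', s', by linarith, t0.le, by ring, ?_⟩
    rw [key, h1]
    simp only [vec, Complex.real_smul, h2]
    push_cast
    ring
  have hne : s(b1.fst, b1.snd) ≠ s(b2.fst, b2.snd) := by
    intro h
    rcases Sym2.eq_iff.1 h with ⟨h3, _⟩ | ⟨_, h4⟩
    · exact c.adj.ne (by rw [← h1, h3, h2])
    · have h5 : vec p b1 = vec p c := by simp only [vec, h1, h4, h2]
      have h6 : vec p c ≠ 0 := by
        intro h0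
        have := hm.norm_vec c
        rw [h0] at this
        simp at this
      rw [h5] at e1
      have h7 : Complex.exp ((a : ℂ) * I) = 1 := by
        apply mul_right_cancel₀ h6
        rw [e1, one_mul]
      have h8 := congrArg Complex.im h7
      rw [Complex.exp_ofReal_mul_I_im] at h8
      simp only [Complex.one_im] at h8
      exact sa.ne' h8
  obtain ⟨w, -, -, hw⟩ := hm.cross _ _ _ _ b1.adj b2.adj hne _
    (openSegment_subset_segment ℝ _ _ hz1) hz2
  rw [hw] at hz1
  exact hm.noVertex _ _ w b1.adj hz1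

end Pool.Agent.Mst
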