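import Mathlib

namespace Pool.Agent.Mst

/-- `p` is a matchstick drawing of `G` in the plane `ℂ`: distinct points, unit edges, two different
edges share only a common endpoint, and no vertex lies in the interior of an edge. -/
structure IsMatchstick {V : Type} (G : SimpleGraph V) (p : V → ℂ) : Prop where
  inj : Function.Injective p
  unit : ∀ u v, G.Adj u v → dist (p u) (p v) = 1
  cross : ∀ u v x y, G.Adj u v → G.Adj x y → s(u, v) ≠ s(x, y) → ∀ z : ℂ,
    z ∈ segment ℝ (p u) (p v) → z ∈ segment ℝ (p x) (p y) →
      ∃ w, (w = u ∨ w = v) ∧ (w = x ∨ w = y) ∧ z = p w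
  noVertex : ∀ u v w, G.Adj u v → p w ∉ openSegment ℝ (p u) (p v)

/-- The counterclockwise angle from direction `a` to direction `b`, taken in `(0, 2π]`. -/
noncomputable def ccw (a b : ℂ) : ℝ := toIocMod Real.two_pi_pos 0 (Complex.arg (b / a))

/-- `e` follows `d` on the face to the left of `d`: it starts at the head `v` of `d` and is the first
edge at `v` met when turning clockwise from the direction of the tail of `d`. -/
def FaceNext {V : Type} (G : SimpleGraph V) (p : V → ℂ) (d e : G.Dart) : Prop :=
  e.fst = d.snd ∧ ∀ y, G.Adj d.snd y →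
    ccw (p e.snd - p d.snd) (p d.fst - p d.snd) ≤ ccw (p y - p d.snd) (p d.fst - p d.snd)

/-- The darts of the boundary walk of the face to the left of `d`. -/
def faceWalk {V : Type} (G : SimpleGraph V) (p : V → ℂ) (d : G.Dart) : Set G.Dart :=
  {e | Relation.ReflTransGen (FaceNext G p) d e}

end Pool.Agent.Mst
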