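import Pool.Agent.P.MP_e0c7cd_co.Basic

namespace Pool.Agent.Mst

open Complex Real

variable {V : Type} {G : SimpleGraph V} {p : V → ℂ}

theorem Rot.mem_faceWalk [Fintype V] (R : Rot G p)
    (hR : ∀ d e, FaceNext G p d e ↔ e = R.phi d) (d e : G.Dart) :
    e ∈ faceWalk G p d ↔ R.phi.SameCycle d e := by
  classical
  constructor
  · intro h
    have h' : Relation.ReflTransGen (FaceNext G p) d e := h
    induction h' with
    | refl => exact Equiv.Perm.SameCycle.refl _ _
    | tail h1 h2 ih =>
      rw [(hR _ _).1 h2]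
      exact Equiv.Perm.sameCycle_apply_right.2 (ih h1)
  · intro h
    obtain ⟨i, -, hi⟩ := h.exists_pow_eq'
    subst hi
    show Relation.ReflTransGen (FaceNext G p) d ((R.phi ^ i) d)
    induction i with
    | zero => exact Relation.ReflTransGen.refl
    | succ n ih =>
      have h1 : R.phi.SameCycle d ((R.phi ^ n) d) := ⟨(n : ℤ), by simp⟩
      refine (ih h1).tail ((hR _ _).2 ?_)
      rw [pow_succ', Equiv.Perm.mul_apply]

theorem Short_phi_ne (R : Rot G p) (x : G.Dart) : R.phi x ≠ x := by
  intro h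
  have h1 := R.phi_fst x
  rw [h] at h1
  exact x.adj.ne h1

theorem Short_phi_ne_symm (R : Rot G p) (hne : ∀ a, R.rho a ≠ a) (x : G.Dart) :
    R.phi x ≠ x.symm := by
  intro h
  exact hne x.symm h

theorem Short_phi_phi_ne (R : Rot G p) (hne : ∀ a, R.rho a ≠ a) (x : G.Dart) :
    R.phi (R.phi x) ≠ x := by
  intro h
  apply Short_phi_ne_symm R hne x
  have h1 := R.phi_fst x
  have h2 := R.phi_fst (R.phi x)
  rw [h] at h2
  exact SimpleGraph.Dart.ext _ _ (Prod.ext h1 h2.symm)

theorem Rot.short [Fintype V] (R : Rot G p) (hne : ∀ a, R.rho a ≠ a) (d : G.Dart)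
    (h : {e | R.phi.SameCycle d e}.ncard ≤ 4) :
    R.phi (R.phi (R.phi d)) = d ∨ R.phi (R.phi (R.phi (R.phi d))) = d := by
  classical
  by_contra hc
  push Not at hc
  obtain ⟨h3, h4⟩ := hc
  have h1 := Short_phi_ne R
  have h2 := Short_phi_phi_ne R hne
  have h5 : R.phi (R.phi (R.phi (R.phi d))) ≠ R.phi d := fun h => h3 (R.phi.injective h)
  have hsub : (({d, R.phi d, R.phi (R.phi d), R.phi (R.phi (R.phi d)),
      R.phi (R.phi (R.phi (R.phi d)))} : Finset G.Dart) : Set G.Dart) ⊆
      {e | R.phi.SameCycle d e} := by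
    intro e he
    simp only [Finset.coe_insert, Finset.coe_singleton, Set.mem_insert_iff,
      Set.mem_singleton_iff] at he
    have h0 : R.phi.SameCycle d d := Equiv.Perm.SameCycle.refl _ _
    rcases he with rfl | rfl | rfl | rfl | rfl
    · exact h0
    · exact Equiv.Perm.sameCycle_apply_right.2 h0
    · exact Equiv.Perm.sameCycle_apply_right.2 (Equiv.Perm.sameCycle_apply_right.2 h0)
    · exact Equiv.Perm.sameCycle_apply_right.2 (Equiv.Perm.sameCycle_apply_right.2
        (Equiv.Perm.sameCycle_apply_right.2 h0))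
    · exact Equiv.Perm.sameCycle_apply_right.2 (Equiv.Perm.sameCycle_apply_right.2
        (Equiv.Perm.sameCycle_apply_right.2 (Equiv.Perm.sameCycle_apply_right.2 h0)))
  have hle := Set.ncard_le_ncard hsub (Set.toFinite _)
  rw [Set.ncard_coe_finset] at hle
  have hcard : ({d, R.phi d, R.phi (R.phi d), R.phi (R.phi (R.phi d)),
      R.phi (R.phi (R.phi (R.phi d)))} : Finset G.Dart).card = 5 := by
    rw [Finset.card_insert_of_notMem, Finset.card_insert_of_notMem, Finset.card_insert_of_notMem,
      Finset.card_pair (h1 _).symm]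
    · simp only [Finset.mem_insert, Finset.mem_singleton, not_or]
      exact ⟨(h1 _).symm, (h2 _).symm⟩
    · simp only [Finset.mem_insert, Finset.mem_singleton, not_or]
      exact ⟨(h1 _).symm, (h2 _).symm, h5.symm⟩
    · simp only [Finset.mem_insert, Finset.mem_singleton, not_or]
      exact ⟨(h1 _).symm, (h2 _).symm, h3.symm, h4.symm⟩
  omega

theorem Short_vec_ne (hm : IsMatchstick G p) (x : G.Dart) : vec p x ≠ 0 := by
  intro h
  have := hm.norm_vec x
  rw [h] at this
  simp at this

theorem Short_theta_le (R : Rot G p) (x : G.Dart) : R.theta x ≤ 2 * π := ccw_le _ _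

theorem Short_angle {s t : ℝ} (hs0 : 0 < s) (hs : s ≤ 2 * π) (ht0 : 0 < t) (ht : t ≤ 2 * π)
    (hc : Real.cos s = Real.cos t) (hsin : Real.sin s = Real.sin t) : s = t := by
  refine angle_unique hs0 hs ht0 ht ?_
  rw [Complex.exp_mul_I, Complex.exp_mul_I, ← Complex.ofReal_cos, ← Complex.ofReal_cos,
    ← Complex.ofReal_sin, ← Complex.ofReal_sin, hc, hsin]

theorem Short_step {s t : ℝ}
    (h : Complex.exp ((t : ℂ) * I) * (1 - Complex.exp ((s : ℂ) * I)) = 1) :
    Real.cos s + Real.cos t = 1 ∧ Real.sin s = Real.sin t := by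
  have h1 := congrArg Complex.re h
  have h2 := congrArg Complex.im h
  simp only [Complex.mul_re, Complex.mul_im, Complex.sub_re, Complex.sub_im, Complex.one_re,
    Complex.one_im, Complex.exp_ofReal_mul_I_re, Complex.exp_ofReal_mul_I_im] at h1 h2
  have h3 := Real.sin_sq_add_cos_sq t
  constructor
  · linear_combination (-Real.cos t) * h1 - Real.sin t * h2 + (1 - Real.cos s) * h3
  · linear_combination Real.sin t * h1 - Real.cos t * h2 - Real.sin s * h3

theorem Short_tri_one (R : Rot G p) (hm : IsMatchstick G p) (d : G.Dart)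
    (h : R.phi (R.phi (R.phi d)) = d) :
    Real.cos (R.theta d) + Real.cos (R.theta (R.phi d)) = 1 ∧
      Real.sin (R.theta d) = Real.sin (R.theta (R.phi d)) := by
  apply Short_step
  have e1 := R.exp_theta hm d
  have e2 := R.exp_theta hm (R.phi d)
  have f1 := R.phi_fst d
  have f2 := R.phi_fst (R.phi d)
  have f3 := R.phi_fst (R.phi (R.phi d))
  rw [h] at f3
  have hs : vec p d + vec p (R.phi d) + vec p (R.phi (R.phi d)) = 0 := by
    simp only [vec, f1, f2, ← f3]
    ring
  apply mul_right_cancel₀ (Short_vec_ne hm (R.phi d))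
  linear_combination Complex.exp ((R.theta (R.phi d) : ℂ) * I) * hs - e2 -
    Complex.exp ((R.theta (R.phi d) : ℂ) * I) * e1

theorem Rot.tri_geom (R : Rot G p) (hm : IsMatchstick G p) (d : G.Dart)
    (h : R.phi (R.phi (R.phi d)) = d) :
    (R.theta d = π / 3 ∧ R.theta (R.phi d) = π / 3 ∧ R.theta (R.phi (R.phi d)) = π / 3) ∨
      (R.theta d = 5 * π / 3 ∧ R.theta (R.phi d) = 5 * π / 3) := by
  obtain ⟨c1, s1⟩ := Short_tri_one R hm d h
  obtain ⟨c2, s2⟩ := Short_tri_one R hm (R.phi d) (by rw [h])
  obtain ⟨c3, s3⟩ := Short_tri_one R hm (R.phi (R.phi d)) (by rw [h])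
  rw [h] at c3 s3
  have hp := Real.pi_pos
  have hc1 : Real.cos (R.theta d) = 1 / 2 := by linarith
  have t12 : R.theta (R.phi d) = R.theta d :=
    Short_angle (R.theta_pos _) (Short_theta_le R _) (R.theta_pos _) (Short_theta_le R _)
      (by linarith) s1.symm
  have t13 : R.theta (R.phi (R.phi d)) = R.theta d :=
    Short_angle (R.theta_pos _) (Short_theta_le R _) (R.theta_pos _) (Short_theta_le R _)
      (by linarith) s3
  rw [t12, t13]
  have h3 := Real.sin_sq_add_cos_sq (R.theta d)
  have h4 := Real.sin_sq_add_cos_sq (π / 3)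
  have h5 : Real.sin (R.theta d) ^ 2 = Real.sin (π / 3) ^ 2 := by
    rw [Real.cos_pi_div_three] at h4
    rw [hc1] at h3
    linarith
  rcases sq_eq_sq_iff_eq_or_eq_neg.1 h5 with h6 | h6
  · have : R.theta d = π / 3 :=
      Short_angle (R.theta_pos _) (Short_theta_le R _) (by linarith) (by linarith)
        (by rw [hc1, Real.cos_pi_div_three]) h6
    exact Or.inl ⟨this, this, this⟩
  · have e : 5 * π / 3 = 2 * π - π / 3 := by ring
    have : R.theta d = 5 * π / 3 :=
      Short_angle (R.theta_pos _) (Short_theta_le R _) (by linarith) (by linarith)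
        (by rw [hc1, e, Real.cos_two_pi_sub, Real.cos_pi_div_three])
        (by rw [h6, e, Real.sin_two_pi_sub])
    exact Or.inr ⟨this, this⟩

theorem Short_not_opp (R : Rot G p) (hm : IsMatchstick G p) (hne : ∀ a, R.rho a ≠ a)
    (x : G.Dart) : vec p x + vec p (R.phi x) ≠ 0 := by
  intro h
  apply Short_phi_ne_symm R hne x
  refine hm.dart_eq (R.phi_fst x) ?_
  rw [vec_symm]
  linear_combination h

theorem Short_four {a b c e : ℂ} (ha : ‖a‖ = 1) (hb : ‖b‖ = 1) (hc : ‖c‖ = 1) (he : ‖e‖ = 1)
    (h : a + b + c + e = 0) : (a + b) * (a + c) * (a + e) = 0 := by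
  have k : ∀ z : ℂ, ‖z‖ = 1 → z * (starRingEnd ℂ) z = 1 := by
    intro z hz
    rw [Complex.mul_conj, Complex.normSq_eq_norm_sq, hz]
    simp
  have h1 := congrArg (starRingEnd ℂ) h
  simp only [map_add, map_zero] at h1
  linear_combination a ^ 2 * h + a * b * c * e * h1 - b * c * e * k a ha - a * c * e * k b hb -
    a * b * e * k c hc - a * b * c * k e he

theorem Rot.rho_geom (R : Rot G p) (hm : IsMatchstick G p) (hne : ∀ a, R.rho a ≠ a) (d : G.Dart)
    (h : R.phi (R.phi (R.phi (R.phi d))) = d) :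
    vec p (R.phi (R.phi d)) = -vec p d ∧ vec p (R.phi (R.phi (R.phi d))) = -vec p (R.phi d) ∧
      R.theta (R.phi (R.phi d)) = R.theta d ∧
      R.theta (R.phi (R.phi (R.phi d))) = R.theta (R.phi d) ∧
      (R.theta d + R.theta (R.phi d) = π ∨ R.theta d + R.theta (R.phi d) = 3 * π) := by
  have e1 := R.exp_theta hm d
  have e2 := R.exp_theta hm (R.phi d)
  have e3 := R.exp_theta hm (R.phi (R.phi d))
  have e4 := R.exp_theta hm (R.phi (R.phi (R.phi d)))
  have f1 := R.phi_fst d
  have f2 := R.phi_fst (R.phi d)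
  have f3 := R.phi_fst (R.phi (R.phi d))
  have f4 := R.phi_fst (R.phi (R.phi (R.phi d)))
  have n1 := Short_not_opp R hm hne d
  have n4 := Short_not_opp R hm hne (R.phi (R.phi (R.phi d)))
  rw [h] at e4 f4 n4
  have hs : vec p d + vec p (R.phi d) + vec p (R.phi (R.phi d)) +
      vec p (R.phi (R.phi (R.phi d))) = 0 := by
    simp only [vec, f1, f2, f3, ← f4]
    ring
  have h4 := Short_four (hm.norm_vec _) (hm.norm_vec _) (hm.norm_vec _) (hm.norm_vec _) hs
  have hc : vec p (R.phi (R.phi d)) = -vec p d := by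
    rcases mul_eq_zero.1 h4 with h5 | h5
    · rcases mul_eq_zero.1 h5 with h6 | h6
      · exact absurd h6 n1
      · linear_combination h6
    · exact absurd (by linear_combination h5) n4
  have he : vec p (R.phi (R.phi (R.phi d))) = -vec p (R.phi d) := by
    linear_combination hs - hc
  rw [hc] at e2 e3
  rw [he] at e3 e4
  have ha0 := Short_vec_ne hm d
  have hb0 := Short_vec_ne hm (R.phi d)
  refine ⟨hc, he, ?_, ?_, ?_⟩
  · refine angle_unique (R.theta_pos _) (Short_theta_le R _) (R.theta_pos _)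
      (Short_theta_le R _) ?_
    apply mul_right_cancel₀ hb0
    linear_combination -e3 - e1
  · refine angle_unique (R.theta_pos _) (Short_theta_le R _) (R.theta_pos _)
      (Short_theta_le R _) ?_
    apply mul_right_cancel₀ ha0
    linear_combination e4 + e2
  · have h7 : Complex.exp (((R.theta d + R.theta (R.phi d) : ℝ) : ℂ) * I) =
        Complex.exp (((π : ℝ) : ℂ) * I) := by
      rw [Complex.exp_pi_mul_I, Complex.ofReal_add, add_mul, Complex.exp_add]
      apply mul_right_cancel₀ ha0
      linear_combination e1 - Complex.exp ((R.theta d : ℂ) * I) * e2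
    rw [Complex.exp_eq_exp_iff_exists_int] at h7
    obtain ⟨n, hn⟩ := h7
    have h8 : R.theta d + R.theta (R.phi d) = π + n * (2 * π) := by
      have := congrArg Complex.im hn
      simpa using this
    have hp := Real.pi_pos
    have p1 := R.theta_pos d
    have p2 := R.theta_pos (R.phi d)
    have q1 := Short_theta_le R d
    have q2 := Short_theta_le R (R.phi d)
    have h9 : (n : ℝ) < 2 := by
      by_contra hx
      push Not at hx
      nlinarith
    have h10 : (-1 : ℝ) < n := by
      by_contra hx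
      push Not at hx
      nlinarith
    have h11 : n < 2 := by exact_mod_cast h9
    have h12 : -1 < n := by exact_mod_cast h10
    have h13 : n = 0 ∨ n = 1 := by omega
    rcases h13 with rfl | rfl
    · left
      rw [h8]; simp
    · right
      rw [h8]; push_cast; ring

end Pool.Agent.Mst
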