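import Pool.Agent.P.MP_e0c7cd_co.RotFacts
import Pool.Agent.P.MP_e0c7cd_co.Short
import Pool.Agent.P.MP_e0c7cd_co.Cross

namespace Pool.Agent.Mst

open Complex Real

variable {V : Type} {G : SimpleGraph V} {p : V → ℂ}

theorem Rot.inner [Fintype V] (R : Rot G p) (hm : IsMatchstick G p)
    (hreg : Reg4 G) (d : G.Dart) :
    ∃ (b : G.Dart) (β : ℝ), b.fst = d.snd ∧ 0 < β ∧ β < 2 * π - R.theta d ∧
      Complex.exp ((β : ℂ) * I) * (-vec p d) = vec p b ∧
      Complex.exp (((2 * π - R.theta d - β : ℝ) : ℂ) * I) * vec p b = vec p (R.phi d) := by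
  classical
  have hex : ∃ b : G.Dart, b.fst = d.snd ∧ b ≠ d.symm ∧ b ≠ R.phi d := by
    by_contra hc
    push Not at hc
    have hsub : {e : G.Dart | e.fst = d.snd} ⊆ {d.symm, R.phi d} := by
      intro e he
      by_cases h1 : e = d.symm
      · exact Or.inl h1
      · exact Or.inr (hc e he h1)
    have h1 := Set.ncard_le_ncard hsub (Set.toFinite _)
    have h2 : ({d.symm, R.phi d} : Set G.Dart).ncard ≤ 2 := by
      have := Set.ncard_insert_le d.symm ({R.phi d} : Set G.Dart)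
      simpa using this
    rw [hreg] at h1
    omega
  obtain ⟨b, hb, hb1, hb2⟩ := hex
  have hadd := R.add d.symm b hb
  have h0 : ang0 p d.symm b = ang p d.symm b := by simp [ang0, hb1]
  have hlt : ang p (R.phi d) b < 2 * π := by
    refine ccw_lt (hm.norm_vec _) (hm.norm_vec _) fun hv => hb2 ?_
    exact (hm.dart_eq ((R.phi_fst d).trans hb.symm) hv).symm
  have hsum : R.theta d + ang p d.symm b < 2 * π := by
    rw [h0] at hadd
    rw [R.phi_apply, hadd] at hlt
    exact hlt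
  have e1 : Complex.exp ((ang p d.symm b : ℂ) * I) * (-vec p d) = vec p b := by
    rw [← vec_symm]
    exact exp_ccw (hm.norm_vec _) (hm.norm_vec _)
  refine ⟨b, ang p d.symm b, hb, ccw_pos _ _, by linarith, e1, ?_⟩
  have e2 := R.exp_theta hm d
  rw [← e1, ← e2, ← mul_assoc, ← mul_assoc, ← Complex.exp_add, ← Complex.exp_add]
  have : ((2 * π - R.theta d - ang p d.symm b : ℝ) : ℂ) * I + (ang p d.symm b : ℂ) * I +
      (R.theta d : ℂ) * I = 2 * π * I := by
    push_cast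
    ring
  rw [this, Complex.exp_two_pi_mul_I, one_mul]

theorem Neg_step [Fintype V] (R : Rot G p) (hm : IsMatchstick G p) {d b1 b2 : G.Dart}
    {β1 β2 : ℝ} (h1 : b1.fst = d.snd) (l1 : β1 < 2 * π - R.theta d)
    (e1 : Complex.exp (((2 * π - R.theta d - β1 : ℝ) : ℂ) * I) * vec p b1 = vec p (R.phi d))
    (h2 : b2.fst = (R.phi d).snd) (l2 : 0 < β2)
    (e2 : Complex.exp ((β2 : ℂ) * I) * (-vec p (R.phi d)) = vec p b2) :
    π ≤ 2 * (2 * π - R.theta d - β1) + β2 ∨ π ≤ (2 * π - R.theta d - β1) + 2 * β2 := by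
  by_contra hc
  push Not at hc
  exact hm.cross_false (h1.trans (R.phi_fst d).symm) h2 (by linarith) l2 hc.1 hc.2 e1 e2

theorem Rot.tri_or_rho [Fintype V] (R : Rot G p) (hm : IsMatchstick G p)
    (hreg : Reg4 G) (d : G.Dart)
    (h : R.phi (R.phi (R.phi d)) = d ∨ R.phi (R.phi (R.phi (R.phi d))) = d) :
    R.Tri d ∨ R.Rho d := by
  have hp := Real.pi_pos
  obtain ⟨b0, β0, f0, p0, l0, x0, y0⟩ := R.inner hm hreg d
  obtain ⟨b1, β1, f1, p1, l1, x1, y1⟩ := R.inner hm hreg (R.phi d)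
  have s0 := Neg_step R hm f0 l0 y0 f1 p1 x1
  rcases h with h | h
  · rcases R.tri_geom hm d h with ⟨t1, t2, t3⟩ | ⟨t1, t2⟩
    · exact Or.inl ⟨h, t1, t2, t3⟩
    · exfalso
      rw [t1] at s0 l0
      rw [t2] at l1
      rcases s0 with s0 | s0 <;> linarith
  · obtain ⟨v1, v2, t2, t3, t⟩ := R.rho_geom hm (R.rho_ne_of_reg hreg) d h
    rcases t with t | t
    · exact Or.inr ⟨h, v1, v2, t, t2, t3⟩
    · exfalso
      obtain ⟨b2, β2, f2, p2, l2, x2, y2⟩ := R.inner hm hreg (R.phi (R.phi d))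
      obtain ⟨b3, β3, f3, p3, l3, x3, y3⟩ := R.inner hm hreg (R.phi (R.phi (R.phi d)))
      have s1 := Neg_step R hm f1 l1 y1 f2 p2 x2
      have s2 := Neg_step R hm f2 l2 y2 f3 p3 x3
      have s3 := Neg_step R hm (b2 := b0) f3 l3 y3 (by rw [h]; exact f0) p0 (by rw [h]; exact x0)
      rw [t2] at s2 l2
      rw [t3] at s3 l3
      rcases s0 with s0 | s0 <;> rcases s1 with s1 | s1 <;> rcases s2 with s2 | s2 <;>
        rcases s3 with s3 | s3 <;> linarith

end Pool.Agent.Mst
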