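import Pool.Agent.P.MP_e0c7cd_co.Basic

namespace Pool.Agent.Mst

open Complex Real

variable {V : Type} {G : SimpleGraph V} {p : V → ℂ}

open Classical in
/-- Averaging over the short orbits. -/
noncomputable def orbProj {D : Type} (f : Equiv.Perm D) (A B : Set D) : (D → ℝ) →ₗ[ℝ] (D → ℝ) where
  toFun w d := if d ∈ A then (w d + w (f d) + w (f (f d))) / 3
    else if d ∈ B then (w d + w (f d) + w (f (f d)) + w (f (f (f d)))) / 4 else 0
  map_add' a b := by
    funext d
    simp only [Pi.add_apply]
    split_ifs <;> ring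
  map_smul' c a := by
    funext d
    simp only [Pi.smul_apply, smul_eq_mul, RingHom.id_apply]
    split_ifs <;> ring

open Classical in
theorem orbProj_apply {D : Type} (f : Equiv.Perm D) (A B : Set D) (w : D → ℝ) (d : D) :
    orbProj f A B w d = if d ∈ A then (w d + w (f d) + w (f (f d))) / 3
      else if d ∈ B then (w d + w (f d) + w (f (f d)) + w (f (f (f d)))) / 4 else 0 := rfl

theorem finrank_invSub {D : Type} [Fintype D] (f : Equiv.Perm D) (A B : Set D)
    (hA : ∀ d ∈ A, f d ∈ A ∧ f (f (f d)) = d ∧ f d ≠ d)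
    (hB : ∀ d ∈ B, f d ∈ B ∧ f (f (f (f d))) = d ∧ f (f d) ≠ d) (hAB : Disjoint A B) :
    12 * Module.finrank ℝ (invSub f (A ∪ B)) = 4 * A.ncard + 3 * B.ncard := by
  classical
  have hA' : ∀ d, f d ∈ A → d ∈ A := by
    intro d hd
    have h1 := f.injective (hA _ hd).2.1
    have h2 := (hA _ (hA _ hd).1).1
    rwa [h1] at h2
  have hB' : ∀ d, f d ∈ B → d ∈ B := by
    intro d hd
    have h1 := f.injective (hB _ hd).2.1
    have h2 := (hB _ (hB _ (hB _ hd).1).1).1
    rwa [h1] at h2
  have hP : LinearMap.IsProj (invSub f (A ∪ B)) (orbProj f A B) := by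
    constructor
    · intro w
      refine ⟨fun d => ?_, fun d hd => ?_⟩
      · rw [orbProj_apply, orbProj_apply]
        by_cases ha : d ∈ A
        · rw [if_pos ha, if_pos (hA d ha).1, (hA d ha).2.1]; ring
        · rw [if_neg ha, if_neg (fun h => ha (hA' d h))]
          by_cases hb : d ∈ B
          · rw [if_pos hb, if_pos (hB d hb).1, (hB d hb).2.1]; ring
          · rw [if_neg hb, if_neg (fun h => hb (hB' d h))]
      · rw [orbProj_apply, if_neg (fun h => hd (Or.inl h)), if_neg (fun h => hd (Or.inr h))]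
    · rintro w ⟨h1, h2⟩
      funext d
      rw [orbProj_apply]
      simp only [h1]
      split_ifs with ha hb
      · ring
      · ring
      · exact (h2 d (fun h => h.elim ha hb)).symm
  have htr := hP.trace
  rw [LinearMap.trace_eq_matrix_trace ℝ (Pi.basisFun ℝ D)] at htr
  have hdiag : ∀ d, LinearMap.toMatrix (Pi.basisFun ℝ D) (Pi.basisFun ℝ D) (orbProj f A B) d d
      = (if d ∈ A then (1 / 3 : ℝ) else 0) + (if d ∈ B then (1 / 4 : ℝ) else 0) := by
    intro d
    rw [LinearMap.toMatrix_apply, Pi.basisFun_repr, Pi.basisFun_apply, orbProj_apply]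
    by_cases ha : d ∈ A
    · have hb : d ∉ B := fun h => Set.disjoint_left.mp hAB ha h
      obtain ⟨-, h2, h3⟩ := hA d ha
      have h4 : f (f d) ≠ d := fun h => h3 (by rw [h] at h2; exact h2)
      simp [ha, hb, h3, h4]
    · by_cases hb : d ∈ B
      · obtain ⟨-, h2, h3⟩ := hB d hb
        have h4 : f d ≠ d := fun h => h3 (by rw [h, h])
        have h5 : f (f (f d)) ≠ d := fun h => h4 (by rw [h] at h2; exact h2)
        simp [ha, hb, h3, h4, h5]
      · simp [ha, hb]
  have hcard : ∀ S : Set D, ∀ c : ℝ, (∑ d, if d ∈ S then c else 0) = c * S.ncard := by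
    intro S c
    rw [← Finset.sum_filter, Finset.sum_const, nsmul_eq_mul, mul_comm]
    congr 2
    rw [← Set.ncard_coe_finset]
    congr 1
    ext x
    simp
  simp only [Matrix.trace, Matrix.diag, hdiag, Finset.sum_add_distrib, hcard] at htr
  have : (12 * Module.finrank ℝ (invSub f (A ∪ B)) : ℝ) = 4 * A.ncard + 3 * B.ncard := by
    rw [← htr]; ring
  exact_mod_cast this

end Pool.Agent.Mst
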