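import Pool.Agent.P.MP_e0c7cd_co.Basic

namespace Pool.Agent.Mst

open Complex Real

variable {V : Type} {G : SimpleGraph V} {p : V → ℂ}

theorem exists_rot [Fintype V] (hm : IsMatchstick G p) :
    ∃ R : Rot G p, ∀ d e, FaceNext G p d e ↔ e = R.phi d := by
  classical
  have hex : ∀ a : G.Dart, ∃ e : G.Dart, e.fst = a.fst ∧
      ∀ y : G.Dart, y.fst = a.fst → ang p e a ≤ ang p y a := by
    intro a
    obtain ⟨e, he, hmin⟩ := Finset.exists_min_image
      (Finset.univ.filter (fun y : G.Dart => y.fst = a.fst)) (fun y => ang p y a) ⟨a, by simp⟩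
    exact ⟨e, by simpa using he, fun y hy => hmin y (by simpa using hy)⟩
  choose r hr1 hr2 using hex
  have hexp : ∀ a b : G.Dart, Complex.exp ((ang p a b : ℂ) * I) * vec p a = vec p b :=
    fun a b => exp_ccw (hm.norm_vec a) (hm.norm_vec b)
  have hadd : ∀ a y : G.Dart, y.fst = a.fst →
      ang p (r a) y = ang p (r a) a + ang0 p a y := by
    intro a y hy
    by_cases hya : y = a
    · subst hya
      simp [ang0]
    · have h0 : ang0 p a y = ang p a y := by simp [ang0, hya]
      rw [h0]
      have hb0 : 0 < ang p a y := ccw_pos _ _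
      have hb1 : ang p a y < 2 * π := ccw_lt (hm.norm_vec a) (hm.norm_vec y)
        (fun h => hya (hm.dart_eq hy h.symm))
      have h1 : ang p y a = 2 * π - ang p a y := by
        refine ccw_eq (hm.norm_vec y) (hm.norm_vec a) (by linarith) (by linarith) ?_
        have e : ((2 * π - ang p a y : ℝ) : ℂ) * I + (ang p a y : ℂ) * I = 2 * π * I := by
          push_cast; ring
        calc Complex.exp (((2 * π - ang p a y : ℝ) : ℂ) * I) * vec p y
            = Complex.exp (((2 * π - ang p a y : ℝ) : ℂ) * I) *
                (Complex.exp ((ang p a y : ℂ) * I) * vec p a) := by rw [hexp]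
          _ = vec p a := by
              rw [← mul_assoc, ← Complex.exp_add, e, Complex.exp_two_pi_mul_I, one_mul]
      have h2 := hr2 a y hy
      have ha0 : 0 < ang p (r a) a := ccw_pos _ _
      refine ccw_eq (hm.norm_vec _) (hm.norm_vec y) (by linarith) (by linarith) ?_
      have e : ((ang p (r a) a + ang p a y : ℝ) : ℂ) * I =
          (ang p a y : ℂ) * I + (ang p (r a) a : ℂ) * I := by
        push_cast; ring
      rw [e, Complex.exp_add, mul_assoc, hexp, hexp]
  have hinj : Function.Injective r := by
    intro a b hab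
    by_contra hne
    have hf : b.fst = a.fst := by rw [← hr1 a, ← hr1 b, hab]
    have h1 := hadd a b hf
    have h2 := hadd b a hf.symm
    have e1 : ang0 p a b = ang p a b := by simp [ang0, Ne.symm hne]
    have e2 : ang0 p b a = ang p b a := by simp [ang0, hne]
    have p1 : 0 < ang p a b := ccw_pos _ _
    have p2 : 0 < ang p b a := ccw_pos _ _
    rw [e1, hab] at h1
    rw [e2] at h2
    linarith
  have hbij : Function.Bijective r := Finite.injective_iff_bijective.1 hinj
  refine ⟨⟨Equiv.ofBijective r hbij, hr1, hadd⟩, fun d e => ?_⟩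
  have hphi : Rot.phi ⟨Equiv.ofBijective r hbij, hr1, hadd⟩ d = r d.symm := rfl
  rw [hphi]
  have hconv : ∀ y : G.Dart, y.fst = d.snd →
      ccw (p y.snd - p d.snd) (p d.fst - p d.snd) = ang p y d.symm := by
    intro y hy
    simp only [ang, vec, hy]
    rfl
  have hrf : (r d.symm).fst = d.snd := hr1 _
  constructor
  · rintro ⟨h1, h2⟩
    have h3 := h2 (r d.symm).snd (hrf ▸ (r d.symm).adj)
    rw [hconv e h1, hconv _ hrf] at h3
    have h4 := hr2 d.symm e h1
    have h5 : ang p e d.symm = ang p (r d.symm) d.symm := le_antisymm h3 h4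
    refine hm.dart_eq (h1.trans hrf.symm) ?_
    have h6 := hexp e d.symm
    have h7 := hexp (r d.symm) d.symm
    rw [h5] at h6
    exact mul_left_cancel₀ (Complex.exp_ne_zero _) (h6.trans h7.symm)
  · rintro rfl
    refine ⟨hrf, fun y hy => ?_⟩
    have h1 := hr2 d.symm ⟨(d.snd, y), hy⟩ rfl
    rw [hconv _ hrf]
    exact h1

end Pool.Agent.Mst
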