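import Pool.Agent.P.MP_e0c7cd_co.Basic

namespace Pool.Agent.Mst

open Complex Real

variable {V : Type} {G : SimpleGraph V} {p : V → ℂ}

theorem Rot.rho_ne (R : Rot G p) {a b : G.Dart} (hb : b.fst = a.fst) (hab : b ≠ a) :
    R.rho a ≠ a := by
  intro h
  have h1 := R.add a b hb
  rw [h, ang0, if_neg hab] at h1
  have h2 : 0 < ang p a a := ccw_pos _ _
  linarith

open Classical in
theorem Rot.sum_theta [Fintype V] (R : Rot G p) (hm : IsMatchstick G p) (y : G.Dart) :
    ∑ d : G.Dart with d.snd = y.fst, R.theta d = 2 * π := by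
  have e1 : ∑ d : G.Dart with d.snd = y.fst, R.theta d =
      ∑ a : G.Dart with a.fst = y.fst, ang p (R.rho a) a :=
    Finset.sum_equiv (symmPerm G) (fun d => by simp [symmPerm]) fun d _ => rfl
  have e2 : ∑ a : G.Dart with a.fst = y.fst, ang p (R.rho a) y =
      ∑ a : G.Dart with a.fst = y.fst, ang p a y :=
    Finset.sum_equiv R.rho (fun d => by simp [R.fst]) fun d _ => rfl
  have e3 : ∑ a : G.Dart with a.fst = y.fst, ang p (R.rho a) a =
      ∑ a : G.Dart with a.fst = y.fst, (ang p (R.rho a) y - ang0 p a y) :=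
    Finset.sum_congr rfl fun a ha => by
      rw [R.add a y (Finset.mem_filter.1 ha).2.symm]; ring
  rw [e1, e3, Finset.sum_sub_distrib, e2, ← Finset.sum_sub_distrib, Finset.sum_eq_single y]
  · rw [ang0, if_pos rfl, sub_zero]
    exact ccw_self (hm.norm_vec y)
  · intro a _ ha
    rw [ang0, if_neg ha.symm, sub_self]
  · simp

theorem Rot.const_of_rho [Fintype V] (R : Rot G p) (hm : IsMatchstick G p) {β : Type}
    (f : G.Dart → β) (hf : ∀ a, f (R.rho a) = f a) {a b : G.Dart} (h : a.fst = b.fst) :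
    f a = f b := by
  classical
  by_contra hne
  obtain ⟨c, hc, hmax⟩ := Finset.exists_max_image
    (Finset.univ.filter fun c : G.Dart => c.fst = b.fst ∧ f c ≠ f b) (fun c => ang p c b)
    ⟨a, by simp [h, hne]⟩
  simp only [Finset.mem_filter, Finset.mem_univ, true_and] at hc hmax
  have h1 := hmax (R.rho c) ⟨by rw [R.fst, hc.1], by rw [hf]; exact hc.2⟩
  have h2 := R.add c b hc.1.symm
  have h3 : b ≠ c := fun e => hc.2 (by rw [e])
  rw [ang0, if_neg h3] at h2
  have h4 : 0 < ang p (R.rho c) c := ccw_pos _ _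
  linarith

theorem Rot.const_of_conn [Fintype V] (R : Rot G p) (hm : IsMatchstick G p) (hc : G.Connected)
    {β : Type} (f : G.Dart → β) (h1 : ∀ d, f (R.phi d) = f d) (h2 : ∀ d, f d.symm = f d)
    (a b : G.Dart) : f a = f b := by
  have hf : ∀ a, f (R.rho a) = f a := fun a => by
    have := h1 a.symm
    rwa [R.phi_apply, SimpleGraph.Dart.symm_symm, h2] at this
  have key : ∀ {u v : V} (_ : G.Walk u v) (a b : G.Dart), a.fst = u → b.fst = v → f a = f b := by
    intro u v w
    induction w with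
    | nil => intro a b ha hb; exact R.const_of_rho hm f hf (ha.trans hb.symm)
    | @cons u x v h w ih =>
      intro a b ha hb
      have e1 : f a = f ⟨(u, x), h⟩ := R.const_of_rho hm f hf ha
      rw [e1, ← h2]
      exact ih _ b rfl hb
  obtain ⟨w⟩ := hc.preconnected a.fst b.fst
  exact key w a b rfl rfl

theorem reg4_of_regular [Fintype V] [DecidableRel G.Adj] (hreg : G.IsRegularOfDegree 4) :
    Reg4 G := by
  classical
  intro v
  rw [← hreg v, ← SimpleGraph.dart_fst_fiber_card_eq_degree, ← Set.ncard_coe_finset]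
  congr 1
  ext d
  simp

theorem Reg4.ncard_snd (hreg : Reg4 G) (v : V) :
    {d : G.Dart | d.snd = v}.ncard = 4 := by
  rw [← hreg v, ← Set.ncard_image_of_injective _ (symmPerm G).injective]
  congr 1
  ext d
  constructor
  · rintro ⟨e, he, rfl⟩
    exact he
  · intro hd
    exact ⟨d.symm, hd, SimpleGraph.Dart.symm_symm d⟩

theorem Reg4.ncard_univ [Fintype V] (hreg : Reg4 G) :
    (Set.univ : Set G.Dart).ncard = 4 * Fintype.card V := by
  classical
  rw [Set.ncard_univ, Nat.card_eq_fintype_card, ← Finset.card_univ,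
    Finset.card_eq_sum_card_fiberwise (f := fun d : G.Dart => d.fst) (t := Finset.univ) (by simp)]
  have : ∀ v, (Finset.univ.filter fun d : G.Dart => d.fst = v).card = 4 := fun v => by
    rw [← hreg v, ← Set.ncard_coe_finset]
    congr 1
    ext d
    simp
  simp [this, mul_comm]

theorem Rot.rho_ne_of_reg (R : Rot G p) (hreg : Reg4 G) (a : G.Dart) : R.rho a ≠ a := by
  obtain ⟨b, hb, hab⟩ := Set.exists_ne_of_one_lt_ncard
    (s := {d : G.Dart | d.fst = a.fst}) (by rw [hreg a.fst]; norm_num) a
  exact R.rho_ne hb hab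

end Pool.Agent.Mst
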