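import Pool.Agent.P.MP_e0c7cd_co.Corner

namespace Pool.Agent.Mst

open Complex Real

variable {V : Type} {G : SimpleGraph V} {p : V → ℂ}

theorem sigma_sum {D M : Type} [AddCommGroup M] (S : Finset D) (f : D → D)
    (h1 : ∀ d ∈ S, f d ∈ S) (h2 : ∀ a ∈ S, ∀ b ∈ S, f a = f b → a = b) (F : D → M) :
    ∑ d ∈ S, (F (f d) - F d) = 0 := by
  classical
  have h3 : S.image f = S := by
    apply Finset.eq_of_subset_of_card_le
    · intro x hx
      obtain ⟨d, hd, rfl⟩ := Finset.mem_image.1 hx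
      exact h1 d hd
    · rw [Finset.card_image_of_injOn (fun a ha b hb h => h2 a ha b hb h)]
  have h4 : ∑ d ∈ S.image f, F d = ∑ d ∈ S, F (f d) :=
    Finset.sum_image (fun a ha b hb h => h2 a ha b hb h)
  rw [Finset.sum_sub_distrib, ← h4, h3, sub_self]

theorem sigma_norm (R : Rot G p) (hm : IsMatchstick G p) (d : G.Dart) :
    ‖vec p (R.phi d).symm - vec p d‖ ^ 2 = 2 - 2 * Real.cos (R.theta d) := by
  have h1 := R.exp_theta hm d
  have h2 : vec p (R.phi d).symm - vec p d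
      = (Complex.exp ((R.theta d : ℂ) * I) - 1) * vec p (R.phi d) := by
    rw [vec_symm]
    linear_combination -h1
  rw [h2, norm_mul, hm.norm_vec, mul_one, Complex.sq_norm, Complex.normSq_apply]
  simp only [Complex.sub_re, Complex.sub_im, Complex.exp_ofReal_mul_I_re,
    Complex.exp_ofReal_mul_I_im, Complex.one_re, Complex.one_im]
  nlinarith [Real.sin_sq_add_cos_sq (R.theta d)]

theorem sigma_im (R : Rot G p) (hm : IsMatchstick G p) (d : G.Dart) :
    ((starRingEnd ℂ) (vec p d) * vec p (R.phi d)).im = Real.sin (R.theta d) := by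
  have h1 := R.exp_theta hm d
  have h2 : vec p d = -(Complex.exp ((R.theta d : ℂ) * I) * vec p (R.phi d)) := by
    rw [h1, neg_neg]
  have h3 : (vec p (R.phi d)).re * (vec p (R.phi d)).re
      + (vec p (R.phi d)).im * (vec p (R.phi d)).im = 1 := by
    rw [← Complex.normSq_apply, ← Complex.sq_norm, hm.norm_vec, one_pow]
  rw [h2]
  simp only [Complex.mul_im, Complex.conj_re, Complex.conj_im, Complex.neg_re, Complex.neg_im,
    Complex.mul_re, Complex.exp_ofReal_mul_I_re, Complex.exp_ofReal_mul_I_im]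
  linear_combination Real.sin (R.theta d) * h3

theorem Rot.two_le_obt [Fintype V] (R : Rot G p) (hm : IsMatchstick G p)
    (hreg : Reg4 G) (k : ℂ) (H : Set V)
    (hH : ∀ d : G.Dart, cls p d ≠ k → (d.fst ∈ H ↔ d.snd ∈ H))
    (hg : ∀ d : G.Dart, d.snd ∈ H → R.Tri d ∨ R.Rho d)
    (hx : ∃ d : G.Dart, d.snd ∈ H ∧ cls p d = k) :
    2 ≤ {d : G.Dart | d.snd ∈ H ∧ R.Obt k d}.ncard := by
  classical
  have hc := R.corner_count hm hreg k H hH hg
  let S : Finset G.Dart := Finset.univ.filter fun d => d.snd ∈ H ∧ cls p d = k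
  have hS : ∀ d, d ∈ S ↔ d.snd ∈ H ∧ cls p d = k := fun d => by simp [S]
  let sg : G.Dart → G.Dart := fun d =>
    if cls p (R.phi d) = k then (R.phi d).symm else (R.phi (R.phi d)).symm
  have s1 : ∀ d, cls p (R.phi d) = k → sg d = (R.phi d).symm := fun d h => if_pos h
  have s2 : ∀ d, cls p (R.phi d) ≠ k → sg d = (R.phi (R.phi d)).symm := fun d h => if_neg h
  have hrho : ∀ d ∈ S, cls p (R.phi d) ≠ k → R.Rho d := by
    intro d hd h
    obtain ⟨a1, a2⟩ := (hS d).1 hd
    rcases hg d a1 with h' | h'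
    · exact absurd ((h'.cls_phi hm).trans a2) h
    · exact h'
  have hsymm : ∀ a b : G.Dart, a.symm = b.symm → a = b :=
    fun a b h => SimpleGraph.Dart.symm_involutive.injective h
  have hmap : ∀ d ∈ S, sg d ∈ S := by
    intro d hd
    obtain ⟨a1, a2⟩ := (hS d).1 hd
    rw [hS]
    by_cases h : cls p (R.phi d) = k
    · rw [s1 d h, cls_symm]
      refine ⟨?_, h⟩
      show (R.phi d).fst ∈ H
      rw [R.phi_fst]
      exact a1
    · rw [s2 d h, cls_symm, (hrho d hd h).cls_phi_phi]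
      refine ⟨?_, a2⟩
      show (R.phi (R.phi d)).fst ∈ H
      rw [R.phi_fst, ← hH _ h, R.phi_fst]
      exact a1
  have hinj : ∀ a ∈ S, ∀ b ∈ S, sg a = sg b → a = b := by
    intro a ha b hb h
    by_cases h1 : cls p (R.phi a) = k <;> by_cases h2 : cls p (R.phi b) = k
    · rw [s1 a h1, s1 b h2] at h
      exact R.phi.injective (hsymm _ _ h)
    · rw [s1 a h1, s2 b h2] at h
      have h3 := R.phi.injective (hsymm _ _ h)
      exact absurd (h3 ▸ ((hS a).1 ha).2) h2
    · rw [s2 a h1, s1 b h2] at h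
      have h3 := R.phi.injective (hsymm _ _ h)
      exact absurd (h3 ▸ ((hS b).1 hb).2) h1
    · rw [s2 a h1, s2 b h2] at h
      exact R.phi.injective (R.phi.injective (hsymm _ _ h))
  have hvec : ∀ d ∈ S, cls p (R.phi d) ≠ k → vec p (sg d) = vec p d := by
    intro d hd h
    rw [s2 d h, vec_symm, (hrho d hd h).2.1, neg_neg]
  have hif : ∀ d ∈ S, cls p (R.phi d) = k → R.Tri d ∨ R.Obt k d ∨ R.Acu k d := by
    intro d hd h
    obtain ⟨a1, a2⟩ := (hS d).1 hd
    rcases hg d a1 with h' | h'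
    · exact Or.inl h'
    · exact Or.inr (h'.obt_or_acu hm a2 h)
  by_contra hlt
  have hcase : {d : G.Dart | d.snd ∈ H ∧ R.Obt k d}.ncard = 0 ∨
      {d : G.Dart | d.snd ∈ H ∧ R.Obt k d}.ncard = 1 := by omega
  rcases hcase with h0 | h1
  · have e1 : {d : G.Dart | d.snd ∈ H ∧ R.Obt k d} = ∅ := (Set.ncard_eq_zero (Set.toFinite _)).1 h0
    have e2 : {d : G.Dart | d.snd ∈ H ∧ R.Tri d} = ∅ :=
      (Set.ncard_eq_zero (Set.toFinite _)).1 (by omega)
    have e3 : {d : G.Dart | d.snd ∈ H ∧ R.Acu k d} = ∅ :=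
      (Set.ncard_eq_zero (Set.toFinite _)).1 (by omega)
    have hall : ∀ d ∈ S, cls p (R.phi d) ≠ k := by
      intro d hd h
      have a1 := ((hS d).1 hd).1
      rcases hif d hd h with h' | h' | h'
      · exact (Set.eq_empty_iff_forall_notMem.1 e2 d) ⟨a1, h'⟩
      · exact (Set.eq_empty_iff_forall_notMem.1 e1 d) ⟨a1, h'⟩
      · exact (Set.eq_empty_iff_forall_notMem.1 e3 d) ⟨a1, h'⟩
    have hs := sigma_sum S sg hmap hinj
      (fun d => ((starRingEnd ℂ) (vec p d) * p d.snd).im)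
    obtain ⟨x, hx1, hx2⟩ := hx
    refine absurd hs (ne_of_gt (Finset.sum_pos ?_ ⟨x, (hS x).2 ⟨hx1, hx2⟩⟩))
    intro d hd
    have b1 := hvec d hd (hall d hd)
    have b2 : p (sg d).snd = p d.snd + vec p (R.phi d) := by
      rw [s2 d (hall d hd)]
      show p (R.phi (R.phi d)).fst = _
      rw [R.phi_fst, vec, R.phi_fst]
      ring
    rw [b1, b2, mul_add, Complex.add_im, sigma_im R hm d]
    have := Real.sin_pos_of_pos_of_lt_pi (R.theta_pos d) (hrho d hd (hall d hd)).theta_lt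
    linarith
  · obtain ⟨o, ho⟩ := Set.ncard_eq_one.1 h1
    have ho' : ∀ d, (d.snd ∈ H ∧ R.Obt k d) ↔ d = o := fun d => by
      have : d ∈ {d : G.Dart | d.snd ∈ H ∧ R.Obt k d} ↔ d ∈ ({o} : Set G.Dart) := by rw [ho]
      simpa using this
    obtain ⟨o1, o2⟩ := (ho' o).2 rfl
    have hoS : o ∈ S := (hS o).2 ⟨o1, o2.2.1⟩
    have hu : ({d : G.Dart | d.snd ∈ H ∧ R.Tri d} ∪ {d : G.Dart | d.snd ∈ H ∧ R.Acu k d}).ncard
        ≤ 1 := (Set.ncard_union_le _ _).trans (by omega)
    obtain ⟨c, hc'⟩ : ∃ c : G.Dart, ∀ d, d.snd ∈ H → (R.Tri d ∨ R.Acu k d) → d = c := by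
      rcases (Set.ncard_le_one_iff_eq (Set.toFinite _)).1 hu with h | ⟨c, h⟩
      · refine ⟨o, fun d a1 a2 => ?_⟩
        refine absurd ?_ (Set.eq_empty_iff_forall_notMem.1 h d)
        exact a2.imp (fun a => ⟨a1, a⟩) (fun a => ⟨a1, a⟩)
      · refine ⟨c, fun d a1 a2 => ?_⟩
        have : d ∈ ({c} : Set G.Dart) := by
          rw [← h]
          exact a2.imp (fun a => ⟨a1, a⟩) (fun a => ⟨a1, a⟩)
        simpa using this
    have hs := sigma_sum S sg hmap hinj (vec p)
    rw [← Finset.add_sum_erase S _ hoS] at hs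
    have n1 : ‖vec p (sg o) - vec p o‖ ^ 2 = 3 := by
      rw [s1 o o2.2.2.1, sigma_norm R hm, o2.2.2.2]
      have : 2 * π / 3 = π - π / 3 := by ring
      rw [this, Real.cos_pi_sub, Real.cos_pi_div_three]
      norm_num
    have n2 : ∀ d ∈ S.erase o, ‖vec p (sg d) - vec p d‖ ≤ if d = c then 1 else 0 := by
      intro d hd
      obtain ⟨hdo, hd⟩ := Finset.mem_erase.1 hd
      have a1 := ((hS d).1 hd).1
      by_cases h : cls p (R.phi d) = k
      · have a2 : R.Tri d ∨ R.Acu k d := by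
          rcases hif d hd h with h' | h' | h'
          · exact Or.inl h'
          · exact absurd ((ho' d).1 ⟨a1, h'⟩) hdo
          · exact Or.inr h'
        have a3 : R.theta d = π / 3 := a2.elim (fun a => a.2.1) (fun a => a.2.2.2)
        rw [if_pos (hc' d a1 a2), s1 d h]
        apply le_of_sq_le_sq _ zero_le_one
        rw [sigma_norm R hm, a3, Real.cos_pi_div_three]
        norm_num
      · rw [hvec d hd h, sub_self, norm_zero]
        split_ifs <;> norm_num
    have n3 : ‖∑ d ∈ S.erase o, (vec p (sg d) - vec p d)‖ ≤ 1 := by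
      refine (norm_sum_le _ _).trans ((Finset.sum_le_sum n2).trans ?_)
      rw [Finset.sum_ite_eq']
      split_ifs <;> norm_num
    have n4 : vec p (sg o) - vec p o = -∑ d ∈ S.erase o, (vec p (sg d) - vec p d) :=
      eq_neg_of_add_eq_zero_left hs
    rw [n4, norm_neg] at n1
    nlinarith [norm_nonneg (∑ d ∈ S.erase o, (vec p (sg d) - vec p d))]

end Pool.Agent.Mst
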