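import Pool.Agent.P.MP_e0c7cd_co.Two0

namespace Pool.Agent.Mst

open Complex Real

variable {V : Type} {G : SimpleGraph V} {p : V → ℂ}

open Classical in
theorem TAngle_turn [Fintype V] (R : Rot G p) (x : G.Dart) :
    R.turn x = ∑ d : G.Dart, (if R.phi.SameCycle x d then π - R.theta d else 0) := by
  rw [Rot.turn, Finset.sum_filter]

theorem Rot.Two.side_angle [Fintype V] {R : Rot G p} {o b : G.Dart} (h : R.Two o b) {k : ℂ}
    (hF : R.Facts o b k) :
    π / 6 * ((R.cS o b k : ℝ) + R.tS o b k) = π / 2 * R.fl o - R.turn o := by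
  classical
  have hp := Real.pi_pos
  have hm := h.hm
  have hH : ∀ d : G.Dart, cls p d ≠ k → (d.fst ∈ R.side k o ↔ d.snd ∈ R.side k o) :=
    fun d hd => R.side_iff o hd
  have s0 := Corner_sum_zero R hm h.hreg (R.side k o)
  have s1 := Corner_shift R
    (fun d => R.Sh o b d ∧ d.snd ∈ R.side k o ∧ R.Rho d ∧ cls p (R.phi d) ≠ k)
    (fun d => R.Sh o b d ∧ d.snd ∈ R.side k o ∧ R.Rho d ∧ cls p d ≠ k) (fun d => by
      rw [R.sh_phi]
      constructor
      · rintro ⟨h0, h1, h2, h3⟩
        exact ⟨h0, R.phi_fst d ▸ (hH _ h3).2 h1, h2.of_phi, h3⟩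
      · rintro ⟨h0, h1, h2, h3⟩
        exact ⟨h0, (hH _ h3).1 (by rw [R.phi_fst]; exact h1), h2.phi, h3⟩) (fun d h => h.2.2.1)
  have s2 := Corner_shift R
    (fun d => R.Sh o b d ∧ d.snd ∈ R.side k o ∧ R.Rho d ∧ cls p (R.phi d) ≠ k ∧ cls p d ≠ k)
    (fun d => R.Sh o b d ∧ d.snd ∈ R.side k o ∧ R.Rho d ∧ cls p (R.phi d) ≠ k ∧ cls p d ≠ k)
    (fun d => by
      rw [R.sh_phi]
      constructor
      · rintro ⟨h0, h1, h2, h3, h4⟩
        exact ⟨h0, R.phi_fst d ▸ (hH _ h4).2 h1, h2.of_phi, h4,
          by rw [← h2.of_phi.cls_phi_phi]; exact h3⟩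
      · rintro ⟨h0, h1, h2, h3, h4⟩
        exact ⟨h0, (hH _ h3).1 (by rw [R.phi_fst]; exact h1), h2.phi,
          by rw [h2.cls_phi_phi]; exact h4, h3⟩) (fun d h => h.2.2.1)
  have key : ∀ d : G.Dart, (if d.snd ∈ R.side k o then R.theta d - π / 2 else 0) =
      π / 2 * (if R.phi.SameCycle o d then (1 : ℝ) else 0) -
      (if R.phi.SameCycle o d then π - R.theta d else 0) -
      π / 6 * (if R.Sh o b d ∧ cls p d = k ∧ (R.Tri d ∨ R.Acu k d) ∧ d.snd ∈ R.side k o
        then (1 : ℝ) else 0) -
      π / 6 * (if R.Sh o b d ∧ R.Tri d ∧ cls p d ≠ k ∧ d.snd ∈ R.side k o then (1 : ℝ) else 0) +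
      (if R.Sh o b d ∧ d.snd ∈ R.side k o ∧ R.Rho d ∧ cls p (R.phi d) ≠ k
        then R.theta d - π / 2 else 0) +
      (if R.Sh o b d ∧ d.snd ∈ R.side k o ∧ R.Rho d ∧ cls p d ≠ k then R.theta d - π / 2 else 0) -
      (if R.Sh o b d ∧ d.snd ∈ R.side k o ∧ R.Rho d ∧ cls p (R.phi d) ≠ k ∧ cls p d ≠ k
        then R.theta d - π / 2 else 0) := by
    intro d
    by_cases hO : R.phi.SameCycle o d
    · have hd := R.snd_mem_side k hO
      have hs : ¬ R.Sh o b d := fun h => h.1 hO
      simp only [hO, hd, hs, false_and, if_true, if_false]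
      ring
    by_cases hd : d.snd ∈ R.side k o
    · have hB : ¬ R.phi.SameCycle b d := fun hB =>
        Set.disjoint_left.1 hF.disj hd (R.snd_mem_side k hB)
      have hs : R.Sh o b d := ⟨hO, hB⟩
      rcases h.good d hs with ht | hr
      · have hr := ht.not_rho
        by_cases c1 : cls p d = k
        · simp only [hO, hs, hd, ht, hr, c1, ne_eq, not_true, true_and, false_and, and_false,
            true_or, and_true, if_true, if_false]
          rw [ht.2.1]
          ring
        · simp only [hO, hs, hd, ht, hr, c1, ne_eq, not_false_eq_true, true_and, false_and,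
            and_false, true_or, and_true, if_true, if_false]
          rw [ht.2.1]
          ring
      · have ht : ¬ R.Tri d := fun h => h.not_rho hr
        by_cases c1 : cls p d = k
        · by_cases c2 : cls p (R.phi d) = k
          · rcases hr.obt_or_acu hm c1 c2 with ho | ha
            · exact absurd hd (hF.noObt d hs ho).1
            · simp only [hO, hs, hd, ht, ha, c1, c2, ne_eq, not_true, and_false, true_and,
                false_and, or_true, and_true, if_true, if_false]
              rw [ha.2.2.2]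
              ring
          · have ha : ¬ R.Acu k d := fun h => c2 h.2.2.1
            simp only [hO, hs, hd, ht, hr, ha, c1, c2, ne_eq, not_true, not_false_eq_true,
              and_false, true_and, false_and, or_false, and_true, if_true, if_false]
            ring
        · simp only [hO, hs, hd, ht, hr, c1, ne_eq, not_false_eq_true, and_true,
            true_and, false_and, and_false, if_true, if_false]
          ring
    · simp [hd, hO]
  simp only [key, Finset.sum_add_distrib, Finset.sum_sub_distrib, ← Finset.mul_sum] at s0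
  have c1 := Corner_card (G := G) (fun d => R.phi.SameCycle o d)
  have c2 := Corner_card (G := G)
    (fun d => R.Sh o b d ∧ cls p d = k ∧ (R.Tri d ∨ R.Acu k d) ∧ d.snd ∈ R.side k o)
  have c3 := Corner_card (G := G)
    (fun d => R.Sh o b d ∧ R.Tri d ∧ cls p d ≠ k ∧ d.snd ∈ R.side k o)
  have c4 := TAngle_turn R o
  rw [Rot.cS, Rot.tS, Rot.fl, c1, c2, c3, c4]
  linarith

theorem Rot.Two.turn_sum [Fintype V] {R : Rot G p} {o b : G.Dart} (h : R.Two o b)
    (ht : R.triA o b = 3 * (R.fl o + R.fl b)) : R.turn o + R.turn b = 0 := by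
  classical
  have s0 := Corner_sum_zero R h.hm h.hreg Set.univ
  have s1 := Corner_shift R (fun d => R.Sh o b d ∧ R.Rho d) (fun d => R.Sh o b d ∧ R.Rho d)
    (fun d => by
      rw [R.sh_phi]
      exact ⟨fun h => ⟨h.1, h.2.of_phi⟩, fun h => ⟨h.1, h.2.phi⟩⟩) (fun d h => h.2)
  have key : ∀ d : G.Dart, R.theta d - π / 2 =
      π / 2 * (if R.phi.SameCycle o d then (1 : ℝ) else 0) -
      (if R.phi.SameCycle o d then π - R.theta d else 0) +
      π / 2 * (if R.phi.SameCycle b d then (1 : ℝ) else 0) -
      (if R.phi.SameCycle b d then π - R.theta d else 0) -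
      π / 6 * (if R.Sh o b d ∧ R.Tri d then (1 : ℝ) else 0) +
      (if R.Sh o b d ∧ R.Rho d then R.theta d - π / 2 else 0) := by
    intro d
    by_cases hO : R.phi.SameCycle o d
    · have hB : ¬ R.phi.SameCycle b d := fun hB => h.ne (hO.trans hB.symm)
      have hs : ¬ R.Sh o b d := fun h => h.1 hO
      simp only [hO, hB, hs, false_and, if_true, if_false]
      ring
    by_cases hB : R.phi.SameCycle b d
    · have hs : ¬ R.Sh o b d := fun h => h.2 hB
      simp only [hO, hB, hs, false_and, if_true, if_false]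
      ring
    have hs : R.Sh o b d := ⟨hO, hB⟩
    rcases h.good d hs with h3 | h4
    · have h4 := h3.not_rho
      simp only [hO, hB, hs, h3, h4, true_and, if_true, if_false]
      rw [h3.2.1]
      ring
    · have h3 : ¬ R.Tri d := fun h => h.not_rho h4
      simp only [hO, hB, hs, h3, h4, true_and, if_true, if_false]
      ring
  simp only [Set.mem_univ, if_true] at s0
  rw [Finset.sum_congr rfl fun d _ => key d] at s0
  simp only [Finset.sum_add_distrib, Finset.sum_sub_distrib, ← Finset.mul_sum] at s0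
  have c1 := Corner_card (G := G) (fun d => R.phi.SameCycle o d)
  have c2 := Corner_card (G := G) (fun d => R.phi.SameCycle b d)
  have c3 := Corner_card (G := G) (fun d => R.Sh o b d ∧ R.Tri d)
  have c4 := TAngle_turn R o
  have c5 := TAngle_turn R b
  have c6 : (R.triA o b : ℝ) = 3 * ((R.fl o : ℝ) + R.fl b) := by exact_mod_cast ht
  rw [Rot.triA, Rot.fl, Rot.fl, c1, c2, c3] at c6
  rw [c6] at s0
  rw [c4, c5]
  linarith

end Pool.Agent.Mst
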