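import Pool.Agent.P.MP_e0c7cd_co.Two0

namespace Pool.Agent.Mst

open Complex Real

variable {V : Type} {G : SimpleGraph V} {p : V → ℂ}

theorem TComp_other [Fintype V] {R : Rot G p} {o b : G.Dart} (h : R.Two o b) (k : ℂ)
    (q : Quotient (compSetoid G p k)) (hq : q ∉ R.met k o ∪ R.met k b) :
    2 ≤ {d : G.Dart | comp G p k d.snd = q ∧ R.Obt k d}.ncard := by
  refine R.two_le_obt h.hm h.hreg k {v | comp G p k v = q} ?_ ?_ ?_
  · intro d hd
    have : comp G p k d.fst = comp G p k d.snd := comp_dart k d hd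
    simp only [Set.mem_ofPred_eq, this]
  · intro d hd
    exact h.good d ⟨fun h1 => hq (Or.inl ⟨d, h1, hd⟩), fun h1 => hq (Or.inr ⟨d, h1, hd⟩)⟩
  · by_contra hx
    have hstep : ∀ u v, G.Adj u v → comp G p k u = q → comp G p k v = q := by
      intro u v huv hu
      have h1 : cls p (⟨(v, u), huv.symm⟩ : G.Dart) ≠ k := fun h =>
        hx ⟨⟨(v, u), huv.symm⟩, hu, h⟩
      exact (comp_dart k _ h1).trans hu
    have hall : ∀ u v, G.Walk u v → comp G p k u = q → comp G p k v = q := by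
      intro u v w
      induction w with
      | nil => exact id
      | cons h _ ih => exact fun hu => ih (hstep _ _ h hu)
    obtain ⟨w⟩ := h.hc.preconnected q.out o.snd
    exact hq (Or.inl ⟨o, Equiv.Perm.SameCycle.refl _ _, hall _ _ w (Quotient.out_eq q)⟩)

theorem Rot.Two.const_le [Fintype V] {R : Rot G p} {o b : G.Dart} (h : R.Two o b) (k : ℂ) :
    2 * Module.finrank ℝ (constSub G {d | cls p d ≠ k}) ≤
      {d : G.Dart | (R.Sh o b d ∧ R.Obt k d) ∧ (d.snd ∉ R.side k o ∧ d.snd ∉ R.side k b)}.ncard +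
        2 * (R.met k o ∪ R.met k b).ncard := by
  classical
  have : Fintype (Quotient (compSetoid G p k)) := Fintype.ofFinite _
  obtain ⟨A, hA⟩ : ∃ A, A = R.met k o ∪ R.met k b := ⟨_, rfl⟩
  rw [← hA]
  have h1 := comp_finrank (G := G) (p := p) k
  have h3 : A.ncard + Aᶜ.ncard = Nat.card (Quotient (compSetoid G p k)) :=
    Set.ncard_add_ncard_compl A
  let S : Finset G.Dart :=
    Finset.univ.filter fun d => comp G p k d.snd ∈ Aᶜ ∧ R.Obt k d
  have h4 : S.card = ∑ q ∈ Aᶜ.toFinset, (S.filter fun d => comp G p k d.snd = q).card := by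
    refine Finset.card_eq_sum_card_fiberwise ?_
    intro d hd
    simp only [S, Finset.coe_filter, Finset.mem_univ, true_and, Set.mem_ofPred_eq] at hd
    simpa using hd.1
  have h5 : 2 * Aᶜ.ncard ≤ S.card := by
    rw [h4, Set.ncard_eq_toFinset_card', mul_comm, ← smul_eq_mul]
    refine Finset.card_nsmul_le_sum _ _ _ ?_
    intro q hq
    have hq' : q ∈ Aᶜ := Set.mem_toFinset.1 hq
    refine le_trans (TComp_other h k q (hA ▸ hq')) ?_
    rw [← Set.ncard_coe_finset]
    refine Set.ncard_le_ncard ?_ (Set.toFinite _)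
    rintro d ⟨hd1, hd2⟩
    simp only [S, Finset.coe_filter, Finset.mem_filter, Finset.mem_univ, true_and,
      Set.mem_ofPred_eq]
    exact ⟨⟨hd1 ▸ hq', hd2⟩, hd1⟩
  have h6 : S.card ≤ {d : G.Dart | (R.Sh o b d ∧ R.Obt k d) ∧
      (d.snd ∉ R.side k o ∧ d.snd ∉ R.side k b)}.ncard := by
    rw [← Set.ncard_coe_finset]
    refine Set.ncard_le_ncard ?_ (Set.toFinite _)
    intro d hd
    simp only [S, Finset.coe_filter, Finset.mem_univ, true_and, Set.mem_ofPred_eq] at hd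
    have h7 : d.snd ∉ R.side k o := fun a => hd.1 (hA ▸ Or.inl a)
    have h8 : d.snd ∉ R.side k b := fun a => hd.1 (hA ▸ Or.inr a)
    exact ⟨⟨⟨fun a => h7 (R.snd_mem_side k a), fun a => h8 (R.snd_mem_side k a)⟩, hd.2⟩, h7, h8⟩
  omega

theorem Rot.inj_of_le [Fintype V] (R : Rot G p) (k : ℂ) (x : G.Dart)
    (h : R.flk k x ≤ (R.met k x).ncard) : R.Inj k x := by
  classical
  intro d e hd he hdk hek hde
  have key : ∀ n : ℕ, ∃ a, (R.phi.SameCycle x a ∧ cls p a = k) ∧
      comp G p k a.snd = comp G p k ((R.phi ^ n) d).snd := by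
    intro n
    induction n with
    | zero => exact ⟨d, ⟨hd, hdk⟩, rfl⟩
    | succ n ih =>
      by_cases h1 : cls p ((R.phi ^ (n + 1)) d) = k
      · exact ⟨_, ⟨hd.trans ⟨((n + 1 : ℕ) : ℤ), by rw [zpow_natCast]⟩, h1⟩, rfl⟩
      · have h2 : comp G p k ((R.phi ^ (n + 1)) d).fst = comp G p k ((R.phi ^ (n + 1)) d).snd :=
          comp_dart k _ h1
        rw [← h2, pow_succ', Equiv.Perm.mul_apply, R.phi_fst]
        exact ih
  refine Set.inj_on_of_surj_on_of_ncard_le
    (s := {d | R.phi.SameCycle x d ∧ cls p d = k}) (t := R.met k x)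
    (fun a _ => comp G p k a.snd) (fun a ha => ⟨a, ha.1, rfl⟩) ?_ h ⟨hd, hdk⟩ ⟨he, hek⟩ hde
  rintro q ⟨a, ha, rfl⟩
  obtain ⟨n, -, rfl⟩ := (hd.symm.trans ha).exists_pow_eq'
  obtain ⟨a, h1, h2⟩ := key n
  exact ⟨a, h1, h2⟩

end Pool.Agent.Mst
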