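import Pool.Agent.P.MP_e0c7cd_co.Two0

namespace Pool.Agent.Mst

open Complex Real

variable {V : Type} {G : SimpleGraph V} {p : V → ℂ}

theorem TCut_arc {D : Type} [Finite D] (f : Equiv.Perm D) {d1 d2 : D} (h : f.SameCycle d1 d2)
    (hne : d1 ≠ d2) :
    ∃ P : D → Prop, (∀ d, P d → f.SameCycle d1 d) ∧ ¬ P d1 ∧ P d2 ∧
      ∀ d, P (f d) ↔ (P d ∧ d ≠ d2) ∨ d = d1 := by
  classical
  have hex : ∃ n : ℕ, (f ^ n) d1 = d2 := by
    obtain ⟨n, -, hn⟩ := h.exists_pow_eq'
    exact ⟨n, hn⟩
  have ha : (f ^ Nat.find hex) d1 = d2 := Nat.find_spec hex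
  have hmin : ∀ m, m < Nat.find hex → (f ^ m) d1 ≠ d2 := fun m hm => Nat.find_min hex hm
  generalize Nat.find hex = a at ha hmin
  have ha1 : 1 ≤ a := by
    rcases Nat.eq_zero_or_pos a with h0 | h0
    · subst h0
      exact absurd (by simpa using ha) hne
    · exact h0
  refine ⟨fun d => ∃ i, 1 ≤ i ∧ i ≤ a ∧ (f ^ i) d1 = d, ?_, ?_, ⟨a, ha1, le_rfl, ha⟩, ?_⟩
  · rintro d ⟨i, -, -, rfl⟩
    exact ⟨(i : ℤ), by rw [zpow_natCast]⟩
  · rintro ⟨i, hi1, hia, hi⟩
    refine hmin (a - i) (by omega) ?_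
    have e : a = (a - i) + i := by omega
    rw [e, pow_add, Equiv.Perm.mul_apply, hi] at ha
    exact ha
  · intro d
    constructor
    · rintro ⟨i, hi1, hia, hi⟩
      obtain ⟨j, rfl⟩ : ∃ j, i = j + 1 := ⟨i - 1, by omega⟩
      rw [pow_succ', Equiv.Perm.mul_apply] at hi
      have hj : (f ^ j) d1 = d := f.injective hi
      rcases Nat.eq_zero_or_pos j with h0 | h0
      · subst h0
        right
        simpa using hj.symm
      · left
        refine ⟨⟨j, h0, by omega, hj⟩, ?_⟩
        rw [← hj]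
        exact hmin j (by omega)
    · rintro (⟨⟨i, hi1, hia, hi⟩, hd⟩ | hd)
      · have hia' : i ≠ a := by
          rintro rfl
          exact hd (hi.symm.trans ha)
        exact ⟨i + 1, by omega, by omega, by rw [pow_succ', Equiv.Perm.mul_apply, hi]⟩
      · exact ⟨1, le_rfl, ha1, by rw [hd]; simp⟩

theorem TCut_last (R : Rot G p) (k : ℂ) (Q : G.Dart → Prop) (t : G.Dart)
    (hQ : ∀ e, Q e → e ≠ t → Q (R.phi e)) (n : ℕ) :
    ∀ e, Q e → (R.phi ^ n) e = t → comp G p k e.snd = comp G p k t.snd ∨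
      ∃ e', Q e' ∧ cls p e' = k ∧ comp G p k e'.snd = comp G p k t.snd := by
  induction n with
  | zero =>
    intro e _ he
    left
    have : e = t := by simpa using he
    rw [this]
  | succ n ih =>
    intro e hq he
    by_cases het : e = t
    · left; rw [het]
    · rw [pow_succ, Equiv.Perm.mul_apply] at he
      rcases ih _ (hQ e hq het) he with h | h
      · by_cases hk : cls p (R.phi e) = k
        · exact Or.inr ⟨_, hQ e hq het, hk, h⟩
        · left
          have h1 : comp G p k (R.phi e).fst = comp G p k (R.phi e).snd := comp_dart k _ hk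
          rw [R.phi_fst] at h1
          exact h1.trans h
      · exact Or.inr h

theorem TCut_last' [Fintype V] (R : Rot G p) (Q : G.Dart → Prop) (t : G.Dart)
    (hQ : ∀ e, Q e → e ≠ t → Q (R.phi e)) (e : G.Dart) (hq : Q e) (he : R.phi.SameCycle e t) :
    ∃ e', Q e' ∧ cls p e' = cls p e ∧ comp G p (cls p e) e'.snd = comp G p (cls p e) t.snd := by
  classical
  obtain ⟨n, -, hn⟩ := he.exists_pow_eq'
  rcases TCut_last R (cls p e) Q t hQ n e hq hn with h | h
  · exact ⟨e, hq, rfl, h⟩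
  · exact h

theorem TCut_outflow [Fintype V] (R : Rot G p) (c : G.Dart → ℝ) {d1 d2 : G.Dart}
    (h12 : d1.snd = d2.snd) (hc1 : c (R.phi d1) = c d1 + 1) (hc2 : c (R.phi d2) = c d2 - 1)
    (hne : d1 ≠ d2) (hc : ∀ d, d ≠ d1 → d ≠ d2 → c (R.phi d) = c d) (v : V) :
    outflow (fun d => c d - c d.symm) v = 0 := by
  classical
  have hc' : ∀ d, c (R.phi d) = c d + ((if d = d1 then 1 else 0) - (if d = d2 then 1 else 0)) := by
    intro d
    by_cases h1 : d = d1
    · subst h1
      rw [if_pos rfl, if_neg hne, hc1]; ring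
    · by_cases h2 : d = d2
      · subst h2
        rw [if_neg h1, if_pos rfl, hc2]; ring
      · rw [if_neg h1, if_neg h2, hc d h1 h2]; ring
  unfold outflow
  rw [Finset.sum_sub_distrib, sub_eq_zero]
  have e1 : ∑ d : G.Dart with d.fst = v, c d = ∑ d : G.Dart with d.snd = v, c (R.phi d) :=
    (Finset.sum_equiv R.phi (fun d => by simp [R.phi_fst]) fun d _ => rfl).symm
  have e2 : ∑ d : G.Dart with d.fst = v, c d.symm = ∑ d : G.Dart with d.snd = v, c d :=
    Finset.sum_equiv (symmPerm G) (fun d => by simp [symmPerm]) fun d _ => rfl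
  have e3 : ∑ d : G.Dart with d.snd = v, c (R.phi d) = ∑ d : G.Dart with d.snd = v, c d := by
    simp only [hc', Finset.sum_add_distrib, Finset.sum_sub_distrib, Finset.sum_ite_eq',
      Finset.mem_filter, Finset.mem_univ, true_and, h12, sub_self, add_zero]
  convert e1.trans (e3.trans e2.symm)

theorem Rot.cut [Fintype V] (R : Rot G p) (hm : IsMatchstick G p) (x : G.Dart)
    (hF : ∀ e, R.phi.SameCycle x e → R.KL (cls p e) ∧ R.Inj (cls p e) x) (hs : ¬ R.Simple x) :
    ∃ w : G.Dart → ℝ, (∀ d, w (R.phi d) = w d) ∧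
      (∀ e, R.phi.SameCycle x e → (∀ d : G.Dart, cls p d = cls p e → w d = 0) ∨
        (∀ d : G.Dart, cls p d = cls p e → ¬ R.phi.SameCycle x d → w d = -1)) ∧
      (∃ e, R.phi.SameCycle x e ∧ ∀ d : G.Dart, cls p d = cls p e → w d = 0) ∧
      (∃ e, R.phi.SameCycle x e ∧
        ∀ d : G.Dart, cls p d = cls p e → ¬ R.phi.SameCycle x d → w d = -1) := by
  classical
  unfold Rot.Simple at hs
  push Not at hs
  obtain ⟨d1, d2, hx1, hx2, h12, hne⟩ := hs
  obtain ⟨P, hPs, hP1, hP2, hP⟩ := TCut_arc R.phi (hx1.symm.trans hx2) hne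
  have hPx : ∀ d, P d → R.phi.SameCycle x d := fun d hd => hx1.trans (hPs d hd)
  let c : G.Dart → ℝ := fun d => if P d then 1 else 0
  have hz : (fun d : G.Dart => c d - c d.symm) ∈ cycSub G Set.univ := by
    refine ⟨fun d => by simp, fun d hd => absurd (Set.mem_univ d) hd, fun v => ?_⟩
    refine TCut_outflow R c h12 ?_ ?_ hne ?_ v
    · have : P (R.phi d1) := (hP d1).2 (Or.inr rfl)
      simp [c, this, hP1]
    · have : ¬ P (R.phi d2) := by
        rw [hP]
        rintro (⟨-, h⟩ | h)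
        · exact h rfl
        · exact hne h.symm
      simp [c, this, hP2]
    · intro d h1 h2
      have : P (R.phi d) ↔ P d := by
        rw [hP]
        simp [h1, h2]
      simp only [c, this]
  obtain ⟨w1, hw1, hw2⟩ := R.winding hm hz
  have h3 : ∀ n : ℕ, w1 ((R.phi ^ n) x) = w1 x := fun n => by
    induction n with
    | zero => rfl
    | succ n ih => rw [pow_succ', Equiv.Perm.mul_apply, hw1, ih]
  let w : G.Dart → ℝ := fun d => w1 d - w1 x
  have hw : ∀ d, w (R.phi d) = w d := fun d => by simp only [w, hw1]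
  have hw0 : ∀ d, R.phi.SameCycle x d → w d = 0 := by
    intro d hd
    obtain ⟨n, -, rfl⟩ := hd.exists_pow_eq'
    exact sub_eq_zero.2 (h3 n)
  have hwz : ∀ d : G.Dart, c d - c d.symm = w d - w d.symm := fun d => by
    have := hw2 d
    simp only [w]
    linarith
  have hA : ∀ e, R.phi.SameCycle x e → ¬ P e → ∀ d : G.Dart, cls p d = cls p e → ¬ P d := by
    intro e he hPe d hd hPd
    obtain ⟨e1, ⟨hq1, hq1'⟩, hk1, hc1⟩ :=
      TCut_last' R (fun a => R.phi.SameCycle x a ∧ ¬ P a) d1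
        (fun a ha hat => ⟨(R.same_phi x a).2 ha.1, fun h => by
          rcases (hP a).1 h with h | h
          · exact ha.2 h.1
          · exact hat h⟩) e ⟨he, hPe⟩ (he.symm.trans hx1)
    obtain ⟨e2, hq2, hk2, hc2⟩ :=
      TCut_last' R P d2 (fun a ha hat => (hP a).2 (Or.inl ⟨ha, hat⟩)) d hPd
        ((hPx d hPd).symm.trans hx2)
    rw [hd] at hk2 hc2
    have : e1 = e2 := (hF e he).2 e1 e2 hq1 (hPx e2 hq2) hk1 hk2 (by rw [hc1, hc2, h12])
    exact hq1' (this ▸ hq2)
  have hA' : ∀ e, R.phi.SameCycle x e → ¬ P e → ∀ d : G.Dart, cls p d = cls p e → w d = 0 := by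
    intro e he hPe d hd
    rw [← hw0 e he]
    refine (hF e he).1 w hw (fun a ha => ?_) d e hd rfl
    have h1 := hA e he hPe a ha
    have h2 := hA e he hPe a.symm ((cls_symm a).trans ha)
    have h4 := hwz a
    simp only [c, if_neg h1, if_neg h2] at h4
    linarith
  have hB' : ∀ e, P e → ∀ d : G.Dart, cls p d = cls p e → ¬ R.phi.SameCycle x d → w d = -1 := by
    intro e hPe d hd hxd
    have he := hPx e hPe
    have hiff : ∀ a : G.Dart, cls p a = cls p e → (R.phi.SameCycle x a ↔ P a) := by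
      intro a ha
      refine ⟨fun h => ?_, hPx a⟩
      by_contra hPa
      exact hA a h hPa e ha.symm hPe
    let u : G.Dart → ℝ := fun a => (if R.phi.SameCycle x a then 1 else 0) - w a
    have h5 : u d = u e := by
      refine (hF e he).1 u (fun a => ?_) (fun a ha => ?_) d e hd rfl
      · simp only [u, R.same_phi, hw]
      · have h4 := hwz a
        simp only [u, hiff a ha, hiff a.symm ((cls_symm a).trans ha)]
        simp only [c] at h4
        linarith
    simp only [u, if_neg hxd, if_pos he, hw0 e he] at h5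
    linarith
  refine ⟨w, hw, fun e he => ?_, ⟨d1, hx1, hA' d1 hx1 hP1⟩, ⟨d2, hx2, hB' d2 hP2⟩⟩
  by_cases hPe : P e
  · exact Or.inr (hB' e hPe)
  · exact Or.inl (hA' e he hPe)

end Pool.Agent.Mst
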