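import Pool.Agent.P.MP_e0c7cd_co.Two0

namespace Pool.Agent.Mst

open Complex Real

variable {V : Type} {G : SimpleGraph V} {p : V → ℂ}

/-- The primitive sixth root of unity in the upper half plane. -/
noncomputable def TEis_z : ℂ := ⟨1 / 2, Real.sqrt 3 / 2⟩

theorem TEis_sq : TEis_z ^ 2 = TEis_z - 1 := by
  have h3 : Real.sqrt 3 * Real.sqrt 3 = 3 := Real.mul_self_sqrt (by norm_num)
  apply Complex.ext
  · simp only [TEis_z, pow_two, Complex.mul_re, Complex.sub_re, Complex.one_re]
    nlinarith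
  · simp only [TEis_z, pow_two, Complex.mul_im, Complex.sub_im, Complex.one_im]
    ring

theorem TEis_six : TEis_z ^ 6 = 1 := by
  have h := TEis_sq
  linear_combination (TEis_z ^ 4 + TEis_z ^ 3 - TEis_z - 1) * h

theorem TEis_six2 : (TEis_z - 1) ^ 6 = 1 := by
  rw [← TEis_sq, ← pow_mul, mul_comm, pow_mul, TEis_six, one_pow]

theorem TEis_root {x : ℂ} (hx : x ^ 6 = 1) : ∃ a b : ℤ, x = a + b * TEis_z := by
  have h := TEis_sq
  have h1 : (x - 1) * (x + 1) * ((x - TEis_z) * (x + (TEis_z - 1))) *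
      ((x + TEis_z) * (x - (TEis_z - 1))) = 0 := by
    have e1 : (x - TEis_z) * (x + (TEis_z - 1)) = x ^ 2 - x + 1 := by
      linear_combination (-1 : ℂ) * h
    have e2 : (x + TEis_z) * (x - (TEis_z - 1)) = x ^ 2 + x + 1 := by
      linear_combination (-1 : ℂ) * h
    rw [e1, e2]
    linear_combination hx
  simp only [mul_eq_zero] at h1
  rcases h1 with ((h1 | h1) | (h1 | h1)) | (h1 | h1)
  · exact ⟨1, 0, by push_cast; linear_combination h1⟩
  · exact ⟨-1, 0, by push_cast; linear_combination h1⟩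
  · exact ⟨0, 1, by push_cast; linear_combination h1⟩
  · exact ⟨1, -1, by push_cast; linear_combination h1⟩
  · exact ⟨0, -1, by push_cast; linear_combination h1⟩
  · exact ⟨-1, 1, by push_cast; linear_combination h1⟩

theorem TEis_norm (a b : ℤ) (h : ‖(a : ℂ) + b * TEis_z‖ = 1) : a ^ 2 + a * b + b ^ 2 = 1 := by
  have h3 : Real.sqrt 3 * Real.sqrt 3 = 3 := Real.mul_self_sqrt (by norm_num)
  have h1 : Complex.normSq ((a : ℂ) + b * TEis_z) = 1 := by
    rw [Complex.normSq_eq_norm_sq, h]; norm_num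
  rw [Complex.normSq_apply] at h1
  simp only [TEis_z, Complex.add_re, Complex.add_im, Complex.mul_re, Complex.mul_im,
    Complex.intCast_re, Complex.intCast_im] at h1
  have h2 : (a : ℝ) ^ 2 + a * b + (b : ℝ) ^ 2 = 1 := by nlinarith
  exact_mod_cast h2

theorem TEis_unit (a b : ℤ) (h : a ^ 2 + a * b + b ^ 2 = 1) : ((a : ℂ) + b * TEis_z) ^ 6 = 1 := by
  have ha1 : a ≤ 1 := by nlinarith [sq_nonneg (a + 2 * b), sq_nonneg (a - 2)]
  have ha2 : -1 ≤ a := by nlinarith [sq_nonneg (a + 2 * b), sq_nonneg (a + 2)]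
  have hb1 : b ≤ 1 := by nlinarith [sq_nonneg (2 * a + b), sq_nonneg (b - 2)]
  have hb2 : -1 ≤ b := by nlinarith [sq_nonneg (2 * a + b), sq_nonneg (b + 2)]
  have h6 := TEis_six
  have h7 := TEis_six2
  interval_cases a <;> interval_cases b <;> first
    | (exfalso; revert h; decide)
    | (push_cast; first
        | linear_combination h6
        | linear_combination h7
        | ring)

theorem eis_sum {ι : Type} (s : Finset ι) (u : ι → ℂ) (k : ℂ) (h1 : ∀ i ∈ s, ‖u i‖ = 1)
    (h2 : ∀ i ∈ s, u i ^ 6 = k) (h3 : ‖∑ i ∈ s, u i‖ = 1) : (∑ i ∈ s, u i) ^ 6 = k := by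
  classical
  rcases s.eq_empty_or_nonempty with rfl | ⟨i0, hi0⟩
  · simp at h3
  have he1 := h1 i0 hi0
  have he0 : u i0 ≠ 0 := by
    intro h; rw [h] at he1; simp at he1
  have hex : ∀ t : Finset ι, t ⊆ s → ∃ a b : ℤ, ∑ i ∈ t, u i = u i0 * (a + b * TEis_z) := by
    intro t
    induction t using Finset.induction_on with
    | empty => intro _; exact ⟨0, 0, by simp⟩
    | insert j t hj ih =>
      intro hs
      obtain ⟨a, b, hab⟩ := ih fun x hx => hs (Finset.mem_insert_of_mem hx)
      have hjs : j ∈ s := hs (Finset.mem_insert_self j t)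
      have hr : (u j / u i0) ^ 6 = 1 := by
        rw [div_pow, h2 j hjs, ← h2 i0 hi0]
        exact div_self (pow_ne_zero 6 he0)
      obtain ⟨c, d, hcd⟩ := TEis_root hr
      refine ⟨a + c, b + d, ?_⟩
      rw [Finset.sum_insert hj, hab]
      have : u j = u i0 * (c + d * TEis_z) := by
        rw [← hcd]; field_simp
      rw [this]; push_cast; ring
  obtain ⟨a, b, hab⟩ := hex s subset_rfl
  rw [hab, norm_mul, he1, one_mul] at h3
  rw [hab, mul_pow, TEis_unit a b (TEis_norm a b h3), mul_one, h2 i0 hi0]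

open Classical in
theorem Rot.face_sum [Fintype V] (R : Rot G p) (b : G.Dart) :
    ∑ d : G.Dart with R.phi.SameCycle b d, vec p d = 0 := by
  have h1 : ∑ d : G.Dart with R.phi.SameCycle b d, p (R.phi d).fst =
      ∑ d : G.Dart with R.phi.SameCycle b d, p d.fst := by
    refine Finset.sum_equiv R.phi (fun d => ?_) (fun d _ => rfl)
    simp only [Finset.mem_filter, Finset.mem_univ, true_and]
    exact Equiv.Perm.sameCycle_apply_right.symm
  have h2 : ∀ d : G.Dart, vec p d = p (R.phi d).fst - p d.fst := by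
    intro d; rw [R.phi_fst]; rfl
  simp only [h2]
  rw [Finset.sum_sub_distrib, h1, sub_self]

end Pool.Agent.Mst
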