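import Pool.Agent.P.MP_e0c7cd_co.TOrb
import Pool.Agent.P.MP_e0c7cd_co.TComp

namespace Pool.Agent.Mst

open Complex Real

theorem nc_fiber_eq {D : Type} [Finite D] (c : D → ℂ) (P Q : D → Prop)
    (h : ∀ k, {d | P d ∧ c d = k}.ncard ≤ 3 * {d | Q d ∧ c d = k}.ncard)
    (h' : 3 * {d | Q d}.ncard ≤ {d | P d}.ncard) (k : ℂ) :
    {d | P d ∧ c d = k}.ncard = 3 * {d | Q d ∧ c d = k}.ncard := by
  have h1 := nc_fiber c (fun d => P d ∧ ¬ c d = k) (fun d => Q d ∧ ¬ c d = k) (fun l => by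
    by_cases hl : l = k
    · have : {d | (P d ∧ ¬ c d = k) ∧ c d = l} = ∅ := by
        ext d
        simp only [Set.mem_ofPred_eq, Set.mem_empty_iff_false, iff_false, hl]
        tauto
      rw [this]
      simp
    · have e1 : {d | (P d ∧ ¬ c d = k) ∧ c d = l}.ncard = {d | P d ∧ c d = l}.ncard :=
        nc_congr fun d => ⟨fun x => ⟨x.1.1, x.2⟩, fun x => ⟨⟨x.1, by rw [x.2]; exact hl⟩, x.2⟩⟩
      have e2 : {d | (Q d ∧ ¬ c d = k) ∧ c d = l}.ncard = {d | Q d ∧ c d = l}.ncard :=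
        nc_congr fun d => ⟨fun x => ⟨x.1.1, x.2⟩, fun x => ⟨⟨x.1, by rw [x.2]; exact hl⟩, x.2⟩⟩
      rw [e1, e2]
      exact h l)
  have h2 := nc_split P (fun d => c d = k)
  have h3 := nc_split Q (fun d => c d = k)
  have h4 := h k
  omega

variable {V : Type} {G : SimpleGraph V} {p : V → ℂ}

theorem Rot.Two.not_both {R : Rot G p} {o b : G.Dart} (h : R.Two o b) {d : G.Dart}
    (h1 : R.phi.SameCycle o d) (h2 : R.phi.SameCycle b d) : False := h.ne (h1.trans h2.symm)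

theorem Rot.Two.split3 [Fintype V] {R : Rot G p} {o b : G.Dart} (h : R.Two o b)
    (P : G.Dart → Prop) :
    {d | P d}.ncard = {d | R.phi.SameCycle o d ∧ P d}.ncard + {d | R.phi.SameCycle b d ∧ P d}.ncard +
      {d | (R.Sh o b d ∧ R.Tri d) ∧ P d}.ncard + {d | (R.Sh o b d ∧ R.Rho d) ∧ P d}.ncard := by
  classical
  have h1 := nc_split P (fun d => R.phi.SameCycle o d)
  have h2 := nc_split (fun d => P d ∧ ¬ R.phi.SameCycle o d) (fun d => R.phi.SameCycle b d)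
  have h3 := nc_split (fun d => (P d ∧ ¬ R.phi.SameCycle o d) ∧ ¬ R.phi.SameCycle b d)
    (fun d => R.Tri d)
  have e1 : {d | P d ∧ R.phi.SameCycle o d}.ncard = {d | R.phi.SameCycle o d ∧ P d}.ncard :=
    nc_congr fun d => and_comm
  have e2 : {d | (P d ∧ ¬ R.phi.SameCycle o d) ∧ R.phi.SameCycle b d}.ncard =
      {d | R.phi.SameCycle b d ∧ P d}.ncard :=
    nc_congr fun d => ⟨fun x => ⟨x.2, x.1.1⟩, fun x => ⟨⟨x.2, fun y => h.not_both y x.1⟩, x.1⟩⟩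
  have e3 : {d | ((P d ∧ ¬ R.phi.SameCycle o d) ∧ ¬ R.phi.SameCycle b d) ∧ R.Tri d}.ncard =
      {d | (R.Sh o b d ∧ R.Tri d) ∧ P d}.ncard :=
    nc_congr fun d => ⟨fun x => ⟨⟨⟨x.1.1.2, x.1.2⟩, x.2⟩, x.1.1.1⟩,
      fun x => ⟨⟨⟨x.2, x.1.1.1⟩, x.1.1.2⟩, x.1.2⟩⟩
  have e4 : {d | ((P d ∧ ¬ R.phi.SameCycle o d) ∧ ¬ R.phi.SameCycle b d) ∧ ¬ R.Tri d}.ncard =
      {d | (R.Sh o b d ∧ R.Rho d) ∧ P d}.ncard :=
    nc_congr fun d => ⟨fun x => ⟨⟨⟨x.1.1.2, x.1.2⟩,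
      (h.good d ⟨x.1.1.2, x.1.2⟩).resolve_left x.2⟩, x.1.1.1⟩,
      fun x => ⟨⟨⟨x.2, x.1.1.1⟩, x.1.1.2⟩, fun y => y.not_rho x.1.2⟩⟩
  omega

theorem Rot.Two.total [Fintype V] {R : Rot G p} {o b : G.Dart} (h : R.Two o b) :
    4 * Fintype.card V = R.fl o + R.fl b + R.triA o b + {d | R.Sh o b d ∧ R.Rho d}.ncard := by
  have h1 := h.split3 (fun _ => True)
  have h2 := h.hreg.ncard_univ
  simp only [and_true, Set.ofPred_true] at h1
  simp only [Rot.fl, Rot.triA]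
  omega

theorem Rot.Two.euler [Fintype V] {R : Rot G p} {o b : G.Dart} (h : R.Two o b) :
    3 * (R.fl o + R.fl b) ≤ R.triA o b := by
  classical
  have : Nonempty V := ⟨o.fst⟩
  have h1 := finrank_invSub R.phi {d | R.Sh o b d ∧ R.Tri d} {d | R.Sh o b d ∧ R.Rho d}
    (fun d hd => ⟨⟨by rw [R.sh_phi]; exact hd.1, hd.2.phi⟩, hd.2.1, R.phi_ne d⟩)
    (fun d hd => ⟨⟨by rw [R.sh_phi]; exact hd.1, hd.2.phi⟩, hd.2.1, hd.2.phi_phi_ne h.hm⟩)
    (by rw [Set.disjoint_left]; intro d h1 h2; exact h1.2.not_rho h2.2)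
  have h2 : {d | R.Sh o b d ∧ R.Tri d} ∪ {d | R.Sh o b d ∧ R.Rho d} = {d | R.Sh o b d} := by
    ext d
    simp only [Set.mem_ofPred_eq, Set.mem_union]
    have := h.good d
    tauto
  rw [h2] at h1
  have h3 := finrank_invSub_orbit R.phi {d | R.Sh o b d} (fun d => R.sh_phi o b d) b
    (fun x => x.2 (Equiv.Perm.SameCycle.refl _ _))
  have h4 : {d | R.Sh o b d} ∪ {d | R.phi.SameCycle b d} = {d | ¬ R.phi.SameCycle o d} := by
    ext d
    simp only [Set.mem_ofPred_eq, Set.mem_union, Rot.Sh]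
    have := @Rot.Two.not_both _ _ _ _ _ _ h d
    tauto
  rw [h4] at h3
  have h5 := R.cyc_le_inv h.hm o
  have h6 := finrank_cyc (G := G) Set.univ (fun _ _ => trivial)
  have h7 := one_le_const (G := G) Set.univ
  have h8 := h.hreg.ncard_univ
  have h9 := h.total
  simp only [Rot.triA] at h9 ⊢
  omega

theorem Rot.add_orbit [Fintype V] (R : Rot G p) (k : ℂ) (x : G.Dart) (N : Set G.Dart)
    (h1 : ∀ d, R.phi d ∈ N ↔ d ∈ N) (h2 : ∀ d ∈ N, cls p d ≠ k) (hx : x ∉ N) :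
    ∃ N' : Set G.Dart, (∀ d, R.phi d ∈ N' ↔ d ∈ N') ∧ (∀ d ∈ N', cls p d ≠ k) ∧
      (∀ d ∈ N', d ∈ N ∨ R.phi.SameCycle x d) ∧
      Module.finrank ℝ (invSub R.phi N') + R.flk k x =
        Module.finrank ℝ (invSub R.phi N) + max (R.flk k x) 1 := by
  classical
  by_cases h0 : R.flk k x = 0
  · refine ⟨N ∪ {d | R.phi.SameCycle x d}, fun d => ?_, ?_, fun d hd => hd, ?_⟩
    · simp only [Set.mem_union, h1, Set.mem_ofPred_eq, R.same_phi]
    · rintro d (hd | hd)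
      · exact h2 d hd
      · intro hk
        have h3 : {d | R.phi.SameCycle x d ∧ cls p d = k} = ∅ :=
          (Set.ncard_eq_zero (Set.toFinite _)).1 h0
        have h4 : d ∈ {d | R.phi.SameCycle x d ∧ cls p d = k} := ⟨hd, hk⟩
        rw [h3] at h4
        exact h4
    · rw [finrank_invSub_orbit R.phi N h1 x hx, h0]
      simp
  · exact ⟨N, h1, h2, fun d hd => Or.inl hd, by omega⟩

theorem Rot.Two.core [Fintype V] {R : Rot G p} {o b : G.Dart} (h : R.Two o b) (k : ℂ) :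
    ∃ N : Set G.Dart, (∀ d ∈ N, cls p d ≠ k) ∧
      R.triA o b + 2 * R.triK o b k + 12 * Module.finrank ℝ (cycSub G {d | cls p d ≠ k}) +
          12 * (max (R.flk k o) 1 + max (R.flk k b) 1) + 6 * {d | R.Sh o b d ∧ R.Obt k d}.ncard ≤
        3 * (R.fl o + R.fl b) + 6 * (R.flk k o + R.flk k b) +
          12 * Module.finrank ℝ (invSub R.phi N) + 12 * (R.met k o ∪ R.met k b).ncard +
          6 * {d : G.Dart | (R.Sh o b d ∧ R.Obt k d) ∧
            (d.snd ∉ R.side k o ∧ d.snd ∉ R.side k b)}.ncard := by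
  classical
  have hm := h.hm
  have h1 := finrank_invSub R.phi {d | (R.Sh o b d ∧ R.Tri d) ∧ ¬ cls p d = k}
    {d | ((R.Sh o b d ∧ R.Rho d) ∧ ¬ cls p d = k) ∧ ¬ cls p (R.phi d) = k}
    (fun d hd => ⟨⟨⟨by rw [R.sh_phi]; exact hd.1.1, hd.1.2.phi⟩,
      by rw [hd.1.2.cls_phi hm]; exact hd.2⟩, hd.1.2.1, R.phi_ne d⟩)
    (fun d hd => ⟨⟨⟨⟨by rw [R.sh_phi]; exact hd.1.1.1, hd.1.1.2.phi⟩, hd.2⟩,
      by rw [hd.1.1.2.cls_phi_phi]; exact hd.1.2⟩, hd.1.1.2.1, hd.1.1.2.phi_phi_ne hm⟩)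
    (by rw [Set.disjoint_left]; intro d h1 h2; exact h1.1.2.not_rho h2.1.1.2)
  obtain ⟨N1, n1, n2, n3, n4⟩ := R.add_orbit k o
    ({d | (R.Sh o b d ∧ R.Tri d) ∧ ¬ cls p d = k} ∪
      {d | ((R.Sh o b d ∧ R.Rho d) ∧ ¬ cls p d = k) ∧ ¬ cls p (R.phi d) = k})
    (fun d => by
      simp only [Set.mem_union, Set.mem_ofPred_eq, R.sh_phi]
      constructor
      · rintro (⟨⟨a1, a2⟩, a3⟩ | ⟨⟨⟨a1, a2⟩, a3⟩, a4⟩)
        · exact Or.inl ⟨⟨a1, a2.of_phi⟩, by rw [← a2.of_phi.cls_phi hm]; exact a3⟩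
        · exact Or.inr ⟨⟨⟨a1, a2.of_phi⟩, by rw [← a2.of_phi.cls_phi_phi]; exact a4⟩, a3⟩
      · rintro (⟨⟨a1, a2⟩, a3⟩ | ⟨⟨⟨a1, a2⟩, a3⟩, a4⟩)
        · exact Or.inl ⟨⟨a1, a2.phi⟩, by rw [a2.cls_phi hm]; exact a3⟩
        · exact Or.inr ⟨⟨⟨a1, a2.phi⟩, a4⟩, by rw [a2.cls_phi_phi]; exact a3⟩)
    (by rintro d (hd | hd); exacts [hd.2, hd.1.2])
    (by rintro (hd | hd); exacts [hd.1.1.1 (Equiv.Perm.SameCycle.refl _ _),
      hd.1.1.1.1 (Equiv.Perm.SameCycle.refl _ _)])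
  obtain ⟨N2, -, m2, -, m4⟩ := R.add_orbit k b N1 n1 n2 (fun hb => by
    rcases n3 b hb with (hd | hd) | hd
    exacts [hd.1.1.2 (Equiv.Perm.SameCycle.refl _ _), hd.1.1.1.2 (Equiv.Perm.SameCycle.refl _ _),
      h.ne hd])
  refine ⟨N2, m2, ?_⟩
  have h3 := finrank_cyc (G := G) {d | cls p d ≠ k} (fun d hd => by simpa [cls_symm] using hd)
  have h4 := h.const_le k
  have h6 := h.total
  have a1 := nc_split (fun d => R.phi.SameCycle o d) (fun d => cls p d = k)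
  have a1' := nc_split (fun d => R.phi.SameCycle b d) (fun d => cls p d = k)
  have a2 := nc_split (fun d => R.Sh o b d ∧ R.Tri d) (fun d => cls p d = k)
  have a3 := nc_split (fun d => R.Sh o b d ∧ R.Rho d) (fun d => cls p d = k)
  have a4 := nc_split (fun d => (R.Sh o b d ∧ R.Rho d) ∧ cls p d = k)
    (fun d => cls p (R.phi d) = k)
  have a5 := nc_split (fun d => (R.Sh o b d ∧ R.Rho d) ∧ ¬ cls p d = k)
    (fun d => cls p (R.phi d) = k)
  have a6 : {d | ((R.Sh o b d ∧ R.Rho d) ∧ cls p d = k) ∧ ¬ cls p (R.phi d) = k}.ncard =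
      {d | ((R.Sh o b d ∧ R.Rho d) ∧ ¬ cls p d = k) ∧ cls p (R.phi d) = k}.ncard := by
    refine nc_perm R.phi fun d => ?_
    rw [R.sh_phi]
    constructor
    · rintro ⟨⟨⟨b1, b2⟩, b3⟩, b4⟩
      exact ⟨⟨⟨b1, b2.phi⟩, b4⟩, by rw [b2.cls_phi_phi]; exact b3⟩
    · rintro ⟨⟨⟨b1, b2⟩, b3⟩, b4⟩
      exact ⟨⟨⟨b1, b2.of_phi⟩, by rw [← b2.of_phi.cls_phi_phi]; exact b4⟩, b3⟩
  have a7 := nc_split
    (fun d => ((R.Sh o b d ∧ R.Rho d) ∧ cls p d = k) ∧ cls p (R.phi d) = k)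
    (fun d => R.Obt k d)
  have a8 : {d | (((R.Sh o b d ∧ R.Rho d) ∧ cls p d = k) ∧ cls p (R.phi d) = k) ∧
      R.Obt k d}.ncard = {d | R.Sh o b d ∧ R.Obt k d}.ncard :=
    nc_congr fun d => ⟨fun h => ⟨h.1.1.1.1, h.2⟩,
      fun h => ⟨⟨⟨⟨h.1, h.2.1⟩, h.2.2.1⟩, h.2.2.2.1⟩, h.2⟩⟩
  have a9 : {d | (((R.Sh o b d ∧ R.Rho d) ∧ cls p d = k) ∧ cls p (R.phi d) = k) ∧
      ¬ R.Obt k d}.ncard = {d | R.Sh o b d ∧ R.Obt k d}.ncard := by
    refine nc_perm R.phi fun d => ?_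
    rw [R.sh_phi]
    constructor
    · rintro ⟨⟨⟨⟨b1, b2⟩, b3⟩, b4⟩, b5⟩
      have b6 := ((b2.obt_or_acu hm b3 b4).resolve_left b5).2.2.2
      refine ⟨b1, b2.phi, b4, by rw [b2.cls_phi_phi]; exact b3, ?_⟩
      linarith [b2.2.2.2.1]
    · rintro ⟨b1, b2, b3, b4, b5⟩
      refine ⟨⟨⟨⟨b1, b2.of_phi⟩, by rw [← b2.of_phi.cls_phi_phi]; exact b4⟩, b3⟩, fun b6 => ?_⟩
      linarith [b2.of_phi.2.2.2.1, b6.2.2.2, Real.pi_pos]
  have c1 := h.split3 (fun d => ¬ cls p d = k)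
  simp only [Rot.fl, Rot.flk, Rot.triA, Rot.triK, ne_eq] at *
  omega

theorem Rot.Two.core_le [Fintype V] {R : Rot G p} {o b : G.Dart} (h : R.Two o b) (e : G.Dart)
    {N : Set G.Dart} (hN : ∀ d ∈ N, cls p d ≠ cls p e) :
    Module.finrank ℝ (invSub R.phi N) ≤ Module.finrank ℝ (cycSub G {d | cls p d ≠ cls p e}) :=
  R.inv_le_cyc h.hm h.hc e N _ hN (fun d hd => by simpa [cls_symm] using hd)
    (fun he => hN e he rfl)

theorem Rot.Two.triK_le [Fintype V] {R : Rot G p} {o b : G.Dart} (h : R.Two o b) (k : ℂ) :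
    R.triK o b k ≤ 3 * (R.flk k o + R.flk k b) := by
  classical
  by_cases hk : ∃ e : G.Dart, cls p e = k
  · obtain ⟨e, rfl⟩ := hk
    obtain ⟨N, hN, h1⟩ := h.core (cls p e)
    have h2 := h.core_le e hN
    have h3 := h.euler
    have h4 := Set.ncard_union_le (R.met (cls p e) o) (R.met (cls p e) b)
    have h5 := R.met_le (cls p e) o
    have h6 := R.met_le (cls p e) b
    have h7 := nc_split (fun d => R.Sh o b d ∧ R.Obt (cls p e) d)
      (fun d => d.snd ∉ R.side (cls p e) o ∧ d.snd ∉ R.side (cls p e) b)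
    omega
  · have : {d | (R.Sh o b d ∧ R.Tri d) ∧ cls p d = k} = ∅ := by
      ext d
      simp only [Set.mem_ofPred_eq, Set.mem_empty_iff_false, iff_false]
      exact fun hd => hk ⟨d, hd.2⟩
    simp only [Rot.triK, this, Set.ncard_empty]
    exact Nat.zero_le _

theorem Rot.Two.or_card [Fintype V] {R : Rot G p} {o b : G.Dart} (h : R.Two o b)
    (P : G.Dart → Prop) :
    {d | (R.phi.SameCycle o d ∨ R.phi.SameCycle b d) ∧ P d}.ncard =
      {d | R.phi.SameCycle o d ∧ P d}.ncard + {d | R.phi.SameCycle b d ∧ P d}.ncard := by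
  classical
  rw [← Set.ncard_union_eq]
  · congr 1
    ext d
    simp only [Set.mem_ofPred_eq, Set.mem_union]
    tauto
  · rw [Set.disjoint_left]
    intro d h1 h2
    exact h.not_both h1.1 h2.1

theorem Rot.Two.tri_eq [Fintype V] {R : Rot G p} {o b : G.Dart} (h : R.Two o b) :
    R.triA o b = 3 * (R.fl o + R.fl b) ∧
      ∀ k, R.triK o b k = 3 * (R.flk k o + R.flk k b) := by
  classical
  have h0 := h.or_card (fun _ => True)
  simp only [and_true] at h0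
  have h1 : ∀ k, {d | (R.Sh o b d ∧ R.Tri d) ∧ cls p d = k}.ncard ≤
      3 * {d | (R.phi.SameCycle o d ∨ R.phi.SameCycle b d) ∧ cls p d = k}.ncard := fun k => by
    rw [h.or_card]
    exact h.triK_le k
  have h2 := h.euler
  have h3 := nc_fiber (cls p) _ _ h1
  refine ⟨by simp only [Rot.triA, Rot.fl] at *; omega, fun k => ?_⟩
  have h4 := nc_fiber_eq (cls p) _ _ h1 (by simp only [Rot.triA, Rot.fl] at *; omega) k
  rw [h.or_card] at h4
  exact h4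

theorem Rot.Two.facts [Fintype V] {R : Rot G p} {o b : G.Dart} (h : R.Two o b) (e : G.Dart) :
    R.Facts o b (cls p e) := by
  classical
  obtain ⟨N, hN, h1⟩ := h.core (cls p e)
  have h2 := h.core_le e hN
  obtain ⟨h3, h3'⟩ := h.tri_eq
  have h3k := h3' (cls p e)
  have h4 := Set.ncard_union_add_ncard_inter (R.met (cls p e) o) (R.met (cls p e) b)
  have h5 := R.met_le (cls p e) o
  have h6 := R.met_le (cls p e) b
  have h7 := nc_split (fun d => R.Sh o b d ∧ R.Obt (cls p e) d)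
    (fun d => d.snd ∉ R.side (cls p e) o ∧ d.snd ∉ R.side (cls p e) b)
  refine ⟨fun w w1 w2 d d' hd hd' => ?_, ?_, R.inj_of_le _ _ (by omega),
    R.inj_of_le _ _ (by omega), fun d hd hd' => ?_, h3k⟩
  · refine R.kl_of_le h.hm h.hc N {d | cls p d ≠ cls p e} hN
      (fun d hd => by simpa [cls_symm] using hd) (by omega) w w1
      (fun d hd => w2 d (by simpa using hd)) d d' (fun x => hN d x hd) (fun x => hN d' x hd')
  · have h8 : R.met (cls p e) o ∩ R.met (cls p e) b = ∅ :=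
      (Set.ncard_eq_zero (Set.toFinite _)).1 (by omega)
    rw [Set.disjoint_left]
    intro v v1 v2
    have h9 : comp G p (cls p e) v ∈ R.met (cls p e) o ∩ R.met (cls p e) b := ⟨v1, v2⟩
    rw [h8] at h9
    exact h9
  · by_contra hcon
    have h8 : {d | (R.Sh o b d ∧ R.Obt (cls p e) d) ∧
        ¬ (d.snd ∉ R.side (cls p e) o ∧ d.snd ∉ R.side (cls p e) b)} = ∅ :=
      (Set.ncard_eq_zero (Set.toFinite _)).1 (by omega)
    have h9 : d ∈ {d | (R.Sh o b d ∧ R.Obt (cls p e) d) ∧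
        ¬ (d.snd ∉ R.side (cls p e) o ∧ d.snd ∉ R.side (cls p e) b)} := ⟨⟨hd, hd'⟩, hcon⟩
    rw [h8] at h9
    exact h9

end Pool.Agent.Mst
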