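import Pool.Agent.P.MP_e0c7cd_co.TOrb

namespace Pool.Agent.Mst

open Complex Real

variable {V : Type} {G : SimpleGraph V} {p : V → ℂ}

open Classical in
theorem TFull_nc {D : Type} [Fintype D] (P : D → Prop) :
    {d | P d}.ncard = ∑ d, if P d then 1 else 0 := by
  rw [Set.ncard_eq_toFinset_card', ← Finset.card_filter]
  congr 1
  ext d
  simp

theorem TFull_heads [Fintype V] (hreg : Reg4 G) (X : Set V) :
    {d : G.Dart | d.snd ∈ X}.ncard = 4 * X.ncard := by
  classical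
  rw [Set.ncard_eq_toFinset_card', Set.ncard_eq_toFinset_card' X,
    Finset.card_eq_sum_card_fiberwise (f := fun d : G.Dart => d.snd) (t := X.toFinset)
      (fun d hd => by simpa using hd)]
  rw [mul_comm, ← smul_eq_mul, ← Finset.sum_const]
  refine Finset.sum_congr rfl fun v hv => ?_
  rw [← hreg.ncard_snd v, ← Set.ncard_coe_finset]
  congr 1
  ext d
  have hv' : v ∈ X := by simpa using hv
  simp only [Finset.coe_filter, Set.mem_toFinset, Set.mem_ofPred_eq]
  exact ⟨fun h => h.2, fun h => ⟨h ▸ hv', h⟩⟩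

theorem TFull_const [Fintype V] (R : Rot G p) (k : ℂ) (o : G.Dart) :
    Module.finrank ℝ (constSub G {d | d.fst ∈ R.side k o ∧ d.snd ∈ R.side k o}) ≤
      (R.side k o)ᶜ.ncard + 1 := by
  classical
  set X := R.side k o with hX
  have key : ∀ f ∈ constSub G {d | d.fst ∈ X ∧ d.snd ∈ X}, ∀ v ∈ X, f v = f o.snd := by
    intro f hf v hv
    have h1 : ∀ n : ℕ, f ((R.phi ^ n) o).snd = f o.snd := by
      intro n
      induction n with
      | zero => rfl
      | succ n ih =>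
        have hs : R.phi.SameCycle o ((R.phi ^ (n + 1)) o) := ⟨(n + 1 : ℕ), by rw [zpow_natCast]⟩
        rw [← hf _ ⟨R.fst_mem_side k hs, R.snd_mem_side k hs⟩, pow_succ', Equiv.Perm.mul_apply,
          R.phi_fst, ih]
    have h2 : ∀ u w : V, (compSetoid G p k).r u w → u ∈ X → f u = f w := by
      intro u w h
      have hiff : ∀ a b : V, (compSetoid G p k).r a b → (a ∈ X ↔ b ∈ X) := fun a b hab => by
        have : comp G p k a = comp G p k b := Quotient.sound hab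
        simp only [hX, Rot.side, Set.mem_ofPred_eq, this]
      induction h with
      | rel a b hab =>
        obtain ⟨d, hd, rfl, rfl⟩ := hab
        exact fun ha => hf d ⟨ha, (R.side_iff o hd).1 ha⟩
      | refl a => exact fun _ => rfl
      | symm a b hab ih => exact fun hb => (ih ((hiff a b hab).2 hb)).symm
      | trans a b c hab _ ih1 ih2 => exact fun ha => (ih1 ha).trans (ih2 ((hiff a b hab).1 ha))
    obtain ⟨d, hd, hq⟩ := hv
    obtain ⟨n, -, hn⟩ := hd.exists_pow_eq'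
    rw [← h2 d.snd v (Quotient.exact hq) (R.snd_mem_side k hd), ← hn, h1]
  let L : constSub G {d | d.fst ∈ X ∧ d.snd ∈ X} →ₗ[ℝ] ((Xᶜ : Set V) → ℝ) × ℝ :=
    { toFun := fun f => (fun v => f.1 v, f.1 o.snd)
      map_add' := fun _ _ => rfl
      map_smul' := fun _ _ => rfl }
  have hL : Function.Injective L := by
    intro f g hfg
    apply Subtype.ext
    funext v
    by_cases hv : v ∈ X
    · rw [key f.1 f.2 v hv, key g.1 g.2 v hv]
      exact congrArg Prod.snd hfg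
    · exact congrFun (congrArg Prod.fst hfg) ⟨v, hv⟩
  have := LinearMap.finrank_le_finrank_of_injective hL
  rwa [Module.finrank_prod, Module.finrank_fintype_fun_eq_card, Module.finrank_self,
    ← Nat.card_eq_fintype_card, Nat.card_coe_set_eq] at this

theorem Rot.Two.full_rank [Fintype V] {R : Rot G p} {o b : G.Dart} (h : R.Two o b) {k : ℂ}
    (hF : R.Facts o b k) :
    R.tS o b k + 3 * R.cS o b k ≤ 3 * R.fl o + 2 * R.aS o b k + 6 * R.uS o b k := by
  classical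
  have hm := h.hm
  set X := R.side k o with hX
  set A : Set G.Dart :=
    {d | R.Sh o b d ∧ R.Tri d ∧ d.fst ∈ X ∧ d.snd ∈ X ∧ (R.phi d).snd ∈ X} with hA
  set B : Set G.Dart := {d | R.Sh o b d ∧ R.Rho d ∧ d.fst ∈ X ∧ d.snd ∈ X ∧ (R.phi d).snd ∈ X ∧
    (R.phi (R.phi d)).snd ∈ X} with hB
  have hA1 : ∀ d, R.phi d ∈ A ↔ d ∈ A := by
    intro d
    simp only [hA, Set.mem_ofPred_eq, R.sh_phi, R.phi_fst]
    constructor
    · rintro ⟨h1, h2, h3, h4, h5⟩
      exact ⟨h1, h2.of_phi, h2.of_phi.phi_phi_snd ▸ h5, h3, h4⟩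
    · rintro ⟨h1, h2, h3, h4, h5⟩
      exact ⟨h1, h2.phi, h4, h5, h2.phi_phi_snd ▸ h3⟩
  have hB1 : ∀ d, R.phi d ∈ B ↔ d ∈ B := by
    intro d
    simp only [hB, Set.mem_ofPred_eq, R.sh_phi, R.phi_fst]
    constructor
    · rintro ⟨h1, h2, h3, h4, h5, h6⟩
      exact ⟨h1, h2.of_phi, h2.of_phi.phi_phi_phi_snd ▸ h6, h3, h4, h5⟩
    · rintro ⟨h1, h2, h3, h4, h5, h6⟩
      exact ⟨h1, h2.phi, h4, h5, h6, h2.phi_phi_phi_snd ▸ h3⟩
  have h1 := finrank_invSub R.phi A B
    (fun d hd => ⟨(hA1 d).2 hd, hd.2.1.1, R.phi_ne d⟩)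
    (fun d hd => ⟨(hB1 d).2 hd, hd.2.1.1, hd.2.1.phi_phi_ne hm⟩)
    (by rw [Set.disjoint_left]; intro d h1 h2; exact h1.2.1.not_rho h2.2.1)
  have h2 := finrank_invSub_orbit R.phi (A ∪ B)
    (fun d => by rw [Set.mem_union, Set.mem_union, hA1, hB1]) o
    (by rintro (hd | hd) <;> exact hd.1.1 (Equiv.Perm.SameCycle.refl _ _))
  have h3 := R.inv_le_cyc hm h.hc b ((A ∪ B) ∪ {d | R.phi.SameCycle o d})
    {d | d.fst ∈ X ∧ d.snd ∈ X}
    (by
      rintro d ((hd | hd) | hd)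
      exacts [⟨hd.2.2.1, hd.2.2.2.1⟩, ⟨hd.2.2.1, hd.2.2.2.1⟩,
        ⟨R.fst_mem_side k hd, R.snd_mem_side k hd⟩])
    (fun d hd => ⟨hd.2, hd.1⟩)
    (by
      rintro ((hd | hd) | hd)
      exacts [hd.1.2 (Equiv.Perm.SameCycle.refl _ _), hd.1.2 (Equiv.Perm.SameCycle.refl _ _),
        h.ne hd])
  have h4 := finrank_cyc (G := G) {d | d.fst ∈ X ∧ d.snd ∈ X} (fun d hd => ⟨hd.2, hd.1⟩)
  have h5 := TFull_const R k o
  have h6 := TFull_heads h.hreg X
  have h7 : X.ncard + Xᶜ.ncard = Fintype.card V := by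
    rw [Set.ncard_add_ncard_compl, Nat.card_eq_fintype_card]
  have h8 : {d | R.Sh o b d ∧ R.Rho d ∧ cls p d = k ∧ cls p (R.phi d) ≠ k ∧ d.snd ∈ X}.ncard =
      {d | R.Sh o b d ∧ R.Rho d ∧ cls p d ≠ k ∧ cls p (R.phi d) = k ∧ d.snd ∈ X}.ncard := by
    refine nc_perm R.phi fun d => ?_
    rw [R.sh_phi]
    constructor
    · rintro ⟨b1, b2, b3, b4, b5⟩
      exact ⟨b1, b2.phi, b4, by rw [b2.cls_phi_phi]; exact b3,
        (R.side_iff o b4).1 (by rw [R.phi_fst]; exact b5)⟩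
    · rintro ⟨b1, b2, b3, b4, b5⟩
      exact ⟨b1, b2.of_phi, by rw [← b2.of_phi.cls_phi_phi]; exact b4, b3,
        by rw [← R.phi_fst]; exact (R.side_iff o b3).2 b5⟩
  have h9 : {d | R.Sh o b d ∧ R.Rho d ∧ cls p d ≠ k ∧ cls p (R.phi d) = k ∧ d.snd ∈ X ∧
        (R.phi d).snd ∈ X}.ncard =
      {d | R.Sh o b d ∧ R.Rho d ∧ cls p d = k ∧ cls p (R.phi d) ≠ k ∧ d.fst ∈ X ∧
        d.snd ∈ X}.ncard := by
    refine nc_perm R.phi fun d => ?_
    rw [R.sh_phi, R.phi_fst]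
    constructor
    · rintro ⟨b1, b2, b3, b4, b5⟩
      exact ⟨b1, b2.phi, b4, by rw [b2.cls_phi_phi]; exact b3, b5⟩
    · rintro ⟨b1, b2, b3, b4, b5⟩
      exact ⟨b1, b2.of_phi, by rw [← b2.of_phi.cls_phi_phi]; exact b4, b3, b5⟩
  have h10 : R.tS o b k + 3 * R.cS o b k + 6 * {d : G.Dart | d.fst ∈ X ∧ d.snd ∈ X}.ncard +
      3 * {d | R.Sh o b d ∧ R.Rho d ∧ cls p d = k ∧ cls p (R.phi d) ≠ k ∧ d.snd ∈ X}.ncard +
      3 * {d | R.Sh o b d ∧ R.Rho d ∧ cls p d ≠ k ∧ cls p (R.phi d) = k ∧ d.snd ∈ X ∧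
        (R.phi d).snd ∈ X}.ncard ≤
      4 * A.ncard + 3 * B.ncard + 3 * {d : G.Dart | d.snd ∈ X}.ncard + 3 * R.fl o +
      2 * R.aS o b k + 6 * R.uS o b k +
      3 * {d | R.Sh o b d ∧ R.Rho d ∧ cls p d ≠ k ∧ cls p (R.phi d) = k ∧ d.snd ∈ X}.ncard +
      3 * {d | R.Sh o b d ∧ R.Rho d ∧ cls p d = k ∧ cls p (R.phi d) ≠ k ∧ d.fst ∈ X ∧
        d.snd ∈ X}.ncard := by
    simp only [hA, hB, Rot.tS, Rot.cS, Rot.fl, Rot.aS, Rot.uS, ← hX, TFull_nc, Finset.mul_sum,
      ← Finset.sum_add_distrib]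
    refine Finset.sum_le_sum fun d _ => ?_
    by_cases hs : d.snd ∈ X
    swap
    · simp [hs]
    by_cases ho : R.phi.SameCycle o d
    · have hsh : ¬ R.Sh o b d := fun h => h.1 ho
      have hf : d.fst ∈ X := R.fst_mem_side k ho
      simp [hs, ho, hsh, hf]
    have hb : ¬ R.phi.SameCycle b d := fun hb =>
      Set.disjoint_left.1 hF.disj hs (R.snd_mem_side k hb)
    have hsh : R.Sh o b d := ⟨ho, hb⟩
    rcases h.good d hsh with ht | hr
    · have hr := ht.not_rho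
      by_cases hc : cls p d = k
      · by_cases hf : d.fst ∈ X <;> by_cases h3 : (R.phi d).snd ∈ X <;>
          simp [hs, ho, hsh, ht, hr, hc, hf, h3]
      · have hf : d.fst ∈ X := (R.side_iff o hc).2 hs
        have hc' : cls p (R.phi d) ≠ k := by rw [ht.cls_phi hm]; exact hc
        have h3 : (R.phi d).snd ∈ X := (R.side_iff o hc').1 (by rw [R.phi_fst]; exact hs)
        simp [hs, ho, hsh, ht, hr, hc, hf, h3]
    · have ht : ¬ R.Tri d := fun ht => ht.not_rho hr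
      by_cases hc : cls p d = k
      · by_cases hc' : cls p (R.phi d) = k
        · have ha : R.Acu k d :=
            (hr.obt_or_acu hm hc hc').resolve_left fun hO => (hF.noObt d hsh hO).1 hs
          have hf : d.fst ∉ X := by
            rw [← hr.phi_phi_phi_snd]
            refine (hF.noObt _ (by rw [R.sh_phi, R.sh_phi, R.sh_phi]; exact hsh)
              ⟨hr.phi.phi.phi, by rw [hr.phi.cls_phi_phi]; exact hc', by rw [hr.1]; exact hc,
                ?_⟩).1
            linarith [hr.2.2.2.1, hr.2.2.2.2.2, ha.2.2.2]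
          simp [hs, ho, hsh, ht, hr, hc, hc', hf, ha]
        · have ha : ¬ R.Acu k d := fun ha => hc' ha.2.2.1
          have h3 : (R.phi d).snd ∈ X := (R.side_iff o hc').1 (by rw [R.phi_fst]; exact hs)
          by_cases hf : d.fst ∈ X
          · have h4 : (R.phi (R.phi d)).snd ∈ X := by
              rw [← R.phi_fst]
              refine (R.side_iff o (by rw [hr.phi.cls_phi_phi]; exact hc')).2 ?_
              rw [hr.phi_phi_phi_snd]
              exact hf
            simp [hs, ho, hsh, ht, hr, hc, hc', hf, ha, h3, h4]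
          · simp [hs, ho, hsh, ht, hr, hc, hc', hf, ha]
      · have hf : d.fst ∈ X := (R.side_iff o hc).2 hs
        have h4 : (R.phi d).snd ∈ X → (R.phi (R.phi d)).snd ∈ X := fun h3 =>
          (R.side_iff o (by rw [hr.cls_phi_phi]; exact hc)).1 (by rw [R.phi_fst]; exact h3)
        by_cases hc' : cls p (R.phi d) = k
        · by_cases h3 : (R.phi d).snd ∈ X
          · simp [hs, ho, hsh, ht, hr, hc, hc', hf, h3, h4 h3]
          · simp [hs, ho, hsh, ht, hr, hc, hc', hf, h3]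
        · have h3 : (R.phi d).snd ∈ X := (R.side_iff o hc').1 (by rw [R.phi_fst]; exact hs)
          simp [hs, ho, hsh, ht, hr, hc, hc', hf, h3, h4 h3]
  rw [← hX] at h5
  omega

end Pool.Agent.Mst
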