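import Pool.Agent.P.MP_e0c7cd_co.THopfT

namespace Pool.Agent.Mst

open Complex Real

variable {V : Type} {G : SimpleGraph V} {p : V → ℂ}

theorem THopfF_arg (R : Rot G p) (hm : IsMatchstick G p) (hne : ∀ a, R.rho a ≠ a) (d : G.Dart) :
    Complex.arg (vec p (R.phi d) / vec p d) = π - R.theta d := by
  have h1 := arg_neg_div (hm.norm_vec (R.phi d)) (hm.norm_vec d.symm)
  have h2 : R.theta d = ccw (vec p (R.phi d)) (vec p d.symm) := rfl
  have h3 : R.theta d < 2 * π := by
    rw [h2]
    refine ccw_lt (hm.norm_vec _) (hm.norm_vec _) fun h => Short_phi_ne_symm R hne d ?_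
    exact hm.dart_eq (by rw [R.phi_fst]; rfl) h
  rw [← h2, vec_symm, neg_div, neg_neg] at h1
  have h4 : vec p (R.phi d) / vec p d = (vec p d / vec p (R.phi d))⁻¹ := by rw [inv_div]
  rw [h4, Complex.arg_inv, h1, if_neg (by linarith)]
  ring

theorem Rot.hopf [Fintype V] (R : Rot G p) (hm : IsMatchstick G p) (hreg : Reg4 G) (b : G.Dart)
    (hs : R.Simple b) : ∃ n : ℤ, R.turn b = 2 * π * (2 * n + 1) := by
  classical
  have hne : ∀ a, R.rho a ≠ a := R.rho_ne_of_reg hreg
  set J := Function.minimalPeriod R.phi b with hJdef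
  let D : ℕ → G.Dart := fun i => R.phi^[i] b
  have hD1 : ∀ i, D (i + 1) = R.phi (D i) := fun i => Function.iterate_succ_apply' _ _ _
  have hDJ : ∀ i, D (i + J) = D i := fun i => Function.iterate_add_minimalPeriod_eq
  have hDinj : ∀ i j, i < J → j < J → D i = D j → i = j := fun i j hi hj h =>
    (Function.iterate_eq_iterate_iff_of_lt_minimalPeriod hi hj).1 h
  have hJ0 : 0 < J :=
    Function.minimalPeriod_pos_of_mem_periodicPts (R.phi.injective.mem_periodicPts b)
  have hD0 : D 0 = b := rfl
  have hJ : 3 ≤ J := by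
    by_contra hc
    have h0 := hDJ 0
    rw [zero_add] at h0
    have : J = 1 ∨ J = 2 := by omega
    rcases this with h | h
    · rw [h, hD1 0, hD0] at h0
      exact Short_phi_ne R b h0
    · rw [h, hD1 1, hD1 0, hD0] at h0
      exact Short_phi_phi_ne R hne b h0
  have hDs : ∀ i, R.phi.SameCycle b (D i) := by
    intro i
    refine ⟨(i : ℤ), ?_⟩
    rw [zpow_natCast, Equiv.Perm.coe_pow]
  have hDsurj : ∀ d, R.phi.SameCycle b d → ∃ i, i < J ∧ D i = d := by
    intro d hd
    obtain ⟨i, -, hi⟩ := hd.exists_pow_eq'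
    refine ⟨i % J, Nat.mod_lt _ hJ0, ?_⟩
    rw [Equiv.Perm.coe_pow] at hi
    rw [← hi]
    exact Function.iterate_mod_minimalPeriod_eq
  have hT : ∀ i, (D (i + 1)).fst = (D i).snd := fun i => by rw [hD1, R.phi_fst]
  have hTinj : ∀ i j, i < J → j < J → (D i).fst = (D j).fst → i = j := by
    intro i j hi hj h
    have e1 : i + J = (i + J - 1) + 1 := by omega
    have e2 : j + J = (j + J - 1) + 1 := by omega
    have h1 : (D (i + J - 1)).snd = (D (j + J - 1)).snd := by
      rw [← hT, ← hT, ← e1, ← e2, hDJ, hDJ, h]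
    have h2 := hs _ _ (hDs _) (hDs _) h1
    apply hDinj i j hi hj
    rw [← hDJ i, ← hDJ j, e1, e2, hD1, hD1, h2]
  have hvec : ∀ i, p (D (i + 1)).fst - p (D i).fst = vec p (D i) := fun i => by rw [hT]; rfl
  obtain ⟨n, hn⟩ := hopf_poly J hJ (fun i => p (D i).fst) (fun i => by simp only [hDJ])
    (fun i => by simp only [hvec]; exact hm.norm_vec _)
    (fun i j hi hj h => hTinj i j hi hj (hm.inj h)) (by
      intro i j hij hj hn
      have a1 : (D i).fst ≠ (D j).fst := fun h => by
        have := hTinj i j (by omega) hj h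
        omega
      have a2 : (D (i + 1)).fst ≠ (D j).fst := fun h => by
        have := hTinj (i + 1) j (by omega) hj h
        omega
      have a3 : ∀ k, k < J → k ≠ j + 1 → (k = 0 → j + 1 ≠ J) → (D k).fst ≠ (D (j + 1)).fst := by
        intro k hk h1 h2 h
        by_cases hc : j + 1 = J
        · have h0 := hDJ 0
          rw [zero_add] at h0
          rw [hc, h0] at h
          exact h2 (hTinj k 0 hk hJ0 h) hc
        · exact h1 (hTinj k (j + 1) hk (by omega) h)
      have a4 := a3 i (by omega) (by omega) (fun h1 h2 => hn ⟨h1, h2⟩)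
      have a5 := a3 (i + 1) (by omega) (by omega) (by omega)
      rw [Set.disjoint_left]
      intro z hz1 hz2
      have adj : ∀ k, G.Adj (D k).fst (D (k + 1)).fst := fun k => by rw [hT]; exact (D k).adj
      obtain ⟨w, hw1, hw2, -⟩ := hm.cross _ _ _ _ (adj i) (adj j) (by
        intro h
        rw [Sym2.eq_iff] at h
        rcases h with h | h
        · exact a1 h.1
        · exact a4 h.1) z hz1 hz2
      rcases hw1 with rfl | rfl <;> rcases hw2 with h | h
      · exact a1 h
      · exact a4 h
      · exact a2 h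
      · exact a5 h)
  refine ⟨n, ?_⟩
  rw [← hn, Rot.turn]
  symm
  refine Finset.sum_bij (fun i _ => D i) ?_ ?_ ?_ ?_
  · intro i _
    simp only [Finset.mem_filter, Finset.mem_univ, true_and]
    exact hDs i
  · intro i hi j hj h
    exact hDinj i j (Finset.mem_range.1 hi) (Finset.mem_range.1 hj) h
  · intro d hd
    simp only [Finset.mem_filter, Finset.mem_univ, true_and] at hd
    obtain ⟨i, hi, h⟩ := hDsurj d hd
    exact ⟨i, Finset.mem_range.2 hi, h⟩
  · intro i _
    have h1 := hvec (i + 1)
    have h2 := hvec i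
    rw [show i + 2 = i + 1 + 1 from rfl, h1, h2, hD1, THopfF_arg R hm hne]

end Pool.Agent.Mst
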