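import Pool.Agent.P.MP_e0c7cd_co.TOrb

namespace Pool.Agent.Mst

open Complex Real

variable {V : Type} {G : SimpleGraph V} {p : V → ℂ}

theorem TSide_mem {R : Rot G p} {k : ℂ} {x : G.Dart} {u v : V} (h : (compSetoid G p k).r u v) :
    u ∈ R.side k x ↔ v ∈ R.side k x := by
  have : comp G p k u = comp G p k v := Quotient.sound h
  simp only [Rot.side, Set.mem_ofPred_eq, this]

theorem TSide_const (R : Rot G p) (k : ℂ) (x : G.Dart) (f : V → ℝ)
    (hf : f ∈ constSub G {d | cls p d ≠ k ∧ d.snd ∈ R.side k x}) {u v : V}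
    (h : (compSetoid G p k).r u v) : u ∈ R.side k x → f u = f v := by
  induction h with
  | rel a b hab =>
    obtain ⟨d, hd, rfl, rfl⟩ := hab
    exact fun hu => hf d ⟨hd, (R.side_iff x hd).1 hu⟩
  | refl a => exact fun _ => rfl
  | symm a b hab ih => exact fun hb => (ih ((TSide_mem (R := R) hab).2 hb)).symm
  | trans a b c hab _ ih1 ih2 =>
    exact fun ha => (ih1 ha).trans (ih2 ((TSide_mem (R := R) hab).1 ha))

theorem TSide_finrank [Fintype V] (R : Rot G p) (k : ℂ) (x : G.Dart) :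
    Module.finrank ℝ (constSub G {d | cls p d ≠ k ∧ d.snd ∈ R.side k x}) ≤
      (R.met k x).ncard + (R.side k x)ᶜ.ncard := by
  classical
  have : Fintype (Quotient (compSetoid G p k)) := Fintype.ofFinite _
  have : Fintype (R.met k x) := Fintype.ofFinite _
  have : Fintype ((R.side k x)ᶜ : Set V) := Fintype.ofFinite _
  let L : constSub G {d | cls p d ≠ k ∧ d.snd ∈ R.side k x} →ₗ[ℝ]
      ((R.met k x) ⊕ ((R.side k x)ᶜ : Set V) → ℝ) :=
    { toFun := fun f q => f.1 (Sum.elim (fun q => q.1.out) (fun v => v.1) q)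
      map_add' := fun _ _ => rfl
      map_smul' := fun _ _ => rfl }
  have hL : Function.Injective L := by
    intro f g hfg
    apply Subtype.ext
    funext v
    by_cases hv : v ∈ R.side k x
    · have h1 : (compSetoid G p k).r (Quotient.mk (compSetoid G p k) v).out v := Quotient.mk_out v
      have h2 := (TSide_mem (R := R) (x := x) h1).2 hv
      rw [← TSide_const R k x f.1 f.2 h1 h2, ← TSide_const R k x g.1 g.2 h1 h2]
      exact congrFun hfg (Sum.inl ⟨comp G p k v, hv⟩)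
    · exact congrFun hfg (Sum.inr ⟨v, hv⟩)
  have := LinearMap.finrank_le_finrank_of_injective hL
  rwa [Module.finrank_fintype_fun_eq_card, Fintype.card_sum, ← Nat.card_eq_fintype_card,
    ← Nat.card_eq_fintype_card, Nat.card_coe_set_eq, Nat.card_coe_set_eq] at this

theorem TSide_heads [Fintype V] (hreg : Reg4 G) (X : Set V) :
    {d : G.Dart | d.snd ∈ X}.ncard = 4 * X.ncard := by
  classical
  have h1 : {d : G.Dart | d.snd ∈ X}.ncard =
      (Finset.univ.filter fun d : G.Dart => d.snd ∈ X).card := by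
    rw [← Set.ncard_coe_finset]
    congr 1
    ext d
    simp
  rw [h1, Finset.card_eq_sum_card_fiberwise (f := fun d : G.Dart => d.snd) (t := X.toFinset)
    (by intro d hd; simpa using hd)]
  have h2 : ∀ v ∈ X.toFinset, ((Finset.univ.filter fun d : G.Dart => d.snd ∈ X).filter
      fun d : G.Dart => d.snd = v).card = 4 := by
    intro v hv
    rw [← hreg.ncard_snd v, ← Set.ncard_coe_finset]
    congr 1
    ext d
    simp only [Finset.coe_filter, Finset.mem_filter, Finset.mem_univ, true_and,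
      Set.mem_ofPred_eq]
    exact ⟨fun h => h.2, fun h => ⟨h ▸ Set.mem_toFinset.1 hv, h⟩⟩
  rw [Finset.sum_congr rfl h2, Finset.sum_const, smul_eq_mul, Set.ncard_eq_toFinset_card', mul_comm]

theorem TSide_phi {R : Rot G p} {k : ℂ} (x : G.Dart) {d : G.Dart} (h : cls p (R.phi d) ≠ k) :
    (R.phi d).snd ∈ R.side k x ↔ d.snd ∈ R.side k x := by
  rw [← R.side_iff x h, R.phi_fst]

theorem Rot.Two.side_rank [Fintype V] {R : Rot G p} {o b : G.Dart} (h : R.Two o b) {k : ℂ}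
    (hF : R.Facts o b k) (e : G.Dart) (he : cls p e = k) :
    R.tS o b k + 3 * R.cS o b k ≤ 3 * R.fl o + 6 * R.flk k o := by
  classical
  have hm := h.hm
  have hB : ∀ d : G.Dart, d.snd ∈ R.side k o → ¬ R.phi.SameCycle b d := fun d hd hb =>
    Set.disjoint_left.1 hF.disj hd (R.snd_mem_side k hb)
  have hO : ∀ d : G.Dart, R.phi.SameCycle o d → d.snd ∈ R.side k o := fun d hd =>
    R.snd_mem_side k hd
  obtain ⟨A, hA⟩ : ∃ A : Set G.Dart,
      A = {d | R.Sh o b d ∧ R.Tri d ∧ cls p d ≠ k ∧ d.snd ∈ R.side k o} := ⟨_, rfl⟩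
  obtain ⟨B, hBn⟩ : ∃ B : Set G.Dart, B = {d | R.Sh o b d ∧ R.Rho d ∧ cls p d ≠ k ∧
      cls p (R.phi d) ≠ k ∧ d.snd ∈ R.side k o} := ⟨_, rfl⟩
  obtain ⟨S, hS⟩ : ∃ S : Set G.Dart, S = {d | cls p d ≠ k ∧ d.snd ∈ R.side k o} := ⟨_, rfl⟩
  have mA : ∀ d, d ∈ A ↔ R.Sh o b d ∧ R.Tri d ∧ cls p d ≠ k ∧ d.snd ∈ R.side k o := fun d => by
    rw [hA]; rfl
  have mB : ∀ d, d ∈ B ↔ R.Sh o b d ∧ R.Rho d ∧ cls p d ≠ k ∧
      cls p (R.phi d) ≠ k ∧ d.snd ∈ R.side k o := fun d => by rw [hBn]; rfl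
  have mS : ∀ d, d ∈ S ↔ cls p d ≠ k ∧ d.snd ∈ R.side k o := fun d => by rw [hS]; rfl
  have iA : ∀ d, R.phi d ∈ A ↔ d ∈ A := by
    intro d
    rw [mA, mA, R.sh_phi]
    constructor
    · rintro ⟨a1, a2, a3, a4⟩
      exact ⟨a1, a2.of_phi, by rw [← a2.of_phi.cls_phi hm]; exact a3, (TSide_phi o a3).1 a4⟩
    · rintro ⟨a1, a2, a3, a4⟩
      have a5 : cls p (R.phi d) ≠ k := by rw [a2.cls_phi hm]; exact a3
      exact ⟨a1, a2.phi, a5, (TSide_phi o a5).2 a4⟩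
  have iB : ∀ d, R.phi d ∈ B ↔ d ∈ B := by
    intro d
    rw [mB, mB, R.sh_phi]
    constructor
    · rintro ⟨a1, a2, a3, a4, a5⟩
      exact ⟨a1, a2.of_phi, by rw [← a2.of_phi.cls_phi_phi]; exact a4, a3, (TSide_phi o a3).1 a5⟩
    · rintro ⟨a1, a2, a3, a4, a5⟩
      exact ⟨a1, a2.phi, a4, by rw [a2.cls_phi_phi]; exact a3, (TSide_phi o a4).2 a5⟩
  have sS : ∀ d ∈ S, d.symm ∈ S := by
    intro d hd
    rw [mS] at hd ⊢
    exact ⟨by rw [cls_symm]; exact hd.1, (R.side_iff o hd.1).2 hd.2⟩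
  have sS' : ∀ d : G.Dart, d.symm ∈ S → d ∈ S := fun d hd => by simpa using sS _ hd
  have h1 := finrank_invSub R.phi A B
    (fun d hd => ⟨(iA d).2 hd, ((mA d).1 hd).2.1.1, R.phi_ne d⟩)
    (fun d hd => ⟨(iB d).2 hd, ((mB d).1 hd).2.1.1, ((mB d).1 hd).2.1.phi_phi_ne hm⟩)
    (by
      rw [Set.disjoint_left]
      intro d d1 d2
      exact ((mA d).1 d1).2.1.not_rho ((mB d).1 d2).2.1)
  have hN : A ∪ B ⊆ S := by
    rintro d (hd | hd)
    · exact (mS d).2 ((mA d).1 hd).2.2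
    · exact (mS d).2 ⟨((mB d).1 hd).2.2.1, ((mB d).1 hd).2.2.2.2⟩
  have heS : e ∉ S := fun hd => ((mS e).1 hd).1 he
  have h2 := R.inv_le_cyc hm h.hc e (A ∪ B) S hN sS' fun hd => heS (hN hd)
  have h2' : R.flk k o = 0 →
      Module.finrank ℝ (invSub R.phi (A ∪ B)) + 1 ≤ Module.finrank ℝ (cycSub G S) := by
    intro h0
    have h0' : {d | R.phi.SameCycle o d ∧ cls p d = k} = ∅ :=
      (Set.ncard_eq_zero (Set.toFinite _)).1 h0
    have hN' : (A ∪ B) ∪ {d | R.phi.SameCycle o d} ⊆ S := by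
      rintro d (hd | hd)
      · exact hN hd
      · refine (mS d).2 ⟨fun hk => ?_, hO d hd⟩
        have : d ∈ {d | R.phi.SameCycle o d ∧ cls p d = k} := ⟨hd, hk⟩
        rw [h0'] at this
        exact this
    rw [← finrank_invSub_orbit R.phi (A ∪ B)
      (fun d => by simp only [Set.mem_union, iA, iB]) o (by
        rintro (hd | hd)
        · exact ((mA o).1 hd).1.1 (Equiv.Perm.SameCycle.refl _ _)
        · exact ((mB o).1 hd).1.1 (Equiv.Perm.SameCycle.refl _ _))]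
    exact R.inv_le_cyc hm h.hc e _ S hN' sS' fun hd => heS (hN' hd)
  have h3 := finrank_cyc (G := G) S sS
  have h4 := TSide_finrank R k o
  rw [← hS] at h4
  have h5 := R.met_le k o
  have h6 := TSide_heads h.hreg (R.side k o)
  have h7 : (R.side k o).ncard + (R.side k o)ᶜ.ncard = Fintype.card V := by
    rw [Set.ncard_add_ncard_compl, Nat.card_eq_fintype_card]
  have tA : R.tS o b k = A.ncard := by rw [hA]; rfl
  have a0 := nc_split (fun d : G.Dart => d.snd ∈ R.side k o) (fun d => cls p d = k)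
  have a0' : {d : G.Dart | d.snd ∈ R.side k o ∧ ¬ cls p d = k}.ncard = S.ncard := by
    rw [hS]
    exact nc_congr fun d => and_comm
  have a1 : R.fl o = R.flk k o + {d | R.phi.SameCycle o d ∧ ¬ cls p d = k}.ncard :=
    nc_split (fun d => R.phi.SameCycle o d) (fun d => cls p d = k)
  have b1 := nc_split (fun d : G.Dart => d.snd ∈ R.side k o ∧ ¬ cls p d = k)
    (fun d => R.phi.SameCycle o d)
  have b2 : {d : G.Dart | (d.snd ∈ R.side k o ∧ ¬ cls p d = k) ∧ R.phi.SameCycle o d}.ncard =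
      {d | R.phi.SameCycle o d ∧ ¬ cls p d = k}.ncard :=
    nc_congr fun d => ⟨fun a => ⟨a.2, a.1.2⟩, fun a => ⟨⟨hO d a.1, a.2⟩, a.1⟩⟩
  have b3 := nc_split
    (fun d : G.Dart => (d.snd ∈ R.side k o ∧ ¬ cls p d = k) ∧ ¬ R.phi.SameCycle o d)
    (fun d => R.Tri d)
  have b4 : {d : G.Dart | ((d.snd ∈ R.side k o ∧ ¬ cls p d = k) ∧ ¬ R.phi.SameCycle o d) ∧
      R.Tri d}.ncard = A.ncard := by
    rw [hA]
    exact nc_congr fun d => ⟨fun a => ⟨⟨a.1.2, hB d a.1.1.1⟩, a.2, a.1.1.2, a.1.1.1⟩,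
      fun a => ⟨⟨⟨a.2.2.2, a.2.2.1⟩, a.1.1⟩, a.2.1⟩⟩
  have b5 := nc_split
    (fun d : G.Dart => ((d.snd ∈ R.side k o ∧ ¬ cls p d = k) ∧ ¬ R.phi.SameCycle o d) ∧
      ¬ R.Tri d) (fun d => cls p (R.phi d) = k)
  have b6 : {d : G.Dart | (((d.snd ∈ R.side k o ∧ ¬ cls p d = k) ∧ ¬ R.phi.SameCycle o d) ∧
      ¬ R.Tri d) ∧ ¬ cls p (R.phi d) = k}.ncard = B.ncard := by
    rw [hBn]
    refine nc_congr fun d => ⟨fun a => ?_, fun a => ?_⟩
    · have a5 : R.Sh o b d := ⟨a.1.1.2, hB d a.1.1.1.1⟩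
      exact ⟨a5, (h.good d a5).resolve_left a.1.2, a.1.1.1.2, a.2, a.1.1.1.1⟩
    · exact ⟨⟨⟨⟨a.2.2.2.2, a.2.2.1⟩, a.1.1⟩, fun t => t.not_rho a.2.1⟩, a.2.2.2.1⟩
  have c1 := nc_split (fun d : G.Dart => d.snd ∈ R.side k o ∧ cls p d = k)
    (fun d => R.phi.SameCycle o d)
  have c2 : {d : G.Dart | (d.snd ∈ R.side k o ∧ cls p d = k) ∧ R.phi.SameCycle o d}.ncard =
      R.flk k o :=
    nc_congr fun d => ⟨fun a => ⟨a.2, a.1.2⟩, fun a => ⟨⟨hO d a.1, a.2⟩, a.1⟩⟩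
  have c3 := nc_split
    (fun d : G.Dart => (d.snd ∈ R.side k o ∧ cls p d = k) ∧ ¬ R.phi.SameCycle o d)
    (fun d => cls p (R.phi d) = k)
  have c4 : {d : G.Dart | ((d.snd ∈ R.side k o ∧ cls p d = k) ∧ ¬ R.phi.SameCycle o d) ∧
      cls p (R.phi d) = k}.ncard = R.cS o b k := by
    refine nc_congr fun d => ⟨fun a => ?_, fun a => ?_⟩
    · have a5 : R.Sh o b d := ⟨a.1.2, hB d a.1.1.1⟩
      refine ⟨a5, a.1.1.2, ?_, a.1.1.1⟩
      rcases h.good d a5 with t | t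
      · exact Or.inl t
      · rcases t.obt_or_acu hm a.1.1.2 a.2 with u | u
        · exact absurd a.1.1.1 (hF.noObt d a5 u).1
        · exact Or.inr u
    · refine ⟨⟨⟨a.2.2.2, a.2.1⟩, a.1.1⟩, ?_⟩
      rcases a.2.2.1 with t | t
      · rw [t.cls_phi hm]
        exact a.2.1
      · exact t.2.2.1
  have c5 : {d : G.Dart | ((d.snd ∈ R.side k o ∧ cls p d = k) ∧ ¬ R.phi.SameCycle o d) ∧
      ¬ cls p (R.phi d) = k}.ncard =
      {d : G.Dart | (((d.snd ∈ R.side k o ∧ ¬ cls p d = k) ∧ ¬ R.phi.SameCycle o d) ∧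
        ¬ R.Tri d) ∧ cls p (R.phi d) = k}.ncard := by
    refine nc_perm R.phi fun d => ?_
    rw [R.same_phi]
    constructor
    · rintro ⟨⟨⟨a2, a3⟩, a4⟩, a5⟩
      have a6 : R.Sh o b d := ⟨a4, hB d a2⟩
      have a7 : R.Rho d := (h.good d a6).resolve_left fun t => a5 (by rw [t.cls_phi hm]; exact a3)
      exact ⟨⟨⟨⟨(TSide_phi o a5).2 a2, a5⟩, a4⟩, fun t => t.not_rho a7.phi⟩,
        by rw [a7.cls_phi_phi]; exact a3⟩
    · rintro ⟨⟨⟨⟨a2, a3⟩, a4⟩, a5⟩, a6⟩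
      have a7 := (TSide_phi o a3).1 a2
      have a8 : R.Sh o b d := ⟨a4, hB d a7⟩
      have a9 : R.Rho d := (h.good d a8).resolve_left fun t => a5 t.phi
      exact ⟨⟨⟨a7, by rw [← a9.cls_phi_phi]; exact a6⟩, a4⟩, a3⟩
  rcases Nat.eq_zero_or_pos (R.flk k o) with h0 | h0
  · have := h2' h0
    omega
  · omega

end Pool.Agent.Mst
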