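import Pool.Agent.P.MP_e0c7cd_co.TCut

namespace Pool.Agent.Mst

open Complex Real

variable {V : Type} {G : SimpleGraph V} {p : V → ℂ}

theorem TSimple_const (R : Rot G p) (w : G.Dart → ℝ) (hw : ∀ d, w (R.phi d) = w d)
    {x d : G.Dart} (h : R.phi.SameCycle x d) : w d = w x := by
  obtain ⟨i, rfl⟩ := h
  induction i using Int.induction_on with
  | zero => simp
  | succ n ih =>
    rw [add_comm, zpow_add, zpow_one, Equiv.Perm.mul_apply, hw, ih]
  | pred n ih =>
    rw [← hw, ← Equiv.Perm.mul_apply, ← zpow_one_add]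
    have : (1 : ℤ) + (-(n : ℤ) - 1) = -(n : ℤ) := by ring
    rw [this, ih]

theorem TSimple_ex [Fintype V] (R : Rot G p) {k : ℂ} {o : G.Dart} (h : 1 ≤ R.flk k o) :
    ∃ d, R.phi.SameCycle o d ∧ cls p d = k := by
  have h1 : {d | R.phi.SameCycle o d ∧ cls p d = k}.ncard ≠ 0 := by
    have : 1 ≤ {d | R.phi.SameCycle o d ∧ cls p d = k}.ncard := h
    omega
  exact Set.nonempty_of_ncard_ne_zero h1

theorem Rot.Two.simple_b [Fintype V] {R : Rot G p} {o b : G.Dart} (h : R.Two o b)
    (hF : ∀ e : G.Dart, R.Facts o b (cls p e))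
    (hK : ∀ e : G.Dart, 1 ≤ R.flk (cls p e) o) : R.Simple b := by
  by_contra hs
  obtain ⟨w, hw, -, ⟨e1, -, h1⟩, ⟨e2, -, h2⟩⟩ :=
    R.cut h.hm b (fun e _ => ⟨(hF e).kl, (hF e).injB⟩) hs
  obtain ⟨d1, hd1, hc1⟩ := TSimple_ex R (hK e1)
  obtain ⟨d2, hd2, hc2⟩ := TSimple_ex R (hK e2)
  have a1 := h1 d1 hc1
  have a2 := h2 d2 hc2 fun hb => h.ne (hd2.trans hb.symm)
  rw [TSimple_const R w hw hd1] at a1
  rw [TSimple_const R w hw hd2] at a2
  linarith

theorem TSimple_head {R : Rot G p} (hc : G.Connected) {o b : G.Dart} {l : ℂ}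
    (hd : Disjoint (R.side l o) (R.side l b)) :
    ∃ d : G.Dart, cls p d = l ∧ d.snd ∈ R.side l b := by
  by_contra hn
  push Not at hn
  have key : ∀ {u v : V} (_ : G.Walk u v), u ∈ R.side l b → v ∈ R.side l b := by
    intro u v q
    induction q with
    | nil => exact id
    | @cons u v x hadj q ih =>
      intro hu
      refine ih ?_
      let d : G.Dart := ⟨(u, v), hadj⟩
      by_cases hl : cls p d = l
      · exact absurd hu (hn d.symm (by rw [cls_symm]; exact hl))
      · exact (R.side_iff b hl).1 hu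
  obtain ⟨q⟩ := hc.preconnected b.snd o.snd
  exact Set.disjoint_left.1 hd (R.snd_mem_side l (Equiv.Perm.SameCycle.refl _ o))
    (key q (R.snd_mem_side l (Equiv.Perm.SameCycle.refl _ b)))

theorem Rot.Two.simple_o [Fintype V] {R : Rot G p} {o b : G.Dart} (h : R.Two o b)
    (hF : ∀ e : G.Dart, R.Facts o b (cls p e))
    (hK : ∀ e : G.Dart, 1 ≤ R.flk (cls p e) o) : R.Simple o := by
  classical
  by_contra hs
  obtain ⟨w, hw, h0, ⟨e1, -, h1⟩, ⟨e2, -, h2⟩⟩ :=
    R.cut h.hm o (fun e _ => ⟨(hF e).kl, (hF e).injO⟩) hs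
  have hA : ∀ d : G.Dart, ¬ R.phi.SameCycle o d → ¬ R.phi.SameCycle o d.symm →
      w d.symm = w d := by
    intro d hd hd'
    obtain ⟨e, he, hc⟩ := TSimple_ex R (hK d)
    have hc' : cls p d.symm = cls p e := by rw [cls_symm, hc]
    rcases h0 e he with h3 | h3
    · rw [h3 d hc.symm, h3 d.symm hc']
    · rw [h3 d hc.symm hd, h3 d.symm hc' hd']
  have main : ∀ e : G.Dart, ∃ d : G.Dart, cls p d = cls p e ∧ ¬ R.phi.SameCycle o d ∧
      w d = w b := by
    intro e
    have hdis := Set.disjoint_right.1 (hF e).disj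
    have off1 : ∀ d : G.Dart, d.snd ∈ R.side (cls p e) b → ¬ R.phi.SameCycle o d :=
      fun d hd ho => hdis hd (R.snd_mem_side _ ho)
    have off2 : ∀ d : G.Dart, d.fst ∈ R.side (cls p e) b → ¬ R.phi.SameCycle o d :=
      fun d hd ho => hdis hd (R.fst_mem_side _ ho)
    have sy : ∀ d : G.Dart, d.snd ∈ R.side (cls p e) b → w d.symm = w d :=
      fun d hd => hA d (off1 d hd) (off2 d.symm hd)
    have hB : ∀ a c : G.Dart, a.snd ∈ R.side (cls p e) b → c.snd = a.snd → w c = w a := by
      intro a c ha hca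
      have hf : ∀ x : G.Dart, (if (R.rho x).fst = a.snd then w (R.rho x) else 0) =
          (if x.fst = a.snd then w x else 0) := by
        intro x
        rw [R.fst]
        split_ifs with hx
        · have e1 : R.rho x = R.phi x.symm := by
            rw [R.phi_apply, SimpleGraph.Dart.symm_symm]
          have e2 := sy x.symm (by
            have : x.symm.snd = a.snd := hx
            rw [this]; exact ha)
          rw [SimpleGraph.Dart.symm_symm] at e2
          rw [e1, hw, e2]
        · rfl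
      have h3 := R.const_of_rho h.hm (fun x : G.Dart => if x.fst = a.snd then w x else 0) hf
        (a := c.symm) (b := a.symm) hca
      have e3 : c.symm.fst = a.snd := hca
      have e4 : a.symm.fst = a.snd := rfl
      simp only [if_pos e3, if_pos e4] at h3
      rw [← sy c (by rw [hca]; exact ha), h3, sy a ha]
    have step : ∀ d : G.Dart, cls p d ≠ cls p e →
        (d.fst ∈ R.side (cls p e) b ∧ ∀ c : G.Dart, c.snd = d.fst → w c = w b) →
        (d.snd ∈ R.side (cls p e) b ∧ ∀ c : G.Dart, c.snd = d.snd → w c = w b) := by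
      intro d hd ⟨h3, h4⟩
      have h5 := (R.side_iff b hd).1 h3
      refine ⟨h5, fun c hc => ?_⟩
      rw [hB d c h5 hc, ← sy d h5]
      exact h4 d.symm rfl
    have hC : ∀ u v : V, (compSetoid G p (cls p e)).r u v →
        ((u ∈ R.side (cls p e) b ∧ ∀ c : G.Dart, c.snd = u → w c = w b) ↔
          (v ∈ R.side (cls p e) b ∧ ∀ c : G.Dart, c.snd = v → w c = w b)) := by
      intro u v huv
      induction huv with
      | rel x y hxy =>
        obtain ⟨d, hd, rfl, rfl⟩ := hxy
        exact ⟨step d hd, step d.symm (by rw [cls_symm]; exact hd)⟩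
      | refl x => exact Iff.rfl
      | symm x y _ ih => exact ih.symm
      | trans x y z _ _ ih1 ih2 => exact ih1.trans ih2
    obtain ⟨d, hd, hs⟩ := TSimple_head h.hc (hF e).disj
    refine ⟨d, hd, off1 d hs, ?_⟩
    obtain ⟨d0, hd0, hq⟩ := hs
    have h6 := R.snd_mem_side (cls p e) hd0
    refine ((hC d0.snd d.snd (Quotient.exact hq)).1 ⟨h6, fun c hc => ?_⟩).2 d rfl
    rw [hB d0 c h6 hc, TSimple_const R w hw hd0]
  obtain ⟨d1, hc1, -, a1⟩ := main e1
  obtain ⟨d2, hc2, ho2, a2⟩ := main e2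
  rw [h1 d1 hc1] at a1
  rw [h2 d2 hc2 ho2] at a2
  linarith

end Pool.Agent.Mst
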