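import Pool.Agent.P.MP_e0c7cd_co.Two0

namespace Pool.Agent.Mst

open Complex Real

variable {V : Type} {G : SimpleGraph V} {p : V → ℂ}

theorem Rot.Two.cS_eq [Fintype V] {R : Rot G p} {o b : G.Dart} (h : R.Two o b) (k : ℂ) :
    R.cS o b k = R.aS o b k + 2 * R.uS o b k + R.yS o b k := by
  classical
  have a1 := nc_split
    (fun d => R.Sh o b d ∧ cls p d = k ∧ (R.Tri d ∨ R.Acu k d) ∧ d.snd ∈ R.side k o)
    (fun d => R.Tri d ∧ d.fst ∈ R.side k o)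
  have a2 := nc_split
    (fun d => (R.Sh o b d ∧ cls p d = k ∧ (R.Tri d ∨ R.Acu k d) ∧ d.snd ∈ R.side k o) ∧
      (R.Tri d ∧ d.fst ∈ R.side k o))
    (fun d => (R.phi d).snd ∈ R.side k o)
  have a3 := nc_split
    (fun d => (R.Sh o b d ∧ cls p d = k ∧ (R.Tri d ∨ R.Acu k d) ∧ d.snd ∈ R.side k o) ∧
      ¬ (R.Tri d ∧ d.fst ∈ R.side k o))
    (fun d => R.Tri d ∧ (R.phi d).snd ∈ R.side k o)
  have b1 : {d | ((R.Sh o b d ∧ cls p d = k ∧ (R.Tri d ∨ R.Acu k d) ∧ d.snd ∈ R.side k o) ∧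
      (R.Tri d ∧ d.fst ∈ R.side k o)) ∧ (R.phi d).snd ∈ R.side k o}.ncard = R.aS o b k :=
    nc_congr fun d => by tauto
  have b2 : {d | ((R.Sh o b d ∧ cls p d = k ∧ (R.Tri d ∨ R.Acu k d) ∧ d.snd ∈ R.side k o) ∧
      (R.Tri d ∧ d.fst ∈ R.side k o)) ∧ ¬ (R.phi d).snd ∈ R.side k o}.ncard = R.uS o b k :=
    nc_congr fun d => by tauto
  have b3 : {d | ((R.Sh o b d ∧ cls p d = k ∧ (R.Tri d ∨ R.Acu k d) ∧ d.snd ∈ R.side k o) ∧
      ¬ (R.Tri d ∧ d.fst ∈ R.side k o)) ∧ (R.Tri d ∧ (R.phi d).snd ∈ R.side k o)}.ncard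
      = R.uS o b k := by
    refine nc_perm R.phi fun d => ?_
    rw [R.sh_phi, R.phi_fst]
    constructor
    · rintro ⟨⟨⟨c1, c2, -, c4⟩, c5⟩, c6, c7⟩
      refine ⟨c1, (c6.cls_phi h.hm).trans c2, c6.phi, c4, c7, ?_⟩
      rw [c6.phi_phi_snd]
      exact fun c8 => c5 ⟨c6, c8⟩
    · rintro ⟨c1, c2, c3, c4, c5, c6⟩
      have c7 := c3.of_phi
      rw [c7.phi_phi_snd] at c6
      exact ⟨⟨⟨c1, (c7.cls_phi h.hm).symm.trans c2, Or.inl c7, c4⟩, fun c8 => c6 c8.2⟩, c7, c5⟩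
  have b4 : {d | ((R.Sh o b d ∧ cls p d = k ∧ (R.Tri d ∨ R.Acu k d) ∧ d.snd ∈ R.side k o) ∧
      ¬ (R.Tri d ∧ d.fst ∈ R.side k o)) ∧ ¬ (R.Tri d ∧ (R.phi d).snd ∈ R.side k o)}.ncard
      = R.yS o b k := by
    refine nc_congr fun d => ?_
    have c1 : R.Acu k d → ¬ R.Tri d := fun c2 c3 => c3.not_rho c2.1
    tauto
  have e0 : R.cS o b k = {d | R.Sh o b d ∧ cls p d = k ∧ (R.Tri d ∨ R.Acu k d) ∧
      d.snd ∈ R.side k o}.ncard := rfl
  omega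

theorem Rot.Two.tS_add_le [Fintype V] {R : Rot G p} {o b : G.Dart} {k : ℂ}
    (hF : R.Facts o b k) : R.tS o b k + R.tS b o k + R.triK o b k ≤ R.triA o b := by
  classical
  have a1 := nc_split (fun d => R.Sh o b d ∧ R.Tri d) (fun d => cls p d = k)
  have a2 := nc_split (fun d => (R.Sh o b d ∧ R.Tri d) ∧ ¬ cls p d = k)
    (fun d => d.snd ∈ R.side k o)
  have a3 := nc_split
    (fun d => ((R.Sh o b d ∧ R.Tri d) ∧ ¬ cls p d = k) ∧ ¬ d.snd ∈ R.side k o)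
    (fun d => d.snd ∈ R.side k b)
  have b1 : {d | ((R.Sh o b d ∧ R.Tri d) ∧ ¬ cls p d = k) ∧ d.snd ∈ R.side k o}.ncard
      = R.tS o b k := nc_congr fun d => by tauto
  have b2 : {d | (((R.Sh o b d ∧ R.Tri d) ∧ ¬ cls p d = k) ∧ ¬ d.snd ∈ R.side k o) ∧
      d.snd ∈ R.side k b}.ncard = R.tS b o k := by
    refine nc_congr fun d => ?_
    have c1 : d.snd ∈ R.side k b → ¬ d.snd ∈ R.side k o :=
      fun c2 c3 => Set.disjoint_left.1 hF.disj c3 c2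
    rw [R.sh_comm b o d]
    tauto
  have e1 : R.triK o b k = {d | (R.Sh o b d ∧ R.Tri d) ∧ cls p d = k}.ncard := rfl
  have e2 : R.triA o b = {d | R.Sh o b d ∧ R.Tri d}.ncard := rfl
  omega

theorem TSplitC_exists_dart (hc : G.Connected) (X : Set V) {u v : V} (hu : u ∈ X) (hv : v ∉ X) :
    ∃ d : G.Dart, d.fst ∉ X ∧ d.snd ∈ X := by
  obtain ⟨w⟩ := hc.preconnected v u
  induction w with
  | nil => exact absurd hu hv
  | @cons a c e hac w ih =>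
    by_cases hcX : c ∈ X
    · exact ⟨⟨(a, c), hac⟩, hv, hcX⟩
    · exact ih hu hcX

theorem Rot.Two.cS_pos [Fintype V] {R : Rot G p} {o b : G.Dart} (h : R.Two o b) {k : ℂ}
    (hF : R.Facts o b k) (h0 : R.flk k o = 0) : 1 ≤ R.cS o b k := by
  classical
  have hm := h.hm
  by_contra hlt
  have hz : R.cS o b k = 0 := by omega
  have e1 : {d | R.Sh o b d ∧ cls p d = k ∧ (R.Tri d ∨ R.Acu k d) ∧ d.snd ∈ R.side k o} = ∅ :=
    (Set.ncard_eq_zero (Set.toFinite _)).1 hz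
  have e2 : {d | R.phi.SameCycle o d ∧ cls p d = k} = ∅ :=
    (Set.ncard_eq_zero (Set.toFinite _)).1 h0
  let S : Finset G.Dart := Finset.univ.filter fun d => d.snd ∈ R.side k o ∧ cls p d = k
  have hS : ∀ d, d ∈ S ↔ d.snd ∈ R.side k o ∧ cls p d = k := fun d => by simp [S]
  have hsh : ∀ d ∈ S, R.Sh o b d := by
    intro d hd
    obtain ⟨a1, a2⟩ := (hS d).1 hd
    exact ⟨fun a3 => (Set.eq_empty_iff_forall_notMem.1 e2 d) ⟨a3, a2⟩,
      fun a3 => Set.disjoint_left.1 hF.disj a1 (R.snd_mem_side k a3)⟩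
  have hrho : ∀ d ∈ S, R.Rho d := by
    intro d hd
    obtain ⟨a1, a2⟩ := (hS d).1 hd
    exact (h.good d (hsh d hd)).resolve_left fun a3 =>
      (Set.eq_empty_iff_forall_notMem.1 e1 d) ⟨hsh d hd, a2, Or.inl a3, a1⟩
  have hall : ∀ d ∈ S, cls p (R.phi d) ≠ k := by
    intro d hd a3
    obtain ⟨a1, a2⟩ := (hS d).1 hd
    rcases (hrho d hd).obt_or_acu hm a2 a3 with a4 | a4
    · exact (hF.noObt d (hsh d hd) a4).1 a1
    · exact (Set.eq_empty_iff_forall_notMem.1 e1 d) ⟨hsh d hd, a2, Or.inr a4, a1⟩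
  have hmap : ∀ d ∈ S, (R.phi (R.phi d)).symm ∈ S := by
    intro d hd
    obtain ⟨a1, a2⟩ := (hS d).1 hd
    rw [hS, cls_symm, (hrho d hd).cls_phi_phi]
    refine ⟨?_, a2⟩
    show (R.phi (R.phi d)).fst ∈ R.side k o
    rw [R.phi_fst, ← R.side_iff o (hall d hd), R.phi_fst]
    exact a1
  have hinj : ∀ a ∈ S, ∀ c ∈ S, (R.phi (R.phi a)).symm = (R.phi (R.phi c)).symm → a = c :=
    fun a _ c _ e => R.phi.injective (R.phi.injective
      (SimpleGraph.Dart.symm_involutive.injective e))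
  have hs := sigma_sum S (fun d => (R.phi (R.phi d)).symm) hmap hinj
    (fun d => ((starRingEnd ℂ) (vec p d) * p d.snd).im)
  have ho : o.snd ∈ R.side k o := R.snd_mem_side k (Equiv.Perm.SameCycle.refl _ _)
  have hb : b.snd ∉ R.side k o := fun a1 =>
    Set.disjoint_left.1 hF.disj a1 (R.snd_mem_side k (Equiv.Perm.SameCycle.refl _ _))
  obtain ⟨x, hx1, hx2⟩ := TSplitC_exists_dart h.hc (R.side k o) ho hb
  have hx3 : cls p x = k := by
    by_contra a1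
    exact hx1 ((R.side_iff o a1).2 hx2)
  refine absurd hs (ne_of_gt (Finset.sum_pos ?_ ⟨x, (hS x).2 ⟨hx2, hx3⟩⟩))
  intro d hd
  have b1 : vec p (R.phi (R.phi d)).symm = vec p d := by
    rw [vec_symm, (hrho d hd).2.1, neg_neg]
  have b2 : p (R.phi (R.phi d)).symm.snd = p d.snd + vec p (R.phi d) := by
    show p (R.phi (R.phi d)).fst = _
    rw [R.phi_fst, vec, R.phi_fst]
    ring
  rw [b1, b2, mul_add, Complex.add_im, sigma_im R hm d]
  have := Real.sin_pos_of_pos_of_lt_pi (R.theta_pos d) (hrho d hd).theta_lt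
  linarith

end Pool.Agent.Mst
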