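import Pool.Agent.P.MP_e0c7cd_co.Two0

namespace Pool.Agent.Mst

open Complex Real

variable {V : Type} {G : SimpleGraph V} {p : V → ℂ}

theorem TVec_shift {D : Type} [Fintype D] (f : Equiv.Perm D) (P : D → Prop) [DecidablePred P]
    (hP : ∀ d, P (f d) ↔ P d) (F : D → ℂ) :
    ∑ d with P d, F (f d) = ∑ d with P d, F d := by
  rw [Finset.sum_filter, Finset.sum_filter, ← Equiv.sum_comp f (fun d => if P d then F d else 0)]
  exact Finset.sum_congr rfl fun d _ => by simp only [hP]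

theorem TVec_tri {R : Rot G p} {d : G.Dart} (h : R.Tri d) :
    vec p d + vec p (R.phi d) + vec p (R.phi (R.phi d)) = 0 := by
  simp only [vec, R.phi_fst, h.phi_phi_snd]
  ring

theorem TVec_acu {R : Rot G p} (hm : IsMatchstick G p) {k : ℂ} {d : G.Dart} (h : R.Acu k d) :
    ‖vec p d + vec p (R.phi d)‖ = 1 ∧ (vec p d + vec p (R.phi d)) ^ 6 = k := by
  have h1 := R.exp_theta hm d
  rw [h.2.2.2] at h1
  set E := Complex.exp (((π / 3 : ℝ) : ℂ) * I) with hE
  have hn : ‖E‖ = 1 := Complex.norm_exp_ofReal_mul_I _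
  have h3 : E ^ 3 = -1 := by
    rw [hE, ← Complex.exp_nat_mul, ← Complex.exp_pi_mul_I]
    congr 1
    push_cast
    ring
  have h4 : E + 1 ≠ 0 := by
    intro h0
    have := congrArg Complex.re h0
    rw [Complex.add_re, hE, Complex.exp_ofReal_mul_I_re, Real.cos_pi_div_three] at this
    norm_num at this
  have h5 : E ^ 2 - E + 1 = 0 := by
    apply mul_left_cancel₀ h4
    linear_combination h3
  have h6 : vec p d + vec p (R.phi d) = -(E ^ 2 * vec p (R.phi d)) := by
    linear_combination h1 + vec p (R.phi d) * h5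
  rw [h6]
  refine ⟨by rw [norm_neg, norm_mul, norm_pow, hn, hm.norm_vec]; norm_num, ?_⟩
  have h7 : vec p (R.phi d) ^ 6 = k := h.2.2.1
  rw [← h7]
  linear_combination (E ^ 9 - E ^ 6 + E ^ 3 - 1) * vec p (R.phi d) ^ 6 * h3

open Classical in
theorem Rot.Two.y_one [Fintype V] {R : Rot G p} {o b : G.Dart} (h : R.Two o b) {k : ℂ}
    (hF : R.Facts o b k) (h1 : R.yS o b k = 1) :
    ‖∑ d : G.Dart with (R.phi.SameCycle b d ∧ cls p d = k), vec p d‖ = 1 ∧
      (∑ d : G.Dart with (R.phi.SameCycle b d ∧ cls p d = k), vec p d) ^ 6 = k := by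
  have hm := h.hm
  set X := R.side k o with hX
  let g : G.Dart → ℂ := fun d => if cls p d = k ∧ d.fst ∉ X ∧ d.snd ∉ X then vec p d else 0
  let u : G.Dart → ℂ := fun d =>
    if cls p d = k ∧ d.snd ∈ X ∧ d.fst ∉ X ∧ (R.phi d).snd ∉ X then vec p (R.phi (R.phi d)) else 0
  let A : G.Dart → ℂ := fun d =>
    if cls p d = k ∧ d.snd ∉ X ∧ d.fst ∉ X ∧ (R.phi d).snd ∉ X then vec p (R.phi (R.phi d)) else 0
  let w : G.Dart → ℂ := fun d => if R.Acu k d ∧ d.snd ∈ X then 1 else 0
  have g0 : ∑ d, g d = 0 := by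
    have e1 := Equiv.sum_comp (symmPerm G) g
    have e2 : ∀ d, g (symmPerm G d) = -g d := by
      intro d
      show (if cls p d.symm = k ∧ d.snd ∉ X ∧ d.fst ∉ X then vec p d.symm else 0) = _
      simp only [g, cls_symm, vec_symm, and_comm (a := d.snd ∉ X)]
      split_ifs <;> simp
    simp only [e2, Finset.sum_neg_distrib] at e1
    linear_combination (-1 / 2 : ℂ) * e1
  have hT : ∀ d, (R.Sh o b (R.phi d) ∧ R.Tri (R.phi d)) ↔ (R.Sh o b d ∧ R.Tri d) := fun d => by
    rw [R.sh_phi]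
    exact and_congr_right fun _ => ⟨Rot.Tri.of_phi, Rot.Tri.phi⟩
  have hR : ∀ d, (R.Sh o b (R.phi d) ∧ R.Rho (R.phi d)) ↔ (R.Sh o b d ∧ R.Rho d) := fun d => by
    rw [R.sh_phi]
    exact and_congr_right fun _ => ⟨Rot.Rho.of_phi, Rot.Rho.phi⟩
  have split : ∑ d, g d = ∑ d with (R.phi.SameCycle b d ∧ cls p d = k), vec p d +
      ∑ d with (R.Sh o b d ∧ R.Tri d), g d + ∑ d with (R.Sh o b d ∧ R.Rho d), g d := by
    simp only [Finset.sum_filter, ← Finset.sum_add_distrib]
    refine Finset.sum_congr rfl fun d _ => ?_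
    by_cases hb : R.phi.SameCycle b d
    · have a1 : d.fst ∉ X := fun a => Set.disjoint_left.1 hF.disj a (R.fst_mem_side k hb)
      have a2 : d.snd ∉ X := fun a => Set.disjoint_left.1 hF.disj a (R.snd_mem_side k hb)
      simp [g, Rot.Sh, hb, a1, a2]
    · by_cases ho : R.phi.SameCycle o d
      · have a2 : d.snd ∈ X := R.snd_mem_side k ho
        simp [g, Rot.Sh, hb, ho, a2]
      · have hs : R.Sh o b d := ⟨ho, hb⟩
        rcases h.good d hs with a | a
        · simp [hb, hs, a, a.not_rho]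
        · have : ¬ R.Tri d := fun c => c.not_rho a
          simp [hb, hs, a, this]
  have sT : ∑ d with (R.Sh o b d ∧ R.Tri d), g d = ∑ d with (R.Sh o b d ∧ R.Tri d), u d := by
    have e1 := TVec_shift R.phi (fun d => R.Sh o b d ∧ R.Tri d) hT g
    have e2 := TVec_shift R.phi (fun d => R.Sh o b d ∧ R.Tri d) hT (fun d => g (R.phi d))
    have e3 := TVec_shift R.phi (fun d => R.Sh o b d ∧ R.Tri d) hT A
    have e4 := TVec_shift R.phi (fun d => R.Sh o b d ∧ R.Tri d) hT (fun d => A (R.phi d))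
    have e5 : ∑ d with (R.Sh o b d ∧ R.Tri d), g (R.phi (R.phi d)) =
        ∑ d with (R.Sh o b d ∧ R.Tri d), (A d + u d) := by
      refine Finset.sum_congr rfl fun d hd => ?_
      have a := (Finset.mem_filter.1 hd).2.2
      simp only [g, A, u, a.phi.cls_phi hm, a.cls_phi hm, R.phi_fst, a.phi_phi_snd]
      by_cases c1 : cls p d = k <;> by_cases c2 : d.snd ∈ X <;> by_cases c3 : d.fst ∈ X <;>
        by_cases c4 : (R.phi d).snd ∈ X <;> simp [c1, c2, c3, c4]
    have e6 : ∑ d with (R.Sh o b d ∧ R.Tri d),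
        (A d + A (R.phi d) + A (R.phi (R.phi d))) = 0 := by
      refine Finset.sum_eq_zero fun d hd => ?_
      have a := (Finset.mem_filter.1 hd).2.2
      have a0 := TVec_tri a
      simp only [A, a.phi.cls_phi hm, a.cls_phi hm, R.phi_fst, a.phi_phi_snd, a.1]
      by_cases c1 : cls p d = k <;> by_cases c2 : d.snd ∈ X <;> by_cases c3 : d.fst ∈ X <;>
        by_cases c4 : (R.phi d).snd ∈ X <;> simp [c1, c2, c3, c4]
      linear_combination a0
    simp only [Finset.sum_add_distrib] at e5 e6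
    linear_combination e5 - e1 - e2 + (1 / 3 : ℂ) * (e6 - 2 * e3 - e4)
  have sR : ∑ d with (R.Sh o b d ∧ R.Rho d), g d =
      -∑ d with (R.Sh o b d ∧ R.Rho d), w d * (vec p d + vec p (R.phi d)) := by
    let F : G.Dart → ℂ := fun d => g d + (w d + w (R.phi (R.phi (R.phi d)))) * vec p d
    have e1 := TVec_shift R.phi (fun d => R.Sh o b d ∧ R.Rho d) hR F
    have e2 := TVec_shift R.phi (fun d => R.Sh o b d ∧ R.Rho d) hR (fun d => F (R.phi d))
    have e3 := TVec_shift R.phi (fun d => R.Sh o b d ∧ R.Rho d) hR (fun d => w (R.phi (R.phi (R.phi d))) * vec p d)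
    have e4 : ∑ d with (R.Sh o b d ∧ R.Rho d),
        w (R.phi (R.phi (R.phi (R.phi d)))) * vec p (R.phi d) =
        ∑ d with (R.Sh o b d ∧ R.Rho d), w d * vec p (R.phi d) :=
      Finset.sum_congr rfl fun d hd => by rw [(Finset.mem_filter.1 hd).2.2.1]
    have e5 : ∑ d with (R.Sh o b d ∧ R.Rho d), (F d + F (R.phi (R.phi d))) = 0 := by
      refine Finset.sum_eq_zero fun d hd => ?_
      obtain ⟨s, a⟩ := (Finset.mem_filter.1 hd).2
      have c2 := a.cls_phi_phi
      have c3 := a.phi.cls_phi_phi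
      have hp := Real.pi_pos
      have s1 := (R.sh_phi o b d).2 s
      have s2 := (R.sh_phi o b _).2 s1
      have s3 := (R.sh_phi o b _).2 s2
      have f3 := a.phi_phi_phi_snd
      simp only [F, g, w, Rot.Acu, a.1, a.2.1, c2, c3, a, a.phi, a.phi.phi, a.phi.phi.phi,
        a.2.2.2.2.1, a.2.2.2.2.2, R.phi_fst, f3, true_and]
      by_cases k1 : cls p d = k
      · by_cases k2 : cls p (R.phi d) = k
        · rcases a.obt_or_acu hm k1 k2 with q | q
          · have t1 := q.2.2.2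
            have t2 : R.theta (R.phi d) = π / 3 := by linarith [a.2.2.2.1]
            have t3 : ¬ R.theta d = π / 3 := by rw [t1]; intro c; linarith
            have n1 : d.snd ∉ X := (hF.noObt d s q).1
            have n2 : (R.phi (R.phi d)).snd ∉ X := (hF.noObt _ s2
              ⟨a.phi.phi, c2.trans k1, c3.trans k2, a.2.2.2.2.1.trans t1⟩).1
            by_cases m1 : d.fst ∈ X <;> by_cases m2 : (R.phi d).snd ∈ X <;>
              simp [k1, k2, t2, t3, n1, n2, m1, m2]
          · have t1 := q.2.2.2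
            have t2 : R.theta (R.phi d) = 2 * π / 3 := by linarith [a.2.2.2.1]
            have t3 : ¬ R.theta (R.phi d) = π / 3 := by rw [t2]; intro c; linarith
            have n1 : (R.phi d).snd ∉ X := (hF.noObt _ s1 ⟨a.phi, k2, c2.trans k1, t2⟩).1
            have n2 : d.fst ∉ X := f3 ▸ (hF.noObt _ s3
              ⟨a.phi.phi.phi, c3.trans k2, by rw [a.1]; exact k1, a.2.2.2.2.2.trans t2⟩).1
            by_cases m1 : d.snd ∈ X <;> by_cases m2 : (R.phi (R.phi d)).snd ∈ X <;>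
              simp [k1, k2, t1, t3, n1, n2, m1, m2]
        · have i1 := R.side_iff o k2
          have i2 := R.side_iff o (d := R.phi (R.phi (R.phi d))) (by rw [c3]; exact k2)
          rw [R.phi_fst, ← hX] at i1
          rw [R.phi_fst, f3, ← hX] at i2
          by_cases m1 : d.snd ∈ X <;> by_cases m2 : d.fst ∈ X <;>
            simp [k1, k2, ← i1, i2, m1, m2]
      · simp [k1]
    have e6 : ∑ d with (R.Sh o b d ∧ R.Rho d), F d =
        ∑ d with (R.Sh o b d ∧ R.Rho d), g d + (∑ d with (R.Sh o b d ∧ R.Rho d), w d * vec p d +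
        ∑ d with (R.Sh o b d ∧ R.Rho d), w (R.phi (R.phi (R.phi d))) * vec p d) := by
      simp only [F, add_mul, Finset.sum_add_distrib]
    simp only [mul_add, Finset.sum_add_distrib] at e5 ⊢
    linear_combination (1 / 2 : ℂ) * (e5 - e1 - e2) - e6 + e3 - e4
  obtain ⟨y, hy⟩ := Set.ncard_eq_one.1 h1
  have hy' : ∀ d, (R.Sh o b d ∧ cls p d = k ∧ d.snd ∈ X ∧
      ((R.Tri d ∧ d.fst ∉ X ∧ (R.phi d).snd ∉ X) ∨ R.Acu k d)) ↔ d = y := fun d => by
    have := Set.ext_iff.1 hy d
    simpa only [Set.mem_ofPred_eq, Set.mem_singleton_iff] using this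
  obtain ⟨y1, y2, y3, y4⟩ := (hy' y).2 rfl
  have uz : ∀ d, R.Sh o b d ∧ R.Tri d → d ≠ y → u d = 0 := fun d a ne =>
    if_neg fun c => ne ((hy' d).1 ⟨a.1, c.1, c.2.1, Or.inl ⟨a.2, c.2.2⟩⟩)
  have wz : ∀ d, R.Sh o b d → d ≠ y → w d = 0 := fun d a ne =>
    if_neg fun c => ne ((hy' d).1 ⟨a, c.1.2.1, c.2, Or.inr c.1⟩)
  have main : ∑ d with (R.phi.SameCycle b d ∧ cls p d = k), vec p d =
      ∑ d with (R.Sh o b d ∧ R.Rho d), w d * (vec p d + vec p (R.phi d)) -
      ∑ d with (R.Sh o b d ∧ R.Tri d), u d := by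
    linear_combination g0 - split - sT - sR
  rw [main]
  rcases y4 with ⟨t1, t2, t3⟩ | q
  · rw [Finset.sum_eq_zero, Finset.sum_eq_single_of_mem y (by simp [y1, t1])
      (fun d hd ne => uz d (Finset.mem_filter.1 hd).2 ne)]
    · have : u y = vec p (R.phi (R.phi y)) := if_pos ⟨y2, y3, t2, t3⟩
      rw [this, zero_sub, norm_neg]
      refine ⟨hm.norm_vec _, ?_⟩
      have c : vec p (R.phi (R.phi y)) ^ 6 = k :=
        ((t1.phi.cls_phi hm).trans (t1.cls_phi hm)).trans y2
      linear_combination c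
    · intro d hd
      obtain ⟨s, a⟩ := (Finset.mem_filter.1 hd).2
      rw [wz d s (fun c => t1.not_rho (c ▸ a)), zero_mul]
  · rw [Finset.sum_eq_single_of_mem y (by simp [y1, q.1])
      (fun d hd ne => by rw [wz d (Finset.mem_filter.1 hd).2.1 ne, zero_mul]),
      Finset.sum_eq_zero (fun d hd => uz d (Finset.mem_filter.1 hd).2
        (fun c => (Finset.mem_filter.1 hd).2.2.not_rho (c ▸ q.1)))]
    have : w y = 1 := if_pos ⟨q, y3⟩
    rw [this, one_mul, sub_zero]
    exact TVec_acu hm q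

end Pool.Agent.Mst
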