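import Pool.Agent.P.MP_e0c7cd_co.Two0

namespace Pool.Agent.Mst

open Complex Real

variable {V : Type} {G : SimpleGraph V} {p : V → ℂ}

theorem TWeight_all [Fintype V] (R : Rot G p) (hm : IsMatchstick G p) (v : V) (a0 : G.Dart)
    (h : ∀ a : G.Dart, a.fst = v → a ≠ a0 → cls p (R.rho a) = cls p a) {a b : G.Dart}
    (ha : a.fst = v) (hb : b.fst = v) : cls p a = cls p b := by
  classical
  have h0 : ∀ a : G.Dart, a.fst = v → cls p (R.rho a) = cls p a := by
    intro a ha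
    by_cases h1 : a = a0
    · have s1 : ∑ x : G.Dart with x.fst = v, cls p (R.rho x) = ∑ x : G.Dart with x.fst = v, cls p x :=
        Finset.sum_equiv R.rho (fun d => by simp [R.fst]) fun d _ => rfl
      have hmem : a ∈ Finset.univ.filter fun x : G.Dart => x.fst = v := by simp [ha]
      rw [← Finset.add_sum_erase _ _ hmem, ← Finset.add_sum_erase _ _ hmem] at s1
      have s2 : ∑ x ∈ (Finset.univ.filter fun x : G.Dart => x.fst = v).erase a, cls p (R.rho x) =
          ∑ x ∈ (Finset.univ.filter fun x : G.Dart => x.fst = v).erase a, cls p x :=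
        Finset.sum_congr rfl fun x hx => h x (by simpa using (Finset.mem_erase.1 hx).2)
          (h1 ▸ (Finset.mem_erase.1 hx).1)
      rw [s2] at s1
      exact add_right_cancel s1
    · exact h a ha h1
  have := R.const_of_rho hm (fun a => if a.fst = v then cls p a else 0)
    (fun a => by
      by_cases h1 : a.fst = v
      · simp only [R.fst, h1, if_true, h0 a h1]
      · simp only [R.fst, h1, if_false]) (ha.trans hb.symm)
  simpa [ha, hb] using this

theorem Rot.Two.vertex_le [Fintype V] {R : Rot G p} {o b : G.Dart} (h : R.Two o b) (v : V)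
    (ho : ∀ e, R.phi.SameCycle o e → e.snd ≠ v) (hb : ∀ e, R.phi.SameCycle b e → e.snd ≠ v) :
    {d : G.Dart | d.snd = v ∧ (R.Obt (cls p d) d ∨
      ((R.Tri d ∨ R.Acu (cls p d) d) ∧ v ∈ R.side (cls p d) b))}.ncard ≤ 2 := by
  classical
  by_contra hc
  set S := {d : G.Dart | d.snd = v ∧ (R.Obt (cls p d) d ∨
      ((R.Tri d ∨ R.Acu (cls p d) d) ∧ v ∈ R.side (cls p d) b))} with hS
  have h4 := h.hreg.ncard_snd v
  have hsub : S ⊆ {d : G.Dart | d.snd = v} := fun d hd => hd.1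
  have h5 := Set.ncard_sdiff_add_ncard_of_subset hsub (Set.toFinite _)
  obtain ⟨d1, hd1⟩ : S.Nonempty := (Set.ncard_pos (Set.toFinite _)).1 (by omega)
  obtain ⟨d0, hd0⟩ : ∃ d0 : G.Dart, ∀ d : G.Dart, d.snd = v → d ≠ d0 → d ∈ S := by
    rcases (Set.ncard_le_one_iff_eq (s := {d : G.Dart | d.snd = v} \ S) (Set.toFinite _)).1
      (by omega) with h6 | ⟨d0, h6⟩
    · refine ⟨d1, fun d hd _ => ?_⟩
      by_contra h7
      have : d ∈ {d : G.Dart | d.snd = v} \ S := ⟨hd, h7⟩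
      rw [h6] at this
      exact this
    · refine ⟨d0, fun d hd hne => ?_⟩
      by_contra h7
      have : d ∈ {d : G.Dart | d.snd = v} \ S := ⟨hd, h7⟩
      rw [h6] at this
      exact hne this
  have hall : ∀ a c : G.Dart, a.fst = v → c.fst = v → cls p a = cls p c := fun a c ha hc' => by
    refine TWeight_all R h.hm v d0.symm (fun x hx hne => ?_) ha hc'
    have h6 := hd0 x.symm hx (fun h7 => hne (by rw [← h7]; simp))
    have h7 : R.rho x = R.phi x.symm := by rw [R.phi_apply]; simp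
    rw [h7, ← cls_symm x]
    rcases h6.2 with h8 | ⟨h8 | h8, -⟩
    exacts [h8.2.2.1, h8.cls_phi h.hm, h8.2.2.1]
  have hobt : ∀ d ∈ S, R.theta d = 2 * π / 3 := by
    intro d hd
    rcases hd.2 with h6 | ⟨-, e, he, h6⟩
    · exact h6.2.2.2
    · exfalso
      have h7 : (compSetoid G p (cls p d)).r e.snd v := Quotient.exact h6
      have key : ∀ x y, (compSetoid G p (cls p d)).r x y → (x = v ↔ y = v) := by
        intro x y hxy
        induction hxy with
        | rel x y hxy =>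
          obtain ⟨c, c1, rfl, rfl⟩ := hxy
          have c2 : c.fst ≠ v := fun c3 => c1 (by
            rw [← cls_symm d]; exact hall c d.symm c3 hd.1)
          have c3 : c.snd ≠ v := fun c3 => c1 (by
            rw [← cls_symm d, ← cls_symm c]; exact hall c.symm d.symm c3 hd.1)
          simp [c2, c3]
        | refl x => rfl
        | symm x y _ ih => exact ih.symm
        | trans x y z _ _ ih1 ih2 => exact ih1.trans ih2
      exact hb e he ((key _ _ h7).2 rfl)
  have hsum := R.sum_theta h.hm d1.symm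
  have hv : d1.symm.fst = v := hd1.1
  rw [hv] at hsum
  have hp := Real.pi_pos
  have hS3 : (3 : ℝ) ≤ S.toFinset.card := by
    have : 3 ≤ S.toFinset.card := by rw [← Set.ncard_eq_toFinset_card']; omega
    exact_mod_cast this
  have hsub' : S.toFinset ⊆ Finset.univ.filter fun d : G.Dart => d.snd = v := by
    intro d hd
    simpa using (Set.mem_toFinset.1 hd).1
  have e1 := Finset.sum_sdiff (f := R.theta) hsub'
  have e2 : ∑ d ∈ S.toFinset, R.theta d = S.toFinset.card * (2 * π / 3) := by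
    rw [Finset.sum_congr rfl fun d hd => hobt d (Set.mem_toFinset.1 hd)]
    simp
  have e3 : 0 ≤ ∑ d ∈ (Finset.univ.filter fun d : G.Dart => d.snd = v) \ S.toFinset, R.theta d :=
    Finset.sum_nonneg fun d _ => (R.theta_pos d).le
  have e4 : ∑ d ∈ Finset.univ.filter fun d : G.Dart => d.snd = v, R.theta d = 2 * π := hsum
  by_cases h6 : S.ncard = 4
  · have : (S.toFinset.card : ℝ) = 4 := by
      have : S.toFinset.card = 4 := by rw [← Set.ncard_eq_toFinset_card']; exact h6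
      exact_mod_cast this
    rw [this] at e2
    linarith
  · obtain ⟨x, hx⟩ : ({d : G.Dart | d.snd = v} \ S).Nonempty :=
      (Set.ncard_pos (Set.toFinite _)).1 (by
        have := Set.ncard_le_ncard hsub (Set.toFinite _)
        omega)
    have e5 : 0 < ∑ d ∈ (Finset.univ.filter fun d : G.Dart => d.snd = v) \ S.toFinset, R.theta d :=
      Finset.sum_pos (fun d _ => R.theta_pos d) ⟨x, by simpa using hx⟩
    nlinarith

theorem TWeight_heads [Fintype V] (R : Rot G p) {x : G.Dart} (hx : R.Simple x) :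
    {v | ∃ e, R.phi.SameCycle x e ∧ e.snd = v}.ncard = R.fl x := by
  have : {v | ∃ e, R.phi.SameCycle x e ∧ e.snd = v} =
      (fun e : G.Dart => e.snd) '' {e | R.phi.SameCycle x e} := rfl
  rw [this, Set.InjOn.ncard_image]
  · rfl
  · intro d hd e he hde
    exact hx d e hd he hde

theorem TWeight_fiber {D W : Type} [Finite D] [Finite W] (c : D → W) (T : Set W) (P : D → Prop)
    (h : ∀ v ∈ T, {d | c d = v ∧ P d}.ncard ≤ 2) : {d | P d ∧ c d ∈ T}.ncard ≤ 2 * T.ncard := by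
  classical
  have := Fintype.ofFinite D
  have := Fintype.ofFinite W
  rw [Set.ncard_eq_toFinset_card', Set.ncard_eq_toFinset_card' T,
    Finset.card_eq_sum_card_fiberwise (f := c) (t := T.toFinset) (fun d hd => by
      simpa using (by simpa using hd : P d ∧ c d ∈ T).2), mul_comm, ← smul_eq_mul]
  refine Finset.sum_le_card_nsmul _ _ _ fun v hv => le_trans ?_ (h v (Set.mem_toFinset.1 hv))
  rw [← Set.ncard_coe_finset]
  refine Set.ncard_le_ncard ?_ (Set.toFinite _)
  intro d hd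
  simp only [Finset.coe_filter, Set.mem_toFinset, Set.mem_ofPred_eq] at hd
  exact ⟨hd.2, hd.1.1⟩

theorem Rot.Two.weight [Fintype V] {R : Rot G p} {o b : G.Dart} (h : R.Two o b)
    (hF : ∀ e : G.Dart, R.Facts o b (cls p e)) (ho : R.Simple o) (hb : R.Simple b) :
    {d | R.Sh b o d ∧ (R.Tri d ∨ R.Acu (cls p d) d) ∧ d.snd ∈ R.side (cls p d) b}.ncard +
        2 * R.fl o + 2 * R.fl b ≤
      2 * Fintype.card V +
        {d | R.Sh b o d ∧ R.Tri d ∧ ∃ e, R.phi.SameCycle b e ∧ e.snd = d.snd}.ncard := by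
  classical
  set VO := {v | ∃ e, R.phi.SameCycle o e ∧ e.snd = v} with hVO
  set VB := {v | ∃ e, R.phi.SameCycle b e ∧ e.snd = v} with hVB
  have mO : ∀ k v, v ∈ VO → v ∈ R.side k o := by
    rintro k v ⟨e, he, rfl⟩
    exact R.snd_mem_side k he
  have mB : ∀ k v, v ∈ VB → v ∈ R.side k b := by
    rintro k v ⟨e, he, rfl⟩
    exact R.snd_mem_side k he
  have hdis : Disjoint VO VB :=
    Set.disjoint_of_subset (mO (cls p o)) (mB (cls p o)) (hF o).disj
  have c1 : VO.ncard = R.fl o := TWeight_heads R ho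
  have c2 : VB.ncard = R.fl b := TWeight_heads R hb
  have c3 := Set.ncard_union_eq hdis (Set.toFinite _) (Set.toFinite _)
  have c4 := Set.ncard_add_ncard_compl (VO ∪ VB)
  rw [Nat.card_eq_fintype_card] at c4
  have c5 := TWeight_fiber (fun d : G.Dart => d.snd) (VO ∪ VB)ᶜ
    (fun d => R.Obt (cls p d) d ∨
      ((R.Tri d ∨ R.Acu (cls p d) d) ∧ d.snd ∈ R.side (cls p d) b)) (fun v hv => by
      refine le_trans (le_of_eq (nc_congr fun d => ?_)) (h.vertex_le v
        (fun e he h1 => hv (Or.inl ⟨e, he, h1⟩)) (fun e he h1 => hv (Or.inr ⟨e, he, h1⟩)))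
      constructor
      · rintro ⟨rfl, h1⟩
        exact ⟨rfl, h1⟩
      · rintro ⟨rfl, h1⟩
        exact ⟨rfl, h1⟩)
  have c6 := nc_split (fun d : G.Dart => (R.Obt (cls p d) d ∨
      ((R.Tri d ∨ R.Acu (cls p d) d) ∧ d.snd ∈ R.side (cls p d) b)) ∧ d.snd ∈ (VO ∪ VB)ᶜ)
    (fun d => R.Obt (cls p d) d)
  have c7 : {d | R.Sh b o d ∧ R.Obt (cls p d) d}.ncard ≤
      {d : G.Dart | ((R.Obt (cls p d) d ∨
      ((R.Tri d ∨ R.Acu (cls p d) d) ∧ d.snd ∈ R.side (cls p d) b)) ∧ d.snd ∈ (VO ∪ VB)ᶜ) ∧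
      R.Obt (cls p d) d}.ncard := by
    refine Set.ncard_le_ncard ?_ (Set.toFinite _)
    rintro d ⟨h1, h2⟩
    have h3 := (hF d).noObt d ((R.sh_comm _ _ _).1 h1) h2
    refine ⟨⟨Or.inl h2, ?_⟩, h2⟩
    rintro (h4 | h4)
    exacts [h3.1 (mO _ _ h4), h3.2 (mB _ _ h4)]
  have c8 := nc_split (fun d : G.Dart =>
    R.Sh b o d ∧ (R.Tri d ∨ R.Acu (cls p d) d) ∧ d.snd ∈ R.side (cls p d) b)
    (fun d => d.snd ∈ VB)
  have hp := Real.pi_pos
  have c9 : {d : G.Dart | (R.Sh b o d ∧ (R.Tri d ∨ R.Acu (cls p d) d) ∧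
      d.snd ∈ R.side (cls p d) b) ∧ ¬ d.snd ∈ VB}.ncard ≤
      {d : G.Dart | ((R.Obt (cls p d) d ∨
      ((R.Tri d ∨ R.Acu (cls p d) d) ∧ d.snd ∈ R.side (cls p d) b)) ∧ d.snd ∈ (VO ∪ VB)ᶜ) ∧
      ¬ R.Obt (cls p d) d}.ncard := by
    refine Set.ncard_le_ncard ?_ (Set.toFinite _)
    rintro d ⟨⟨-, h2, h3⟩, h4⟩
    refine ⟨⟨Or.inr ⟨h2, h3⟩, ?_⟩, fun h5 => ?_⟩
    · rintro (h5 | h5)
      exacts [Set.disjoint_left.1 (hF d).disj (mO _ _ h5) h3, h4 h5]
    · rcases h2 with h2 | h2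
      · exact h2.not_rho h5.1
      · linarith [h2.2.2.2, h5.2.2.2]
  have c10 : {d : G.Dart | (R.Sh b o d ∧ (R.Tri d ∨ R.Acu (cls p d) d) ∧
      d.snd ∈ R.side (cls p d) b) ∧ d.snd ∈ VB}.ncard ≤
      {d | R.Sh b o d ∧ R.Tri d ∧ ∃ e, R.phi.SameCycle b e ∧ e.snd = d.snd}.ncard +
        {d | R.Sh b o d ∧ R.Acu (cls p d) d}.ncard := by
    refine le_trans (Set.ncard_le_ncard ?_ (Set.toFinite _)) (Set.ncard_union_le _ _)
    rintro d ⟨⟨h1, h2 | h2, -⟩, h4⟩
    exacts [Or.inl ⟨h1, h2, h4⟩, Or.inr ⟨h1, h2⟩]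
  have c11 : {d | R.Sh b o d ∧ R.Acu (cls p d) d}.ncard =
      {d | R.Sh b o d ∧ R.Obt (cls p d) d}.ncard := by
    refine nc_perm R.phi fun d => ?_
    rw [R.sh_phi]
    constructor
    · rintro ⟨b1, b2, -, b4, b5⟩
      refine ⟨b1, b2.phi, rfl, by rw [b2.cls_phi_phi, b4], ?_⟩
      linarith [b2.2.2.2.1]
    · rintro ⟨b1, b2, -, b4, b5⟩
      refine ⟨b1, b2.of_phi, rfl, by rw [← b4, b2.of_phi.cls_phi_phi], ?_⟩
      linarith [b2.of_phi.2.2.2.1]
  omega

end Pool.Agent.Mst
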