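import Pool.Agent.P.MP_e0c7cd_co.Two0

namespace Pool.Agent.Mst

open Complex Real

variable {V : Type} {G : SimpleGraph V} {p : V → ℂ}

theorem TY_orbit {D : Type} [Finite D] (f : Equiv.Perm D) (P : D → Prop)
    (hP : ∀ x, P x → P (f x)) {d e : D} (hd : P d) (h : f.SameCycle d e) : P e := by
  obtain ⟨i, -, rfl⟩ := h.exists_pow_eq'
  induction i with
  | zero => simpa using hd
  | succ n ih =>
    rw [pow_succ', Equiv.Perm.mul_apply]
    exact hP _ (ih ⟨(n : ℤ), by simp⟩)

theorem TY_out [Fintype V] {R : Rot G p} {o b : G.Dart} (h : R.Two o b) {k : ℂ}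
    (hF : R.Facts o b k)
    (hy : ∀ d, R.Sh o b d → cls p d = k → d.snd ∈ R.side k o →
      ¬ ((R.Tri d ∧ d.fst ∉ R.side k o ∧ (R.phi d).snd ∉ R.side k o) ∨ R.Acu k d))
    {d : G.Dart} (hk : cls p d = k) (hf : d.fst ∉ R.side k o) (hs : d.snd ∉ R.side k o)
    {e : G.Dart} (he : R.phi.SameCycle d e) : e.snd ∉ R.side k o := by
  classical
  by_cases hb : R.phi.SameCycle b d
  · exact fun hx => Set.disjoint_left.1 hF.disj hx (R.snd_mem_side k (hb.trans he))
  have ho : ¬ R.phi.SameCycle o d := fun ho => hs (R.snd_mem_side k ho)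
  have sh0 : R.Sh o b d := ⟨ho, hb⟩
  have sh1 : R.Sh o b (R.phi d) := (R.sh_phi _ _ _).2 sh0
  have sh2 : R.Sh o b (R.phi (R.phi d)) := (R.sh_phi _ _ _).2 sh1
  rcases h.good d sh0 with ht | hr
  · have h3 : (R.phi (R.phi d)).snd ∉ R.side k o := by rw [ht.phi_phi_snd]; exact hf
    have h2 : (R.phi d).snd ∉ R.side k o := fun hx =>
      hy _ sh1 ((ht.cls_phi h.hm).trans hk) hx
        (Or.inl ⟨ht.phi, by rw [R.phi_fst]; exact hs, h3⟩)
    have hP := TY_orbit R.phi (fun x => x = d ∨ x = R.phi d ∨ x = R.phi (R.phi d))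
      (by
        rintro x (rfl | rfl | rfl)
        · exact Or.inr (Or.inl rfl)
        · exact Or.inr (Or.inr rfl)
        · exact Or.inl ht.1) (Or.inl rfl) he
    rcases hP with rfl | rfl | rfl
    · exact hs
    · exact h2
    · exact h3
  · have h4 : (R.phi (R.phi (R.phi d))).snd ∉ R.side k o := by
      rw [hr.phi_phi_phi_snd]; exact hf
    have c2 : cls p (R.phi (R.phi d)) = k := hr.cls_phi_phi.trans hk
    have c3 : cls p (R.phi (R.phi (R.phi d))) = cls p (R.phi d) := hr.phi.cls_phi_phi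
    have h23 : (R.phi d).snd ∉ R.side k o ∧ (R.phi (R.phi d)).snd ∉ R.side k o := by
      by_cases c1 : cls p (R.phi d) = k
      · constructor
        · rcases hr.phi.obt_or_acu h.hm c1 c2 with h5 | h5
          · exact (hF.noObt _ sh1 h5).1
          · exact fun hx => hy _ sh1 c1 hx (Or.inr h5)
        · rcases hr.phi.phi.obt_or_acu h.hm c2 (c3.trans c1) with h5 | h5
          · exact (hF.noObt _ sh2 h5).1
          · exact fun hx => hy _ sh2 c2 hx (Or.inr h5)
      · constructor
        · rw [← R.side_iff o c1, R.phi_fst]; exact hs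
        · have c4 : cls p (R.phi (R.phi (R.phi d))) ≠ k := by rw [c3]; exact c1
          rw [← R.phi_fst (R.phi (R.phi d)), R.side_iff o c4]; exact h4
    have hP := TY_orbit R.phi
      (fun x => x = d ∨ x = R.phi d ∨ x = R.phi (R.phi d) ∨ x = R.phi (R.phi (R.phi d)))
      (by
        rintro x (rfl | rfl | rfl | rfl)
        · exact Or.inr (Or.inl rfl)
        · exact Or.inr (Or.inr (Or.inl rfl))
        · exact Or.inr (Or.inr (Or.inr rfl))
        · exact Or.inl hr.1) (Or.inl rfl) he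
    rcases hP with rfl | rfl | rfl | rfl
    · exact hs
    · exact h23.1
    · exact h23.2
    · exact h4

theorem Rot.Two.y_pos [Fintype V] {R : Rot G p} {o b : G.Dart} (h : R.Two o b) {k : ℂ}
    (hF : R.Facts o b k) (h1 : 1 ≤ R.flk k o) (h2 : 1 ≤ R.flk k b) : 1 ≤ R.yS o b k := by
  classical
  by_contra hc
  have h0 : R.yS o b k = 0 := by omega
  have hy : ∀ d, R.Sh o b d → cls p d = k → d.snd ∈ R.side k o →
      ¬ ((R.Tri d ∧ d.fst ∉ R.side k o ∧ (R.phi d).snd ∉ R.side k o) ∨ R.Acu k d) := by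
    intro d a1 a2 a3 a4
    have h5 := (Set.ncard_eq_zero (Set.toFinite _)).1 h0
    exact (Set.eq_empty_iff_forall_notMem.1 h5) d ⟨a1, a2, a3, a4⟩
  obtain ⟨x, hx, hxk⟩ := (Set.ncard_pos (Set.toFinite _)).1 h1
  obtain ⟨y, hyb, hyk⟩ := (Set.ncard_pos (Set.toFinite _)).1 h2
  let P : G.Dart → Prop := fun d => ∀ e, R.phi.SameCycle d e → e.snd ∉ R.side k o
  have hPk : ∀ d, cls p d = k → (P d ↔ d.fst ∉ R.side k o ∧ d.snd ∉ R.side k o) := by
    intro d hk
    constructor
    · intro hP
      refine ⟨?_, hP d (Equiv.Perm.SameCycle.refl _ _)⟩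
      have e1 : R.phi (R.phi.symm d) = d := by simp
      have e2 := R.phi_fst (R.phi.symm d)
      rw [e1] at e2
      rw [e2]
      exact hP _ (by rw [← R.same_phi, e1])
    · rintro ⟨a1, a2⟩ e he
      exact TY_out h hF hy hk a1 a2 he
  have hkl := hF.kl (fun d => if P d then 1 else 0)
    (fun d => by
      have : P (R.phi d) ↔ P d := by
        simp only [P, Equiv.Perm.sameCycle_apply_left]
      simp only [this])
    (fun d hk => by
      have : P d.symm ↔ P d := by
        rw [hPk d hk, hPk d.symm ((cls_symm d).trans hk)]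
        exact and_comm
      simp only [this]) x y hxk hyk
  have hx0 : ¬ P x := fun hP => ((hPk x hxk).1 hP).2 (R.snd_mem_side k hx)
  have hy1 : P y := (hPk y hyk).2
    ⟨fun hz => Set.disjoint_left.1 hF.disj hz (R.fst_mem_side k hyb),
      fun hz => Set.disjoint_left.1 hF.disj hz (R.snd_mem_side k hyb)⟩
  simp only [hx0, hy1, if_true, if_false] at hkl
  exact zero_ne_one hkl

end Pool.Agent.Mst
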