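import Pool.Agent.P.MP_e0c7cd_co.TFacts
import Pool.Agent.P.MP_e0c7cd_co.TAngle
import Pool.Agent.P.MP_e0c7cd_co.TSide
import Pool.Agent.P.MP_e0c7cd_co.TFull
import Pool.Agent.P.MP_e0c7cd_co.TSplitC
import Pool.Agent.P.MP_e0c7cd_co.TY
import Pool.Agent.P.MP_e0c7cd_co.TVec
import Pool.Agent.P.MP_e0c7cd_co.TEis
import Pool.Agent.P.MP_e0c7cd_co.TSimple
import Pool.Agent.P.MP_e0c7cd_co.THopfF
import Pool.Agent.P.MP_e0c7cd_co.TWeight

namespace Pool.Agent.Mst

open Complex Real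

theorem nc_sum {D : Type} [Fintype D] (c : D → ℂ) (C : Finset ℂ) (hC : ∀ d, c d ∈ C)
    (P : D → Prop) : {d | P d}.ncard = ∑ k ∈ C, {d | P d ∧ c d = k}.ncard := by
  classical
  rw [Set.ncard_eq_toFinset_card', Finset.card_eq_sum_card_fiberwise
    (f := c) (t := C) (fun d _ => hC d)]
  refine Finset.sum_congr rfl fun k _ => ?_
  rw [Set.ncard_eq_toFinset_card']
  congr 1
  ext d
  simp

variable {V : Type} {G : SimpleGraph V} {p : V → ℂ}

theorem Rot.Two.exact [Fintype V] {R : Rot G p} {o b : G.Dart} (h : R.Two o b) (e : G.Dart) :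
    R.tS o b (cls p e) + 3 * R.cS o b (cls p e) = 3 * R.fl o + 6 * R.flk (cls p e) o ∧
      R.tS b o (cls p e) + 3 * R.cS b o (cls p e) = 3 * R.fl b + 6 * R.flk (cls p e) b ∧
      R.cS o b (cls p e) + R.cS b o (cls p e) = 3 * (R.flk (cls p e) o + R.flk (cls p e) b) ∧
      π * (2 * (R.cS b o (cls p e) : ℝ) - 6 * R.flk (cls p e) b) = 6 * R.turn b := by
  have hF := h.facts e
  have h1 := h.side_angle hF
  have h2 := h.symm.side_angle hF.symm
  have h3 := h.tri_eq.1
  have h4 := h.turn_sum h3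
  have h5 := h.side_rank hF e rfl
  have h6 := h.symm.side_rank hF.symm e rfl
  have h7 := Rot.Two.tS_add_le hF
  have h8 := hF.tri
  have hp := Real.pi_pos
  have h9 : ((R.cS o b (cls p e) + R.tS o b (cls p e) + (R.cS b o (cls p e) + R.tS b o (cls p e))
      : ℕ) : ℝ) = ((3 * (R.fl o + R.fl b) : ℕ) : ℝ) := by
    push_cast
    apply mul_left_cancel₀ hp.ne'
    linarith
  have h10 := Nat.cast_injective h9
  have h11 : R.tS b o (cls p e) + 3 * R.cS b o (cls p e) = 3 * R.fl b + 6 * R.flk (cls p e) b := by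
    omega
  refine ⟨by omega, h11, by omega, ?_⟩
  have h12 : (R.tS b o (cls p e) : ℝ) + 3 * R.cS b o (cls p e) =
      3 * R.fl b + 6 * R.flk (cls p e) b := by exact_mod_cast h11
  have h13 : π * ((R.tS b o (cls p e) : ℝ) + 3 * R.cS b o (cls p e)) =
      π * (3 * R.fl b + 6 * R.flk (cls p e) b) := by rw [h12]
  linarith

theorem Rot.Two.flk_pos [Fintype V] {R : Rot G p} {o b : G.Dart} (h : R.Two o b)
    (ht : 0 ≤ R.turn b) (e : G.Dart) : 1 ≤ R.flk (cls p e) o := by
  by_contra h0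
  have h1 := h.cS_pos (h.facts e) (by omega)
  obtain ⟨-, -, h2, h3⟩ := h.exact e
  have h4 : R.cS b o (cls p e) + 1 ≤ 3 * R.flk (cls p e) b := by omega
  have h5 : (R.cS b o (cls p e) : ℝ) + 1 ≤ 3 * R.flk (cls p e) b := by exact_mod_cast h4
  have hp := Real.pi_pos
  nlinarith

theorem Rot.Two.turn_ge [Fintype V] {R : Rot G p} {o b : G.Dart} (h : R.Two o b)
    (ht : 0 ≤ R.turn b) : 2 * π ≤ R.turn b := by
  obtain ⟨n, hn⟩ := R.hopf h.hm h.hreg b (h.simple_b h.facts (h.flk_pos ht))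
  have hp := Real.pi_pos
  have h1 : (0 : ℝ) ≤ 2 * n + 1 := by
    by_contra hc
    push Not at hc
    nlinarith
  have h2 : (0 : ℤ) ≤ 2 * n + 1 := by exact_mod_cast h1
  have h3 : (0 : ℤ) ≤ n := by omega
  have h4 : (0 : ℝ) ≤ n := by exact_mod_cast h3
  nlinarith

theorem Rot.Two.class_bounds [Fintype V] {R : Rot G p} {o b : G.Dart} (h : R.Two o b)
    (ht : 0 ≤ R.turn b) (e : G.Dart) :
    3 * R.flk (cls p e) b + 6 ≤ R.cS b o (cls p e) ∧
      R.tS b o (cls p e) + 3 * R.flk (cls p e) b + 18 ≤ 3 * R.fl b ∧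
      6 + R.yS o b (cls p e) ≤ R.flk (cls p e) o := by
  obtain ⟨h1, h2, h3, h4⟩ := h.exact e
  have h5 := h.turn_ge ht
  have hp := Real.pi_pos
  have h6 : 3 * (R.flk (cls p e) b : ℝ) + 6 ≤ R.cS b o (cls p e) := by
    by_contra hc
    push Not at hc
    nlinarith
  have h7 : 3 * R.flk (cls p e) b + 6 ≤ R.cS b o (cls p e) := by exact_mod_cast h6
  have h8 := h.full_rank (h.facts e)
  have h9 := h.cS_eq (cls p e)
  omega

theorem flk_pos_of_mem [Fintype V] (R : Rot G p) {x e : G.Dart} (h : R.phi.SameCycle x e) :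
    1 ≤ R.flk (cls p e) x := by
  classical
  exact (Set.ncard_pos (Set.toFinite _)).2 ⟨e, h, rfl⟩

theorem Rot.Two.y_two [Fintype V] {R : Rot G p} {o b : G.Dart} (h : R.Two o b)
    (ht : 0 ≤ R.turn b) {e : G.Dart} (he : R.phi.SameCycle b e) {l : ℂ} (hl : cls p e ≠ l)
    (hall : ∀ d : G.Dart, cls p d = cls p e ∨ cls p d = l) : 2 ≤ R.yS o b (cls p e) := by
  classical
  have h1 := h.y_pos (h.facts e) (h.flk_pos ht e) (flk_pos_of_mem R he)
  by_contra hc
  obtain ⟨h2, h3⟩ := h.y_one (h.facts e) (by omega)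
  have h4 := R.face_sum b
  rw [← Finset.sum_filter_add_sum_filter_not _ (fun d => cls p d = cls p e), Finset.filter_filter,
    Finset.filter_filter] at h4
  have h5 := eq_neg_of_add_eq_zero_right h4
  have h6 := eis_sum (Finset.univ.filter fun d : G.Dart =>
    R.phi.SameCycle b d ∧ ¬ cls p d = cls p e) (vec p) l (fun d _ => h.hm.norm_vec d)
    (fun d hd => (hall d).resolve_left (Finset.mem_filter.1 hd).2.2)
    (by rw [h5, norm_neg]; exact h2)
  rw [h5, Even.neg_pow (by decide), h3] at h6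
  exact hl h6

theorem Rot.Two.main [Fintype V] {R : Rot G p} {o b : G.Dart} (h : R.Two o b)
    (ht : 0 ≤ R.turn b) : 52 ≤ Fintype.card V := by
  classical
  set C : Finset ℂ := Finset.univ.image (fun d : G.Dart => cls p d) with hCdef
  have hC : ∀ d : G.Dart, cls p d ∈ C := fun d => Finset.mem_image_of_mem _ (Finset.mem_univ d)
  have hC' : ∀ k ∈ C, ∃ e : G.Dart, cls p e = k := fun k hk => by
    obtain ⟨e, -, he⟩ := Finset.mem_image.1 hk
    exact ⟨e, he⟩
  have hK := h.flk_pos ht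
  have hw := h.weight h.facts (h.simple_o h.facts hK) (h.simple_b h.facts hK)
  have sJ : R.fl b = ∑ k ∈ C, R.flk k b := nc_sum (cls p) C hC _
  have sK : R.fl o = ∑ k ∈ C, R.flk k o := nc_sum (cls p) C hC _
  have s1 : {d | R.Sh b o d ∧ (R.Tri d ∨ R.Acu (cls p d) d) ∧ d.snd ∈ R.side (cls p d) b}.ncard =
      ∑ k ∈ C, R.cS b o k := by
    rw [nc_sum (cls p) C hC]
    refine Finset.sum_congr rfl fun k _ => nc_congr fun d => ?_
    constructor
    · rintro ⟨⟨a1, a2, a3⟩, rfl⟩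
      exact ⟨a1, rfl, a2, a3⟩
    · rintro ⟨a1, rfl, a2, a3⟩
      exact ⟨⟨a1, a2, a3⟩, rfl⟩
  have s2 : 3 * R.fl b + 6 * C.card ≤ ∑ k ∈ C, R.cS b o k := by
    rw [sJ, Finset.mul_sum, mul_comm 6, ← smul_eq_mul, ← Finset.sum_const,
      ← Finset.sum_add_distrib]
    refine Finset.sum_le_sum fun k hk => ?_
    obtain ⟨e, rfl⟩ := hC' k hk
    exact (h.class_bounds ht e).1
  set cB := {d | R.Sh b o d ∧ R.Tri d ∧ ∃ e, R.phi.SameCycle b e ∧ e.snd = d.snd}.ncard with hcB
  have s3 : cB = ∑ k ∈ C, {d | (R.Sh b o d ∧ R.Tri d ∧ ∃ e, R.phi.SameCycle b e ∧ e.snd = d.snd) ∧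
      cls p d = k}.ncard := nc_sum (cls p) C hC _
  have s4 : C.card * (cB + 18) + 3 * R.fl b ≤ C.card * (3 * R.fl b) + cB := by
    conv_lhs => rw [sJ]
    conv_rhs => rw [s3]
    rw [Finset.mul_sum, ← smul_eq_mul, ← smul_eq_mul C.card, ← Finset.sum_const,
      ← Finset.sum_const, ← Finset.sum_add_distrib, ← Finset.sum_add_distrib]
    refine Finset.sum_le_sum fun k hk => ?_
    obtain ⟨e, rfl⟩ := hC' k hk
    have b1 := (h.class_bounds ht e).2.1
    have b2 := nc_split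
      (fun d => R.Sh b o d ∧ R.Tri d ∧ ∃ e, R.phi.SameCycle b e ∧ e.snd = d.snd)
      (fun d => cls p d = cls p e)
    have b3 : {d | (R.Sh b o d ∧ R.Tri d ∧ ∃ e, R.phi.SameCycle b e ∧ e.snd = d.snd) ∧
        ¬ cls p d = cls p e}.ncard ≤ R.tS b o (cls p e) := by
      refine Set.ncard_le_ncard ?_ (Set.toFinite _)
      rintro d ⟨⟨a1, a2, e', a3, a4⟩, a5⟩
      exact ⟨a1, a2, a5, a4 ▸ R.snd_mem_side _ a3⟩
    omega
  have s5 : 6 * C.card + ∑ k ∈ C, R.yS o b k ≤ R.fl o := by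
    rw [sK, mul_comm 6, ← smul_eq_mul, ← Finset.sum_const, ← Finset.sum_add_distrib]
    refine Finset.sum_le_sum fun k hk => ?_
    obtain ⟨e, rfl⟩ := hC' k hk
    exact (h.class_bounds ht e).2.2
  obtain ⟨e, he1, he2⟩ : ∃ e, R.phi.SameCycle b e ∧ ¬ cls p e = cls p b := by
    have b1 := (h.class_bounds ht b).2.1
    have b2 := nc_split (fun d => R.phi.SameCycle b d) (fun d => cls p d = cls p b)
    have b3 : 0 < {d | R.phi.SameCycle b d ∧ ¬ cls p d = cls p b}.ncard := by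
      simp only [Rot.fl, Rot.flk] at b1
      omega
    exact (Set.ncard_pos (Set.toFinite _)).1 b3
  have hsub : ({cls p e, cls p b} : Finset ℂ) ⊆ C := by
    intro k hk
    rcases Finset.mem_insert.1 hk with rfl | hk
    · exact hC e
    · rw [Finset.mem_singleton.1 hk]
      exact hC b
  have s6 : R.yS o b (cls p e) + R.yS o b (cls p b) ≤ ∑ k ∈ C, R.yS o b k := by
    rw [← Finset.sum_pair (f := fun k => R.yS o b k) he2]
    exact Finset.sum_le_sum_of_subset hsub
  have s7 : 2 ≤ C.card := by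
    rw [← Finset.card_pair he2]
    exact Finset.card_le_card hsub
  have hb0 : R.phi.SameCycle b b := Equiv.Perm.SameCycle.refl _ _
  have y1 := h.y_pos (h.facts e) (hK e) (flk_pos_of_mem R he1)
  have y2 := h.y_pos (h.facts b) (hK b) (flk_pos_of_mem R hb0)
  rw [s1] at hw
  rcases Nat.lt_or_ge 2 C.card with hm | hm
  · rcases Nat.lt_or_ge 3 C.card with hm3 | hm3
    · have t1 : cB + 19 ≤ 3 * R.fl b := by
        by_contra hc
        push Not at hc
        obtain ⟨m, hm'⟩ : ∃ m, C.card = m + 1 := ⟨C.card - 1, by omega⟩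
        rw [hm'] at s4
        have : m * (3 * R.fl b) ≤ m * (cB + 18) := Nat.mul_le_mul_left _ (by omega)
        nlinarith
      omega
    · have hm' : C.card = 3 := by omega
      rw [hm'] at s2 s4 s5
      omega
  · have hm' : C.card = 2 := by omega
    have hCeq : ({cls p e, cls p b} : Finset ℂ) = C :=
      Finset.eq_of_subset_of_card_le hsub (by rw [Finset.card_pair he2]; exact hm)
    have hall : ∀ d : G.Dart, cls p d = cls p e ∨ cls p d = cls p b := fun d => by
      have := hC d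
      rw [← hCeq] at this
      simpa using this
    have z1 := h.y_two ht he1 he2 hall
    have z2 := h.y_two ht hb0 (fun x => he2 x.symm) (fun d => (hall d).symm)
    rw [hm'] at s2 s4 s5
    omega

theorem Rot.Two.bound [Fintype V] {R : Rot G p} {o b : G.Dart} (h : R.Two o b) :
    52 ≤ Fintype.card V := by
  have h1 := h.turn_sum h.tri_eq.1
  rcases le_total 0 (R.turn b) with ht | ht
  · exact h.main ht
  · exact h.symm.main (by linarith)

end Pool.Agent.Mst
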