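import Pool.Agent.P.MP_e0c7cd_co.Two0

namespace Pool.Agent.Mst

open Complex Real

variable {V : Type} {G : SimpleGraph V} {p : V → ℂ}

theorem THopfQ_mul {x y : ℂ} (hx : 0 < x.re) (hy : 0 < y.re) :
    Complex.arg (x * y) = Complex.arg x + Complex.arg y := by
  have hx0 : x ≠ 0 := fun h => by simp [h] at hx
  have hy0 : y ≠ 0 := fun h => by simp [h] at hy
  have h1 := abs_lt.1 (Complex.abs_arg_lt_pi_div_two_iff.2 (Or.inl hx))
  have h2 := abs_lt.1 (Complex.abs_arg_lt_pi_div_two_iff.2 (Or.inl hy))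
  rw [Complex.arg_mul_eq_add_arg_iff hx0 hy0]
  constructor <;> linarith [h1.1, h1.2, h2.1, h2.2]

theorem THopfQ_inv_re {x : ℂ} (hx : 0 < x.re) : 0 < (x⁻¹).re := by
  have hx0 : x ≠ 0 := fun h => by simp [h] at hx
  rw [Complex.inv_re]
  exact div_pos hx (Complex.normSq_pos.2 hx0)

theorem THopfQ_div {x y : ℂ} (hx : 0 < x.re) (hy : 0 < y.re) :
    Complex.arg (y / x) = Complex.arg y - Complex.arg x := by
  have h1 := abs_lt.1 (Complex.abs_arg_lt_pi_div_two_iff.2 (Or.inl hx))
  have h2 : Complex.arg x ≠ π := by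
    have := Real.pi_pos
    linarith [h1.2]
  rw [div_eq_mul_inv, THopfQ_mul hy (THopfQ_inv_re hx), Complex.arg_inv, if_neg h2]
  ring

theorem hopf_four {a b c d : ℂ} (h : Disjoint (segment ℝ a b) (segment ℝ c d)) :
    Complex.arg ((d - a) / (c - a)) + Complex.arg ((b - d) / (a - d)) =
      Complex.arg ((d - b) / (c - b)) + Complex.arg ((b - c) / (a - c)) := by
  have hc : ∀ x y : ℂ, IsCompact (segment ℝ x y) := by
    intro x y
    rw [segment_eq_image_lineMap]
    exact isCompact_Icc.image (AffineMap.lineMap_continuous)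
  obtain ⟨f, s, t, hs, hst, ht⟩ := geometric_hahn_banach_compact_closed (convex_segment a b)
    (hc a b) (convex_segment c d) (hc c d).isClosed h
  set u : ℂ := ⟨f 1, -f Complex.I⟩ with hu
  have hf : ∀ z : ℂ, (u * z).re = f z := by
    intro z
    have h1 : z = z.re • (1 : ℂ) + z.im • Complex.I := by
      simp [Complex.re_add_im]
    conv_rhs => rw [h1]
    rw [map_add, map_smul, map_smul, Complex.mul_re]
    simp only [hu, smul_eq_mul]
    ring
  have hpos : ∀ x ∈ segment ℝ a b, ∀ y ∈ segment ℝ c d, 0 < (u * (y - x)).re := by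
    intro x hx y hy
    rw [hf, map_sub]
    linarith [hs x hx, ht y hy]
  have ha := left_mem_segment ℝ a b
  have hb := right_mem_segment ℝ a b
  have hc' := left_mem_segment ℝ c d
  have hd := right_mem_segment ℝ c d
  have hu0 : u ≠ 0 := by
    intro h0
    have := hpos a ha c hc'
    simp [h0] at this
  have e : ∀ x y : ℂ, y / x = (u * y) / (u * x) := fun x y => (mul_div_mul_left y x hu0).symm
  have e1 : (b - d) / (a - d) = (d - b) / (d - a) := by
    rw [← neg_sub d b, ← neg_sub d a, neg_div_neg_eq]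
  have e2 : (b - c) / (a - c) = (c - b) / (c - a) := by
    rw [← neg_sub c b, ← neg_sub c a, neg_div_neg_eq]
  rw [e1, e2, e (c - a) (d - a), e (d - a) (d - b), e (c - b) (d - b), e (c - a) (c - b),
    THopfQ_div (hpos a ha c hc') (hpos a ha d hd), THopfQ_div (hpos a ha d hd) (hpos b hb d hd),
    THopfQ_div (hpos b hb c hc') (hpos b hb d hd), THopfQ_div (hpos a ha c hc') (hpos b hb c hc')]
  ring

theorem THopfQ_one_add {z : ℂ} (h : ‖z‖ = 1) (h1 : 1 + z ≠ 0) : 0 < (1 + z).re := by
  have h2 : z.re * z.re + z.im * z.im = 1 := by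
    rw [← Complex.normSq_apply, Complex.normSq_eq_norm_sq, h]
    norm_num
  rw [Complex.add_re, Complex.one_re]
  by_contra h3
  push Not at h3
  have h4 : z.re = -1 := by nlinarith [mul_self_nonneg z.im]
  have h5 : z.im = 0 := by
    have : z.im * z.im = 0 := by rw [h4] at h2; linarith
    exact mul_self_eq_zero.1 this
  apply h1
  apply Complex.ext <;> simp [h4, h5]

theorem hopf_three {a b c : ℂ} (h1 : ‖b - a‖ = 1) (h2 : ‖c - b‖ = 1) (h3 : c ≠ a) :
    Complex.arg ((c - a) / (b - a)) + Complex.arg ((b - c) / (a - c)) =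
      Complex.arg ((c - b) / (b - a)) := by
  have hba : b - a ≠ 0 := fun h => by simp [h] at h1
  have hcb : c - b ≠ 0 := fun h => by simp [h] at h2
  have hca : c - a ≠ 0 := sub_ne_zero.2 h3
  have hac : a - c ≠ 0 := sub_ne_zero.2 h3.symm
  have e1 : (c - a) / (b - a) = 1 + (c - b) / (b - a) := by
    field_simp
    ring
  have e2 : (b - c) / (a - c) = (1 + (b - a) / (c - b))⁻¹ := by
    have : 1 + (b - a) / (c - b) = (c - a) / (c - b) := by
      field_simp
      ring
    rw [this, inv_div, ← neg_sub c b, ← neg_sub c a, neg_div_neg_eq]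
  have p1 : 0 < ((c - a) / (b - a)).re := by
    rw [e1]
    refine THopfQ_one_add (by rw [norm_div, h1, h2, div_one]) ?_
    rw [← e1]
    exact div_ne_zero hca hba
  have p2 : 0 < ((b - c) / (a - c)).re := by
    rw [e2]
    refine THopfQ_inv_re (THopfQ_one_add (by rw [norm_div, h1, h2, div_one]) ?_)
    have : 1 + (b - a) / (c - b) = (c - a) / (c - b) := by
      field_simp
      ring
    rw [this]
    exact div_ne_zero hca hcb
  rw [← THopfQ_mul p1 p2]
  congr 1
  field_simp
  ring

end Pool.Agent.Mst
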