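import Pool.Agent.P.MP_e0c7cd_co.THopfQ

namespace Pool.Agent.Mst

open Complex Real

variable {V : Type} {G : SimpleGraph V} {p : V → ℂ}

theorem THopfT_step (J : ℕ) (H : ℕ → ℕ → ℝ) (τ : ℕ → ℝ)
    (hQ : ∀ i j, i + 2 ≤ j → j < J → ¬ (i = 0 ∧ j + 1 = J) →
      H i j + H (j + 1) i = H (i + 1) j + H j i)
    (hR : ∀ i, i < J → H i (i + 1) + H (i + 2) i = τ i) :
    ∀ j, j + 2 ≤ J → ∑ i ∈ Finset.range j, τ i =
      ∑ i ∈ Finset.range j, H 0 (i + 1) + ∑ i ∈ Finset.range j, H (j + 1) i := by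
  intro j
  induction j with
  | zero => intro _; simp
  | succ j ih =>
    intro hj
    have h1 := ih (by omega)
    have h2 := hR j (by omega)
    have h3 : ∑ i ∈ Finset.range j, (H (i + 1) (j + 1) - H i (j + 1)) =
        H j (j + 1) - H 0 (j + 1) := Finset.sum_range_sub (fun i => H i (j + 1)) j
    have h4 : ∑ i ∈ Finset.range j, (H (i + 1) (j + 1) - H i (j + 1)) =
        ∑ i ∈ Finset.range j, (H (j + 1 + 1) i - H (j + 1) i) := by
      refine Finset.sum_congr rfl fun i hi => ?_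
      have hi' := Finset.mem_range.mp hi
      have := hQ i (j + 1) (by omega) (by omega) (by omega)
      linarith
    rw [Finset.sum_sub_distrib (fun i => H (j + 1 + 1) i)] at h4
    rw [Finset.sum_range_succ, Finset.sum_range_succ, Finset.sum_range_succ]
    have h5 : H (j + 1 + 1) j = H (j + 2) j := rfl
    linarith

theorem hopf_tele (J : ℕ) (hJ : 3 ≤ J) (H : ℕ → ℕ → ℝ) (τ : ℕ → ℝ)
    (hper : ∀ i j, H (i + J) j = H i j) (hper' : ∀ i j, H i (j + J) = H i j)
    (hQ : ∀ i j, i + 2 ≤ j → j < J → ¬ (i = 0 ∧ j + 1 = J) →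
      H i j + H (j + 1) i = H (i + 1) j + H j i)
    (hR : ∀ i, i < J → H i (i + 1) + H (i + 2) i = τ i) :
    ∑ i ∈ Finset.range J, τ i = 2 * ∑ i ∈ Finset.range (J - 2), H 0 (i + 1) + 2 * τ (J - 1) := by
  obtain ⟨k, rfl⟩ : ∃ k, J = k + 3 := ⟨J - 3, by omega⟩
  have e1 : k + 3 - 2 = k + 1 := by omega
  have e2 : k + 3 - 1 = k + 2 := by omega
  rw [e1, e2]
  have h1 := THopfT_step (k + 3) H τ hQ hR (k + 1) (by omega)
  have h2 : H (k + 1) (k + 2) + H 0 (k + 1) = τ (k + 1) := by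
    have a := hR (k + 1) (by omega)
    have b := hper 0 (k + 1)
    rw [show 0 + (k + 3) = k + 1 + 2 by omega] at b
    rw [b] at a
    exact a
  have h3 : H (k + 2) 0 + H 1 (k + 2) = τ (k + 2) := by
    have a := hR (k + 2) (by omega)
    have b := hper 1 (k + 2)
    have c := hper' (k + 2) 0
    rw [show 1 + (k + 3) = k + 2 + 2 by omega] at b
    rw [show 0 + (k + 3) = k + 2 + 1 by omega] at c
    rw [b, c] at a
    exact a
  have h4 : ∑ i ∈ Finset.range k, (H (i + 1 + 1) (k + 2) - H (i + 1) (k + 2)) =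
      H (k + 1) (k + 2) - H (0 + 1) (k + 2) :=
    Finset.sum_range_sub (fun i => H (i + 1) (k + 2)) k
  have h5 : ∑ i ∈ Finset.range k, (H (i + 1 + 1) (k + 2) - H (i + 1) (k + 2)) =
      ∑ i ∈ Finset.range k, (H 0 (i + 1) - H (k + 2) (i + 1)) := by
    refine Finset.sum_congr rfl fun i hi => ?_
    have hi' := Finset.mem_range.mp hi
    have a := hQ (i + 1) (k + 2) (by omega) (by omega) (by omega)
    have b := hper 0 (i + 1)
    rw [show 0 + (k + 3) = k + 2 + 1 by omega] at b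
    linarith
  rw [Finset.sum_sub_distrib (fun i => H 0 (i + 1))] at h5
  have h6 : ∑ i ∈ Finset.range (k + 1), H (k + 1 + 1) i =
      ∑ i ∈ Finset.range k, H (k + 2) (i + 1) + H (k + 2) 0 :=
    Finset.sum_range_succ' (fun i => H (k + 2) i) k
  have h7 : ∑ i ∈ Finset.range (k + 1), H 0 (i + 1) =
      ∑ i ∈ Finset.range k, H 0 (i + 1) + H 0 (k + 1) :=
    Finset.sum_range_succ (fun i => H 0 (i + 1)) k
  have h8 : ∑ i ∈ Finset.range (k + 3), τ i =
      ∑ i ∈ Finset.range (k + 1), τ i + τ (k + 1) + τ (k + 2) := by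
    rw [Finset.sum_range_succ, Finset.sum_range_succ]
  have h9 : H (0 + 1) (k + 2) = H 1 (k + 2) := rfl
  linarith

theorem hopf_poly (J : ℕ) (hJ : 3 ≤ J) (P : ℕ → ℂ) (hper : ∀ i, P (i + J) = P i)
    (hu : ∀ i, ‖P (i + 1) - P i‖ = 1) (hinj : ∀ i j, i < J → j < J → P i = P j → i = j)
    (hd : ∀ i j, i + 2 ≤ j → j < J → ¬ (i = 0 ∧ j + 1 = J) →
      Disjoint (segment ℝ (P i) (P (i + 1))) (segment ℝ (P j) (P (j + 1)))) :
    ∃ n : ℤ, ∑ i ∈ Finset.range J, Complex.arg ((P (i + 2) - P (i + 1)) / (P (i + 1) - P i)) =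
      2 * π * (2 * n + 1) := by
  have key := hopf_tele J hJ (fun i j => Complex.arg ((P (j + 1) - P i) / (P j - P i)))
    (fun i => Complex.arg ((P (i + 2) - P (i + 1)) / (P (i + 1) - P i)))
    (fun i j => by simp only [hper])
    (fun i j => by
      have a := hper (j + 1)
      rw [show j + 1 + J = j + J + 1 by omega] at a
      simp only [a, hper])
    (fun i j h1 h2 h3 => hopf_four (hd i j h1 h2 h3))
    (fun i hi => by
      refine hopf_three (hu i) (hu (i + 1)) ?_
      intro h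
      by_cases h2 : i + 2 < J
      · have := hinj _ _ h2 hi h
        omega
      · have a := hper (i + 2 - J)
        rw [show i + 2 - J + J = i + 2 by omega] at a
        have := hinj (i + 2 - J) i (by omega) hi (a.symm.trans h)
        omega)
  obtain ⟨k, rfl⟩ : ∃ k, J = k + 3 := ⟨J - 3, by omega⟩
  have e1 : k + 3 - 2 = k + 1 := by omega
  have e2 : k + 3 - 1 = k + 2 := by omega
  rw [e1, e2] at key
  have hne : ∀ i, i < k + 2 → P (i + 1) - P 0 ≠ 0 := by
    intro i hi h
    have := hinj (i + 1) 0 (by omega) (by omega) (sub_eq_zero.mp h)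
    omega
  have hS : ∀ m, m ≤ k + 1 →
      ((∑ i ∈ Finset.range m, Complex.arg ((P (i + 1 + 1) - P 0) / (P (i + 1) - P 0)) : ℝ) :
        Real.Angle) =
      (Complex.arg (P (m + 1) - P 0) : Real.Angle) - (Complex.arg (P 1 - P 0) : Real.Angle) := by
    intro m
    induction m with
    | zero => intro _; simp
    | succ m ih =>
      intro hm
      rw [Finset.sum_range_succ, Real.Angle.coe_add, ih (by omega),
        Complex.arg_div_coe_angle (hne (m + 1) (by omega)) (hne m (by omega))]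
      abel
  have p1 : P (k + 2 + 2) = P 1 := by
    have a := hper 1
    rwa [show 1 + (k + 3) = k + 2 + 2 by omega] at a
  have p0 : P (k + 2 + 1) = P 0 := by
    have a := hper 0
    rwa [show 0 + (k + 3) = k + 2 + 1 by omega] at a
  have hx : P (k + 2) - P 0 ≠ 0 := hne (k + 1) (by omega)
  have hT : (Complex.arg ((P (k + 2 + 2) - P (k + 2 + 1)) / (P (k + 2 + 1) - P (k + 2))) :
      Real.Angle) = (Complex.arg (P 1 - P 0) : Real.Angle) -
        ((Complex.arg (P (k + 2) - P 0) : Real.Angle) + π) := by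
    rw [p1, p0, show P 0 - P (k + 2) = -(P (k + 2) - P 0) by ring,
      Complex.arg_div_coe_angle (hne 0 (by omega)) (neg_ne_zero.mpr hx),
      Complex.arg_neg_coe_angle hx]
  have hA : ((∑ i ∈ Finset.range (k + 1),
        Complex.arg ((P (i + 1 + 1) - P 0) / (P (i + 1) - P 0)) +
      Complex.arg ((P (k + 2 + 2) - P (k + 2 + 1)) / (P (k + 2 + 1) - P (k + 2))) : ℝ) :
        Real.Angle) = ((π : ℝ) : Real.Angle) := by
    rw [Real.Angle.coe_add, hS (k + 1) le_rfl, hT]
    have : (Complex.arg (P (k + 1 + 1) - P 0) : Real.Angle) =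
        (Complex.arg (P (k + 2) - P 0) : Real.Angle) := rfl
    rw [this, ← Real.Angle.neg_coe_pi]
    have h2 : ∀ a b c : Real.Angle, a - b + (b - (a + -c)) = c := by
      intro a b c
      abel
    rw [h2, Real.Angle.neg_coe_pi]
  obtain ⟨n, hn⟩ := Real.Angle.angle_eq_iff_two_pi_dvd_sub.mp hA
  refine ⟨n, ?_⟩
  rw [key]
  linarith

end Pool.Agent.Mst
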