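import Pool.Agent.P.MP_e0c7cd_co.Two0

namespace Pool.Agent.Mst

open Complex Real

variable {V : Type} {G : SimpleGraph V} {p : V → ℂ}

theorem TOrb_const {D β : Type} [Finite D] (f : Equiv.Perm D) (w : D → β)
    (hw : ∀ d, w (f d) = w d) {x d : D} (h : f.SameCycle x d) : w d = w x := by
  obtain ⟨n, -, rfl⟩ := h.exists_pow_eq'
  clear h
  induction n with
  | zero => rfl
  | succ n ih => rw [pow_succ', Equiv.Perm.mul_apply, hw, ih]

theorem finrank_invSub_orbit {D : Type} [Fintype D] (f : Equiv.Perm D) (N : Set D)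
    (hN : ∀ d, f d ∈ N ↔ d ∈ N) (x : D) (hx : x ∉ N) :
    Module.finrank ℝ (invSub f (N ∪ {d | f.SameCycle x d})) =
      Module.finrank ℝ (invSub f N) + 1 := by
  classical
  let ind : D → ℝ := fun d => if f.SameCycle x d then 1 else 0
  have hix : ind x = 1 := if_pos (Equiv.Perm.SameCycle.refl f x)
  have hif : ∀ d, ind (f d) = ind d := fun d => by
    simp only [ind, Equiv.Perm.sameCycle_apply_right]
  have hi0 : ind ≠ 0 := fun h => by
    have := congrFun h x
    rw [hix] at this
    simp at this
  have hsup : invSub f (N ∪ {d | f.SameCycle x d}) = invSub f N ⊔ Submodule.span ℝ {ind} := by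
    apply le_antisymm
    · rintro w ⟨h1, h2⟩
      have e : w = (w - w x • ind) + w x • ind := by simp
      rw [e]
      refine Submodule.add_mem_sup ⟨fun d => ?_, fun d hd => ?_⟩
        (Submodule.smul_mem _ _ (Submodule.mem_span_singleton_self _))
      · simp only [Pi.sub_apply, Pi.smul_apply, h1, hif]
      · by_cases hs : f.SameCycle x d
        · have h3 : ind d = 1 := if_pos hs
          simp only [Pi.sub_apply, Pi.smul_apply, h3, TOrb_const f w h1 hs, smul_eq_mul, mul_one,
            sub_self]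
        · have h3 : ind d = 0 := if_neg hs
          have h4 : w d = 0 := h2 d fun h => h.elim hd hs
          simp only [Pi.sub_apply, Pi.smul_apply, h3, h4, smul_eq_mul, mul_zero, sub_self]
    · refine sup_le ?_ ?_
      · rintro w ⟨h1, h2⟩
        exact ⟨h1, fun d hd => h2 d fun h => hd (Or.inl h)⟩
      · rw [Submodule.span_singleton_le_iff_mem]
        exact ⟨hif, fun d hd => if_neg fun h => hd (Or.inr h)⟩
  have hinf : invSub f N ⊓ Submodule.span ℝ {ind} = ⊥ := by
    rw [eq_bot_iff]
    rintro w ⟨⟨-, h2⟩, h3⟩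
    obtain ⟨c, rfl⟩ := Submodule.mem_span_singleton.1 h3
    have h4 := h2 x hx
    simp only [Pi.smul_apply, hix, smul_eq_mul, mul_one] at h4
    simp [h4]
  have h := Submodule.finrank_sup_add_finrank_inf_eq (invSub f N) (Submodule.span ℝ {ind})
  rw [hinf, finrank_bot, finrank_span_singleton hi0, add_zero] at h
  rw [hsup, h]

theorem Rot.kl_of_le [Fintype V] (R : Rot G p) (hm : IsMatchstick G p) (hc : G.Connected)
    (N S : Set G.Dart) (hN : N ⊆ S) (hS : ∀ d : G.Dart, d.symm ∈ S → d ∈ S)
    (hle : Module.finrank ℝ (cycSub G S) ≤ Module.finrank ℝ (invSub R.phi N))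
    (w : G.Dart → ℝ) (h1 : ∀ d, w (R.phi d) = w d) (h2 : ∀ d, d ∉ S → w d.symm = w d)
    (d e : G.Dart) (hd : d ∉ N) (he : e ∉ N) : w d = w e := by
  classical
  have hinj : Function.Injective (rankBMap R N S hN hS) := by
    rw [injective_iff_map_eq_zero]
    intro u hu
    have h3 : ∀ a : G.Dart, u.1 a.symm = u.1 a := fun a => by
      have := congrFun (congrArg Subtype.val hu) a
      exact (sub_eq_zero.1 this).symm
    ext a
    exact (R.const_of_conn hm hc u.1 u.2.1 h3 a e).trans (u.2.2 e he)
  have heq : Module.finrank ℝ (invSub R.phi N) = Module.finrank ℝ (cycSub G S) :=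
    le_antisymm (R.inv_le_cyc hm hc e N S hN hS he) hle
  have hsurj := (LinearMap.injective_iff_surjective_of_finrank_eq_finrank heq).1 hinj
  have hz : (fun a : G.Dart => w a - w a.symm) ∈ cycSub G S :=
    ⟨fun a => by simp, fun a ha => sub_eq_zero.2 (h2 a ha).symm, rankB_outflow R w h1⟩
  obtain ⟨u, hu⟩ := hsurj ⟨_, hz⟩
  have h4 : ∀ a : G.Dart, u.1 a - u.1 a.symm = w a - w a.symm := fun a =>
    congrFun (congrArg Subtype.val hu) a
  have h5 := R.const_of_conn hm hc (fun a => w a - u.1 a)
    (fun a => by simp only [h1, u.2.1 a]) (fun a => by linarith [h4 a]) d e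
  simp only [u.2.2 d hd, u.2.2 e he, sub_zero] at h5
  exact h5

end Pool.Agent.Mst
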