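import Pool.Agent.P.MP_e0c7cd_co.Count
import Pool.Agent.P.MP_e0c7cd_co.Neg

namespace Pool.Agent.Mst

open Complex Real

variable {V : Type} {G : SimpleGraph V} {p : V → ℂ}

/-- `d` lies on neither of the two exceptional faces. -/
def Rot.Sh (R : Rot G p) (o b d : G.Dart) : Prop :=
  ¬ R.phi.SameCycle o d ∧ ¬ R.phi.SameCycle b d

/-- The component of a vertex after deleting the edges of class `k`. -/
def comp (G : SimpleGraph V) (p : V → ℂ) (k : ℂ) (v : V) : Quotient (compSetoid G p k) :=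
  Quotient.mk (compSetoid G p k) v

/-- Components met by the face of `x`. -/
def Rot.met (R : Rot G p) (k : ℂ) (x : G.Dart) : Set (Quotient (compSetoid G p k)) :=
  {q | ∃ d, R.phi.SameCycle x d ∧ comp G p k d.snd = q}

/-- Vertices joined to the face of `x` by edges of class different from `k`. -/
def Rot.side (R : Rot G p) (k : ℂ) (x : G.Dart) : Set V := {v | comp G p k v ∈ R.met k x}

open Classical in
/-- Total turning of the face of `x`. -/
noncomputable def Rot.turn [Fintype V] (R : Rot G p) (x : G.Dart) : ℝ :=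
  ∑ d : G.Dart with R.phi.SameCycle x d, (π - R.theta d)

/-- Standing hypotheses: two exceptional faces, all other faces positive triangles or rhombi. -/
structure Rot.Two (R : Rot G p) (o b : G.Dart) : Prop where
  hm : IsMatchstick G p
  hc : G.Connected
  hreg : Reg4 G
  good : ∀ d, R.Sh o b d → R.Tri d ∨ R.Rho d
  ne : ¬ R.phi.SameCycle o b

/-- Length of the face of `x`. -/
noncomputable def Rot.fl (R : Rot G p) (x : G.Dart) : ℕ := {d | R.phi.SameCycle x d}.ncard

/-- Number of darts of class `k` on the face of `x`. -/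
noncomputable def Rot.flk (R : Rot G p) (k : ℂ) (x : G.Dart) : ℕ :=
  {d | R.phi.SameCycle x d ∧ cls p d = k}.ncard

/-- Number of darts on ordinary triangles. -/
noncomputable def Rot.triA (R : Rot G p) (o b : G.Dart) : ℕ := {d | R.Sh o b d ∧ R.Tri d}.ncard

/-- Number of darts on ordinary triangles of class `k`. -/
noncomputable def Rot.triK (R : Rot G p) (o b : G.Dart) (k : ℂ) : ℕ :=
  {d | (R.Sh o b d ∧ R.Tri d) ∧ cls p d = k}.ncard

/-- Corners of triangles of other classes on the side of `o`. -/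
noncomputable def Rot.tS (R : Rot G p) (o b : G.Dart) (k : ℂ) : ℕ :=
  {d | R.Sh o b d ∧ R.Tri d ∧ cls p d ≠ k ∧ d.snd ∈ R.side k o}.ncard

/-- Corners of 60 degrees between edges of class `k` on the side of `o`. -/
noncomputable def Rot.cS (R : Rot G p) (o b : G.Dart) (k : ℂ) : ℕ :=
  {d | R.Sh o b d ∧ cls p d = k ∧ (R.Tri d ∨ R.Acu k d) ∧ d.snd ∈ R.side k o}.ncard

/-- Darts of triangles of class `k` with all three vertices on the side of `o`. -/
noncomputable def Rot.aS (R : Rot G p) (o b : G.Dart) (k : ℂ) : ℕ :=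
  {d | R.Sh o b d ∧ cls p d = k ∧ R.Tri d ∧ d.fst ∈ R.side k o ∧ d.snd ∈ R.side k o ∧
    (R.phi d).snd ∈ R.side k o}.ncard

/-- Triangles of class `k` with exactly two vertices on the side of `o`. -/
noncomputable def Rot.uS (R : Rot G p) (o b : G.Dart) (k : ℂ) : ℕ :=
  {d | R.Sh o b d ∧ cls p d = k ∧ R.Tri d ∧ d.fst ∈ R.side k o ∧ d.snd ∈ R.side k o ∧
    (R.phi d).snd ∉ R.side k o}.ncard

/-- Isolated corners of class `k` on the side of `o`. -/
noncomputable def Rot.yS (R : Rot G p) (o b : G.Dart) (k : ℂ) : ℕ :=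
  {d | R.Sh o b d ∧ cls p d = k ∧ d.snd ∈ R.side k o ∧
    ((R.Tri d ∧ d.fst ∉ R.side k o ∧ (R.phi d).snd ∉ R.side k o) ∨ R.Acu k d)}.ncard

/-- The faces containing a dart of class `k` are connected through edges of class `k`. -/
def Rot.KL (R : Rot G p) (k : ℂ) : Prop :=
  ∀ w : G.Dart → ℝ, (∀ d, w (R.phi d) = w d) → (∀ d, cls p d = k → w d.symm = w d) →
    ∀ d e, cls p d = k → cls p e = k → w d = w e

/-- Different darts of class `k` on the face of `x` end in different components. -/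
def Rot.Inj (R : Rot G p) (k : ℂ) (x : G.Dart) : Prop :=
  ∀ d e, R.phi.SameCycle x d → R.phi.SameCycle x e → cls p d = k → cls p e = k →
    comp G p k d.snd = comp G p k e.snd → d = e

/-- The face of `x` visits no vertex twice. -/
def Rot.Simple (R : Rot G p) (x : G.Dart) : Prop :=
  ∀ d e, R.phi.SameCycle x d → R.phi.SameCycle x e → d.snd = e.snd → d = e

/-- Consequences of equality in the class count. -/
structure Rot.Facts (R : Rot G p) (o b : G.Dart) (k : ℂ) : Prop where
  kl : R.KL k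
  disj : Disjoint (R.side k o) (R.side k b)
  injO : R.Inj k o
  injB : R.Inj k b
  noObt : ∀ d, R.Sh o b d → R.Obt k d → d.snd ∉ R.side k o ∧ d.snd ∉ R.side k b
  tri : R.triK o b k = 3 * (R.flk k o + R.flk k b)

theorem Rot.sh_comm (R : Rot G p) (o b d : G.Dart) : R.Sh o b d ↔ R.Sh b o d := and_comm

theorem Rot.sh_phi (R : Rot G p) (o b d : G.Dart) : R.Sh o b (R.phi d) ↔ R.Sh o b d := by
  simp only [Rot.Sh, R.same_phi]

theorem Rot.triA_comm (R : Rot G p) (o b : G.Dart) : R.triA o b = R.triA b o :=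
  nc_congr fun d => by rw [R.sh_comm]

theorem Rot.triK_comm (R : Rot G p) (o b : G.Dart) (k : ℂ) : R.triK o b k = R.triK b o k :=
  nc_congr fun d => by rw [R.sh_comm]

theorem Rot.Two.symm {R : Rot G p} {o b : G.Dart} (h : R.Two o b) : R.Two b o :=
  ⟨h.hm, h.hc, h.hreg, fun d hd => h.good d ((R.sh_comm _ _ _).1 hd), fun h1 => h.ne h1.symm⟩

theorem Rot.Facts.symm {R : Rot G p} {o b : G.Dart} {k : ℂ} (h : R.Facts o b k) :
    R.Facts b o k :=
  ⟨h.kl, h.disj.symm, h.injB, h.injO,
    fun d hd h1 => (h.noObt d ((R.sh_comm _ _ _).1 hd) h1).symm,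
    by rw [← R.triK_comm, h.tri, add_comm]⟩

theorem Rot.side_iff (R : Rot G p) {k : ℂ} (x : G.Dart) {d : G.Dart} (h : cls p d ≠ k) :
    d.fst ∈ R.side k x ↔ d.snd ∈ R.side k x := by
  have : comp G p k d.fst = comp G p k d.snd := comp_dart k d h
  simp only [Rot.side, Set.mem_ofPred_eq, this]

theorem Rot.snd_mem_side (R : Rot G p) (k : ℂ) {x d : G.Dart} (h : R.phi.SameCycle x d) :
    d.snd ∈ R.side k x := ⟨d, h, rfl⟩

theorem Rot.fst_mem_side (R : Rot G p) (k : ℂ) {x d : G.Dart} (h : R.phi.SameCycle x d) :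
    d.fst ∈ R.side k x := by
  have h1 : R.phi (R.phi.symm d) = d := by simp
  have h2 := R.phi_fst (R.phi.symm d)
  rw [h1] at h2
  rw [h2]
  exact R.snd_mem_side k (by rw [← R.same_phi, h1]; exact h)

theorem Rot.met_le [Fintype V] (R : Rot G p) (k : ℂ) (x : G.Dart) :
    (R.met k x).ncard ≤ max (R.flk k x) 1 := R.comp_met x k

theorem Rot.Tri.phi_phi_snd {R : Rot G p} {d : G.Dart} (h : R.Tri d) :
    (R.phi (R.phi d)).snd = d.fst := by
  have h1 := R.phi_fst (R.phi (R.phi d))
  rw [h.1] at h1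
  exact h1.symm

theorem Rot.Rho.phi_phi_phi_snd {R : Rot G p} {d : G.Dart} (h : R.Rho d) :
    (R.phi (R.phi (R.phi d))).snd = d.fst := by
  have h1 := R.phi_fst (R.phi (R.phi (R.phi d)))
  rw [h.1] at h1
  exact h1.symm

end Pool.Agent.Mst
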