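import Pool.Agent.P.MP_e0c7cd_co.Short
import Pool.Agent.P.MP_e0c7cd_co.RotEx
import Pool.Agent.P.MP_e0c7cd_co.TFinal

open Pool.Agent.Mst

theorem Pool.Agent.Mst.variantOneLongFace {V : Type} [Fintype V]
    (G : SimpleGraph V) [DecidableRel G.Adj] (p : V → ℂ) (hm : IsMatchstick G p)
    (hc : G.Connected) (hreg : G.IsRegularOfDegree 4) (o b : G.Dart)
    (hshort : ∀ d : G.Dart, d ∉ faceWalk G p o → d ∉ faceWalk G p b →
      (faceWalk G p d).ncard ≤ 4) :
    52 ≤ Fintype.card V := by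
  obtain ⟨R, hR⟩ := exists_rot hm
  have h4 := reg4_of_regular hreg
  have hg : ∀ d, R.Sh o b d → R.Tri d ∨ R.Rho d := fun d hd => by
    have h1 := hshort d (by rw [R.mem_faceWalk hR]; exact hd.1)
      (by rw [R.mem_faceWalk hR]; exact hd.2)
    have h2 : faceWalk G p d = {e | R.phi.SameCycle d e} := by
      ext e
      exact R.mem_faceWalk hR d e
    rw [h2] at h1
    exact R.tri_or_rho hm h4 d (R.short (R.rho_ne_of_reg h4) d h1)
  by_cases hob : R.phi.SameCycle o b
  · exact absurd (fun d hd => hg d ⟨hd, fun h => hd (hob.trans h)⟩) (R.not_good hm hc h4 o)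
  · exact Rot.Two.bound (R := R) ⟨hm, hc, h4, hg, hob⟩
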