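import Pool.Agent.P.MP_e0c7cd_co.Basic

namespace Pool.Agent.Mst

open Complex Real

variable {V : Type} {G : SimpleGraph V} {p : V → ℂ}

/-- The angle under which the dart `e` is seen from `q`. -/
noncomputable def seen (p : V → ℂ) (e : G.Dart) (q : ℂ) : ℝ :=
  Complex.arg ((p e.snd - q) / (p e.fst - q))

open Classical in
/-- Twice the total angle of the chain `z` seen from `q`. -/
noncomputable def lam [Fintype V] (p : V → ℂ) (z : G.Dart → ℝ) (q : ℂ) : ℝ :=
  ∑ e : G.Dart, z e * seen p e q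

theorem WindA_arg_div {x y : ℂ} (hx : x ≠ 0) (hy : y ≠ 0) :
    ∃ m : ℤ, Complex.arg (x / y) = Complex.arg x - Complex.arg y + 2 * π * m := by
  have h := Complex.arg_div_coe_angle hx hy
  rw [← Real.Angle.coe_sub, Real.Angle.angle_eq_iff_two_pi_dvd_sub] at h
  obtain ⟨m, hm⟩ := h
  exact ⟨m, by linarith⟩

open Classical in
theorem WindA_sum_fst [Fintype V] {z : G.Dart → ℝ} (hz : z ∈ cycSub G Set.univ) (f : V → ℝ) :
    ∑ e : G.Dart, z e * f e.fst = 0 := by
  rw [← Finset.sum_fiberwise (s := Finset.univ) (g := fun e : G.Dart => e.fst)]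
  refine Finset.sum_eq_zero fun v _ => ?_
  have h1 : ∑ e : G.Dart with e.fst = v, z e * f e.fst = ∑ e : G.Dart with e.fst = v, z e * f v :=
    Finset.sum_congr rfl fun e he => by rw [(Finset.mem_filter.1 he).2]
  have h2 := hz.2.2 v
  simp only [outflow] at h2
  rw [h1, ← Finset.sum_mul, h2, zero_mul]

open Classical in
theorem WindA_sum_snd [Fintype V] {z : G.Dart → ℝ} (hz : z ∈ cycSub G Set.univ) (f : V → ℝ) :
    ∑ e : G.Dart, z e * f e.snd = 0 := by
  have h1 := WindA_sum_fst hz f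
  have h2 : ∑ e : G.Dart, z e * f e.snd = ∑ e : G.Dart, -(z e * f e.fst) := by
    rw [← Equiv.sum_comp (symmPerm G)]
    refine Finset.sum_congr rfl fun e _ => ?_
    have h3 : symmPerm G e = e.symm := rfl
    rw [h3, hz.1 e]
    simp
  rw [h2, Finset.sum_neg_distrib, h1, neg_zero]

theorem lam_countable [Fintype V] {z : G.Dart → ℝ} (hz : z ∈ cycSub G Set.univ) :
    ∃ C : Set ℝ, C.Countable ∧ ∀ q : ℂ, (∀ v, p v ≠ q) → lam p z q ∈ C := by
  classical
  refine ⟨Set.range fun m : G.Dart → ℤ => ∑ e : G.Dart, z e * (2 * π * m e),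
    Set.countable_range _, fun q hq => ?_⟩
  have h1 : ∀ e : G.Dart, ∃ m : ℤ, seen p e q =
      Complex.arg (p e.snd - q) - Complex.arg (p e.fst - q) + 2 * π * m := fun e =>
    WindA_arg_div (sub_ne_zero.2 (hq _)) (sub_ne_zero.2 (hq _))
  choose m hm using h1
  refine ⟨m, ?_⟩
  have h2 := WindA_sum_fst hz fun v => Complex.arg (p v - q)
  have h3 := WindA_sum_snd hz fun v => Complex.arg (p v - q)
  have h4 : ∑ e : G.Dart, z e * seen p e q = ∑ e : G.Dart, z e * Complex.arg (p e.snd - q) -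
      ∑ e : G.Dart, z e * Complex.arg (p e.fst - q) + ∑ e : G.Dart, z e * (2 * π * m e) := by
    rw [← Finset.sum_sub_distrib, ← Finset.sum_add_distrib]
    refine Finset.sum_congr rfl fun e _ => ?_
    rw [hm e]
    ring
  have h5 : lam p z q = ∑ e : G.Dart, z e * seen p e q := by
    unfold lam
    congr
  rw [h5, h4]
  have h6 : ∑ e : G.Dart, z e * Complex.arg (p e.snd - q) = 0 := by
    rw [← h3]
  have h7 : ∑ e : G.Dart, z e * Complex.arg (p e.fst - q) = 0 := by
    rw [← h2]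
  rw [h6, h7]
  simp

theorem WindA_mem_seg (a : G.Dart) {s : ℝ} (hs0 : 0 ≤ s) (hs1 : s ≤ 1) :
    p a.fst + s * vec p a ∈ segment ℝ (p a.fst) (p a.snd) := by
  refine ⟨1 - s, s, by linarith, hs0, by ring, ?_⟩
  simp only [vec, Complex.real_smul]
  push_cast
  ring

theorem WindA_not_seg (hm : IsMatchstick G p) {a e : G.Dart} (h1 : e.fst ≠ a.fst)
    (h2 : e.snd ≠ a.fst) {s : ℝ} (hs0 : 0 ≤ s) (hs1 : s < 1) :
    p a.fst + s * vec p a ∉ segment ℝ (p e.fst) (p e.snd) := by
  intro hq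
  have hne : s(a.fst, a.snd) ≠ s(e.fst, e.snd) := by
    intro h
    rw [Sym2.eq_iff] at h
    rcases h with h | h
    · exact h1 h.1.symm
    · exact h2 h.1.symm
  obtain ⟨w, hw1, hw2, hw3⟩ := hm.cross _ _ _ _ a.adj e.adj hne _ (WindA_mem_seg a hs0 hs1.le) hq
  have hw : w = a.snd := by
    rcases hw1 with h | h
    · rcases hw2 with h' | h'
      · exact absurd (h'.symm.trans h) h1
      · exact absurd (h'.symm.trans h) h2
    · exact h
  rw [hw] at hw3
  have h3 : ((1 - s : ℝ) : ℂ) * vec p a = 0 := by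
    have h4 : vec p a = p a.snd - p a.fst := rfl
    push_cast
    linear_combination h4 - hw3
  have h5 : vec p a ≠ 0 := by
    intro h
    have := hm.norm_vec a
    rw [h] at this
    simp at this
  have h6 : ((1 - s : ℝ) : ℂ) = 0 := (mul_eq_zero.1 h3).resolve_right h5
  have h7 : 1 - s = 0 := by exact_mod_cast h6
  linarith

theorem IsMatchstick.far_slit (hm : IsMatchstick G p) {a e : G.Dart} (h1 : e.fst ≠ a.fst)
    (h2 : e.snd ≠ a.fst) {s : ℝ} (hs0 : 0 ≤ s) (hs1 : s < 1) :
    p e.fst - (p a.fst + s * vec p a) ≠ 0 ∧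
      (p e.snd - (p a.fst + s * vec p a)) / (p e.fst - (p a.fst + s * vec p a)) ∈
        Complex.slitPlane := by
  have hn := WindA_not_seg hm h1 h2 hs0 hs1
  generalize p a.fst + s * vec p a = q at hn ⊢
  have hd : p e.fst - q ≠ 0 := by
    intro h
    rw [← sub_eq_zero.1 h] at hn
    exact hn (left_mem_segment ℝ _ _)
  refine ⟨hd, ?_⟩
  by_contra hc
  rw [Complex.mem_slitPlane_iff] at hc
  push Not at hc
  obtain ⟨hre, him⟩ := hc
  obtain ⟨r, hr⟩ : ∃ r : ℝ, r = -((p e.snd - q) / (p e.fst - q)).re := ⟨_, rfl⟩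
  have hr0 : 0 ≤ r := by linarith
  have h3 : (p e.snd - q) / (p e.fst - q) = -(r : ℂ) := by
    apply Complex.ext
    · simp [hr]
    · simp [him]
  rw [div_eq_iff hd] at h3
  apply hn
  have h4 : (1 + r) ≠ 0 := by linarith
  have h5 : ((1 + r : ℝ) : ℂ) ≠ 0 := by exact_mod_cast h4
  refine ⟨r / (1 + r), 1 / (1 + r), by positivity, by positivity, by field_simp; ring, ?_⟩
  simp only [Complex.real_smul]
  push_cast at h5 ⊢
  field_simp
  linear_combination h3

theorem IsMatchstick.near_slit (hm : IsMatchstick G p) {a y : G.Dart} (h1 : y.fst = a.fst)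
    (h2 : y ≠ a) {s : ℝ} (hs0 : 0 ≤ s) : (s : ℂ) - vec p y / vec p a ∈ Complex.slitPlane := by
  by_contra hc
  rw [Complex.mem_slitPlane_iff] at hc
  push Not at hc
  obtain ⟨hre, him⟩ := hc
  have ha0 : vec p a ≠ 0 := by
    intro h
    have := hm.norm_vec a
    rw [h] at this
    simp at this
  have hn : ‖vec p y / vec p a‖ = 1 := by
    rw [norm_div, hm.norm_vec, hm.norm_vec, div_one]
  generalize hu : vec p y / vec p a = u at hre him hn
  simp only [Complex.sub_re, Complex.ofReal_re, Complex.sub_im, Complex.ofReal_im] at hre him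
  have h3 : u = (u.re : ℂ) := by
    apply Complex.ext
    · simp
    · simp only [Complex.ofReal_im]
      linarith
  have h4 : u.re = 1 := by
    rw [h3, Complex.norm_real, Real.norm_eq_abs, abs_of_nonneg (by linarith)] at hn
    exact hn
  rw [h4] at h3
  rw [h3, div_eq_iff ha0] at hu
  apply h2
  refine hm.dart_eq h1 ?_
  simpa using hu

theorem IsMatchstick.not_vertex (hm : IsMatchstick G p) (a : G.Dart) {s : ℝ} (hs0 : 0 < s)
    (hs1 : s < 1) (v : V) : p v ≠ p a.fst + s * vec p a := by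
  intro h
  refine hm.noVertex _ _ v a.adj ⟨1 - s, s, by linarith, hs0, by ring, ?_⟩
  rw [h]
  simp only [vec, Complex.real_smul]
  push_cast
  ring

end Pool.Agent.Mst
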