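import Pool.Agent.P.MP_e0c7cd_co.WindA

namespace Pool.Agent.Mst

open Complex Real

variable {V : Type} {G : SimpleGraph V} {p : V → ℂ}

theorem IsMatchstick.windB_vec_ne (hm : IsMatchstick G p) (a : G.Dart) : vec p a ≠ 0 := by
  intro h
  have := hm.norm_vec a
  rw [h] at this
  simp at this

theorem IsMatchstick.windB_seen (hm : IsMatchstick G p) {a y : G.Dart} (h1 : y.fst = a.fst)
    {s : ℝ} (hs0 : 0 < s) :
    seen p y (p a.fst + s * vec p a) = Complex.arg ((s : ℂ) - vec p y / vec p a) := by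
  have ha := hm.windB_vec_ne a
  have hs : (s : ℂ) ≠ 0 := by exact_mod_cast hs0.ne'
  have h2 : (p y.snd - (p a.fst + s * vec p a)) / (p y.fst - (p a.fst + s * vec p a)) =
      ((s⁻¹ : ℝ) : ℂ) * ((s : ℂ) - vec p y / vec p a) := by
    have h3 : p y.snd = p a.fst + vec p y := by
      rw [← h1]; simp [vec]
    have h4 : p a.fst - (p a.fst + s * vec p a) = -(s * vec p a) := by ring
    rw [h3, h1, h4]
    push_cast
    field_simp
    ring
  rw [seen, h2, Complex.arg_real_mul _ (inv_pos.mpr hs0)]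

theorem IsMatchstick.windB_seen_symm (hm : IsMatchstick G p) {a y : G.Dart} (h1 : y.fst = a.fst)
    (h2 : y ≠ a) {s : ℝ} (hs0 : 0 < s) :
    seen p y.symm (p a.fst + s * vec p a) = -Complex.arg ((s : ℂ) - vec p y / vec p a) := by
  have h3 := hm.windB_seen h1 hs0
  have h4 : Complex.arg ((s : ℂ) - vec p y / vec p a) ≠ π :=
    Complex.slitPlane_arg_ne_pi (hm.near_slit h1 h2 hs0.le)
  have h5 : seen p y.symm (p a.fst + s * vec p a) =
      Complex.arg (((p y.snd - (p a.fst + s * vec p a)) /
        (p y.fst - (p a.fst + s * vec p a)))⁻¹) := by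
    rw [inv_div]; rfl
  rw [h5, Complex.arg_inv]
  have h6 : Complex.arg ((p y.snd - (p a.fst + s * vec p a)) /
        (p y.fst - (p a.fst + s * vec p a))) = Complex.arg ((s : ℂ) - vec p y / vec p a) := h3
  rw [h6, if_neg h4]

open Classical in
theorem windB_split [Fintype V] (a : G.Dart) (F : G.Dart → ℝ) :
    ∑ e : G.Dart, F e =
      ∑ e : G.Dart with (e.fst ≠ a.fst ∧ e.snd ≠ a.fst), F e +
        (∑ y : G.Dart with (y.fst = a.fst ∧ y ≠ a), F y +
          ∑ y : G.Dart with (y.fst = a.fst ∧ y ≠ a), F y.symm) + (F a + F a.symm) := by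
  have h1 : ∑ y : G.Dart with (y.fst = a.fst ∧ y ≠ a), F y.symm =
      ∑ y : G.Dart with (y.snd = a.fst ∧ y ≠ a.symm), F y := by
    refine Finset.sum_equiv (symmPerm G) (fun y => ?_) (fun y _ => rfl)
    simp only [Finset.mem_filter, Finset.mem_univ, true_and]
    have e1 : (symmPerm G y) = y.symm := rfl
    rw [e1]
    have e2 : y.symm.snd = y.fst := rfl
    rw [e2]
    exact and_congr_right fun _ => (SimpleGraph.Dart.symm_involutive.injective.ne_iff).symm
  have h2 : F a = ∑ e : G.Dart, if e = a then F e else 0 := by simp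
  have h3 : F a.symm = ∑ e : G.Dart, if e = a.symm then F e else 0 := by simp
  rw [h1, h2, h3]
  simp only [Finset.sum_filter, ← Finset.sum_add_distrib]
  refine Finset.sum_congr rfl fun e _ => ?_
  have hne : e.fst ≠ e.snd := e.adj.ne
  have ha : a.fst ≠ a.snd := a.adj.ne
  have e3 : a.symm.fst = a.snd := rfl
  have e4 : a.symm.snd = a.fst := rfl
  by_cases c1 : e.fst = a.fst
  · have c2 : e.snd ≠ a.fst := fun h => hne (c1.trans h.symm)
    have c3 : e ≠ a.symm := fun h => c2 (by rw [h, e4])
    by_cases c4 : e = a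
    · simp only [c4] at c2 c3 ⊢
      simp [c2, c3]
    · simp [c1, c2, c3, c4]
  · have c4 : e ≠ a := fun h => c1 (by rw [h])
    by_cases c2 : e.snd = a.fst
    · by_cases c3 : e = a.symm
      · simp only [c3] at c1 c4 ⊢
        simp only [c1, c4, e4]
        simp
      · simp [c1, c2, c3, c4]
    · have c3 : e ≠ a.symm := fun h => c2 (by rw [h, e4])
      simp [c1, c2, c3, c4]

open Classical in
theorem IsMatchstick.lam_split [Fintype V] (hm : IsMatchstick G p) {z : G.Dart → ℝ}
    (hz : z ∈ cycSub G Set.univ) (a : G.Dart) {s : ℝ} (hs0 : 0 < s) :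
    lam p z (p a.fst + s * vec p a) =
      ∑ e : G.Dart with (e.fst ≠ a.fst ∧ e.snd ≠ a.fst), z e * seen p e (p a.fst + s * vec p a) +
        2 * ∑ y : G.Dart with (y.fst = a.fst ∧ y ≠ a),
          z y * Complex.arg ((s : ℂ) - vec p y / vec p a) +
        (z a * seen p a (p a.fst + s * vec p a) +
          z a.symm * seen p a.symm (p a.fst + s * vec p a)) := by
  have h0 := windB_split a (fun e => z e * seen p e (p a.fst + s * vec p a))
  have h1 : ∑ y : G.Dart with (y.fst = a.fst ∧ y ≠ a), z y * seen p y (p a.fst + s * vec p a) =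
      ∑ y : G.Dart with (y.fst = a.fst ∧ y ≠ a),
          z y * Complex.arg ((s : ℂ) - vec p y / vec p a) := by
    refine Finset.sum_congr rfl fun y hy => ?_
    have hy' := (Finset.mem_filter.mp hy).2
    rw [hm.windB_seen hy'.1 hs0]
  have h2 : ∑ y : G.Dart with (y.fst = a.fst ∧ y ≠ a),
        z y.symm * seen p y.symm (p a.fst + s * vec p a) =
      ∑ y : G.Dart with (y.fst = a.fst ∧ y ≠ a),
          z y * Complex.arg ((s : ℂ) - vec p y / vec p a) := by
    refine Finset.sum_congr rfl fun y hy => ?_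
    have hy' := (Finset.mem_filter.mp hy).2
    rw [hm.windB_seen_symm hy'.1 hy'.2 hs0, hz.1 y]
    ring
  rw [lam, h0, h1, h2]
  ring

theorem IsMatchstick.seen_self (hm : IsMatchstick G p) (a : G.Dart) {s : ℝ} (hs0 : 0 < s)
    (hs1 : s < 1) : seen p a (p a.fst + s * vec p a) = π ∧
      seen p a.symm (p a.fst + s * vec p a) = π := by
  have h1 : seen p a (p a.fst + s * vec p a) = π := by
    rw [hm.windB_seen rfl hs0, div_self (hm.windB_vec_ne a)]
    have : ((s : ℂ) - 1) = ((s - 1 : ℝ) : ℂ) := by push_cast; ring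
    rw [this]
    exact Complex.arg_ofReal_of_neg (by linarith)
  refine ⟨h1, ?_⟩
  have h5 : seen p a.symm (p a.fst + s * vec p a) =
      Complex.arg (((p a.snd - (p a.fst + s * vec p a)) /
        (p a.fst - (p a.fst + s * vec p a)))⁻¹) := by
    rw [inv_div]; rfl
  have h6 : Complex.arg ((p a.snd - (p a.fst + s * vec p a)) /
        (p a.fst - (p a.fst + s * vec p a))) = π := h1
  rw [h5, Complex.arg_inv, if_pos h6]

end Pool.Agent.Mst
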